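import Mathlib

/-!
Geometric sums with ratio congruent to one modulo three take all residues modulo powers of three.
-/

set_option autoImplicit false

namespace Pool.Agent.PostTag

/-- The sum `1 + y + ... + y^(n-1)`. -/
def geo (y n : ℕ) : ℕ := ∑ j ∈ Finset.range n, y ^ j

theorem geo_zero (y : ℕ) : geo y 0 = 0 := by simp [geo]

theorem geo_add (y m n : ℕ) : geo y (m + n) = geo y m + y ^ m * geo y n := by
  unfold geo
  rw [Finset.sum_range_add, Finset.mul_sum]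
  congr 1
  apply Finset.sum_congr rfl
  intro j _
  rw [pow_add]

theorem geo_mul (y m n : ℕ) : geo y (m * n) = geo y m * geo (y ^ m) n := by
  induction n with
  | zero => simp [geo]
  | succ n ih =>
    rw [show m * (n + 1) = m * n + m by ring, geo_add, ih]
    have e : geo (y ^ m) (n + 1) = geo (y ^ m) n + (y ^ m) ^ n := by
      unfold geo
      rw [Finset.sum_range_succ]
    rw [e, ← pow_mul]
    ring

theorem pow_mod_three {y : ℕ} (hy : y % 3 = 1) (n : ℕ) : y ^ n % 3 = 1 := by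
  rw [Nat.pow_mod, hy]
  simp

theorem geo_mod_three {y : ℕ} (hy : y % 3 = 1) (n : ℕ) : geo y n % 3 = n % 3 := by
  induction n with
  | zero => simp [geo]
  | succ n ih =>
    have e : geo y (n + 1) = geo y n + y ^ n := by
      unfold geo
      rw [Finset.sum_range_succ]
    have h := pow_mod_three hy n
    omega

theorem geo_pow_three {y : ℕ} (hy : y % 3 = 1) (M : ℕ) :
    ∃ u, geo y (3 ^ M) = 3 ^ M * u ∧ u % 3 = 1 := by
  induction M with
  | zero => exact ⟨1, by simp [geo], rfl⟩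
  | succ M ih =>
    obtain ⟨u, h1, h2⟩ := ih
    obtain ⟨z, hz⟩ : ∃ z, y ^ 3 ^ M = 3 * z + 1 :=
      ⟨y ^ 3 ^ M / 3, by have := pow_mod_three hy (3 ^ M); omega⟩
    refine ⟨u * (1 + 3 * z + 3 * z ^ 2), ?_, ?_⟩
    · rw [pow_succ, geo_mul, h1, hz]
      have e : geo (3 * z + 1) 3 = 3 * (1 + 3 * z + 3 * z ^ 2) := by
        unfold geo
        simp only [Finset.sum_range_succ, Finset.sum_range_zero]
        ring
      rw [e]
      ring
    · have e : u * (1 + 3 * z + 3 * z ^ 2) = u + 3 * (u * (z + z ^ 2)) := by ring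
      rw [e]
      omega

theorem geo_surj {y : ℕ} (hy : y % 3 = 1) (M : ℕ) : ∀ c : ℕ, ∃ n, geo y n % 3 ^ M = c % 3 ^ M := by
  induction M with
  | zero => intro c; exact ⟨0, by simp [Nat.mod_one]⟩
  | succ M ih =>
    intro c
    obtain ⟨n, hn⟩ := ih c
    obtain ⟨u, h1, h2⟩ := geo_pow_three hy M
    have h3 : 0 < 3 ^ M := by positivity
    -- the missing digit
    obtain ⟨s, hs⟩ : ∃ s, (geo y n + 3 ^ M * s) % 3 ^ (M + 1) = c % 3 ^ (M + 1) := by
      refine ⟨(c / 3 ^ M) + 2 * (geo y n / 3 ^ M), ?_⟩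
      have e1 := Nat.div_add_mod c (3 ^ M)
      have e2 := Nat.div_add_mod (geo y n) (3 ^ M)
      have e3 : geo y n + 3 ^ M * (c / 3 ^ M + 2 * (geo y n / 3 ^ M))
          = c + 3 ^ (M + 1) * (geo y n / 3 ^ M) := by
        rw [hn] at e2
        calc geo y n + 3 ^ M * (c / 3 ^ M + 2 * (geo y n / 3 ^ M))
            = (3 ^ M * (geo y n / 3 ^ M) + c % 3 ^ M)
              + 3 ^ M * (c / 3 ^ M + 2 * (geo y n / 3 ^ M)) := by rw [e2]
          _ = (3 ^ M * (c / 3 ^ M) + c % 3 ^ M) + 3 ^ (M + 1) * (geo y n / 3 ^ M) := by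
              rw [pow_succ]; ring
          _ = _ := by rw [e1]
      rw [e3, Nat.add_mul_mod_self_left]
    refine ⟨n + 3 ^ M * s, ?_⟩
    rw [← hs, geo_add, geo_mul, h1]
    have h4 := geo_mod_three (pow_mod_three hy (3 ^ M)) s
    have h5 := pow_mod_three hy n
    clear hs
    generalize geo (y ^ 3 ^ M) s = g at h4 ⊢
    generalize y ^ n = z at h5 ⊢
    obtain ⟨a, ha⟩ : ∃ a, g = 3 * a + s % 3 := ⟨g / 3, by omega⟩
    obtain ⟨b, hb⟩ : ∃ b, z = 3 * b + 1 := ⟨z / 3, by omega⟩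
    obtain ⟨v, hv⟩ : ∃ v, u = 3 * v + 1 := ⟨u / 3, by omega⟩
    obtain ⟨w, hw⟩ : ∃ w, s = 3 * w + s % 3 := ⟨s / 3, by omega⟩
    obtain ⟨r, hr⟩ : ∃ r, r = s % 3 := ⟨_, rfl⟩
    rw [← hr] at ha hw
    have key : (geo y n + z * (3 ^ M * u * g)) + 3 ^ (M + 1) * w
        = (geo y n + 3 ^ M * s) + 3 ^ (M + 1) * (b * u * g + v * g + a) := by
      rw [pow_succ, hw, ha, hb, hv]
      ring
    have h6 := congrArg (· % 3 ^ (M + 1)) key
    simp only [Nat.add_mul_mod_self_left] at h6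
    exact h6

theorem geo_ge {y : ℕ} (hy : 1 ≤ y) (n : ℕ) : n ≤ geo y n := by
  unfold geo
  calc n = ∑ _j ∈ Finset.range n, 1 := by simp
    _ ≤ _ := Finset.sum_le_sum fun j _ => Nat.one_le_pow _ _ hy

/-- Geometric sums meet every residue class above every bound. -/
theorem geo_hits {y : ℕ} (hy : y % 3 = 1) (M c : ℕ) : ∃ n t, geo y n = c + 3 ^ M * t := by
  obtain ⟨n, hn⟩ := geo_surj hy M c
  obtain ⟨u, h1, -⟩ := geo_pow_three hy M
  have h2 : geo y (n + 3 ^ M * c) % 3 ^ M = c % 3 ^ M := by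
    rw [geo_add, geo_mul, h1, ← hn]
    have e : geo y n + y ^ n * (3 ^ M * u * geo (y ^ 3 ^ M) c)
        = geo y n + 3 ^ M * (y ^ n * u * geo (y ^ 3 ^ M) c) := by ring
    rw [e, Nat.add_mul_mod_self_left]
  have h3 : c ≤ geo y (n + 3 ^ M * c) := by
    have h4 := geo_ge (y := y) (by omega) (n + 3 ^ M * c)
    have h5 : c ≤ 3 ^ M * c := Nat.le_mul_of_pos_left c (by positivity)
    omega
  refine ⟨n + 3 ^ M * c, (geo y (n + 3 ^ M * c) - c) / 3 ^ M, ?_⟩
  have h6 : 3 ^ M ∣ geo y (n + 3 ^ M * c) - c := (Nat.modEq_iff_dvd' h3).1 h2.symm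
  rw [Nat.mul_div_cancel' h6]
  omega

end Pool.Agent.PostTag
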