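import Pool.Agent.PostTag.Lines2

/-!
Every line of inputs contains a residue class modulo a power of three of halting words.
-/

set_option autoImplicit false

namespace Pool.Agent.PostTag

/-- All members of the progression with parameters in a residue class modulo a power of three
halt. -/
def QS (p : ℕ) (L : List (List Bool × ℕ × ℕ)) : Prop :=
  ∃ n0 M : ℕ, ∀ t : ℕ, Halts ((dec (val (n0 + 3 ^ M * t) L)).drop (p % 3))

theorem QS_pass (p r : ℕ) (L : List (List Bool × ℕ × ℕ)) (h : QS (endp r p L) (passL r p L)) :
    QS p L := by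
  obtain ⟨n0, M, hn⟩ := h
  refine ⟨3 * n0 + r, M + 1, fun t => ?_⟩
  have e : 3 * n0 + r + 3 ^ (M + 1) * t = 3 * (n0 + 3 ^ M * t) + r := by ring
  rw [e]
  have h1 := halts_part (val (3 * (n0 + 3 ^ M * t) + r) L) p []
  rw [List.nil_append, List.append_nil, (T_val r _ L p).1, (T_val r _ L p).2] at h1
  exact h1 (hn t)

theorem QS_tri (p : ℕ) (L : List (List Bool × ℕ × ℕ)) (h : QS (endp 0 p L) (passL 0 p L)) :
    QS p (tri L) := by
  obtain ⟨n0, M, hn⟩ := h
  refine ⟨n0, M, fun t => ?_⟩
  rw [val_tri]
  have h1 := halts_part (val (3 * (n0 + 3 ^ M * t) + 0) L) p []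
  rw [List.nil_append, List.append_nil, (T_val 0 _ L p).1, (T_val 0 _ L p).2, add_zero] at h1
  exact h1 (hn t)

theorem kill_midS (d : ℕ) : ∀ (X u : List Bool), Reach d X u → true ∉ u →
    ∀ (L1 L2 : List (List Bool × ℕ × ℕ)) (U : List Bool) (m a m' a' p : ℕ), 3 ∣ tot L1 →
      ¬ 3 ∣ a →
      (∀ (q : ℕ) (L : List (List Bool × ℕ × ℕ)), L.length = L1.length + 1 + L2.length →
        0 < tot L → QS q L) →
      QS p (L1 ++ (U, m, a) :: (X, m', a') :: L2) := by
  induction d with
  | zero =>
    intro X u hr hu L1 L2 U m a m' a' p _ ha ih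
    have hr' : X = u := hr
    have e : X = List.replicate X.length false := by
      apply eq_replicate_of_no_b
      rw [hr']
      exact hu
    obtain ⟨n0, M, hn⟩ := ih p (L1 ++ (U, m + X.length + m', a + a') :: L2) (by simp; omega)
      (by rw [tot_append, tot_cons]; simp only []; omega)
    refine ⟨n0, M, fun t => ?_⟩
    have e2 : val (n0 + 3 ^ M * t) (L1 ++ (U, m, a) :: (X, m', a') :: L2)
        = val (n0 + 3 ^ M * t) (L1 ++ (U, m + X.length + m', a + a') :: L2) := by
      rw [val_append, val_append]
      simp only [val]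
      congr 2
      rw [e, List.length_replicate, ← List.append_assoc, ← List.append_assoc,
        ← List.replicate_add, ← List.replicate_add]
      congr 2
      ring
    rw [e2]
    exact hn t
  | succ d ihd =>
    intro X u hr hu L1 L2 U m a m' a' p h3 ha ih
    obtain ⟨q, hq, hr'⟩ := hr
    obtain ⟨r, hr⟩ := exists_r ha (endp 0 p L1 + chi U + m) q
    apply QS_pass p r
    rw [passL_append]
    simp only [passL]
    have e1 : (endp r p L1 + chi U + (m + a * r)) % 3 = q % 3 := by
      rw [endp_r]
      obtain ⟨c, hc⟩ := h3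
      have : tot L1 * r = 3 * (c * r) := by rw [hc]; ring
      omega
    rw [T_congr X e1]
    apply ihd (T q X) u hr' hu
    · rw [tot_passL]
      exact Dvd.dvd.mul_left h3 2
    · omega
    · intro q' L hL h0
      rw [passL_length, passL_length] at hL
      exact ih q' L hL h0

theorem rotateS (p l m a c : ℕ) (V : List Bool) (m2 a2 : ℕ) (L : List (List Bool × ℕ × ℕ))
    (hc : c = nm p (l + m))
    (h : QS (p + (l + m)) (tri L ++ [(V, m2 + c, 3 * a2 + 2 * a)])) :
    QS p ((List.replicate l false, m, a) :: (L ++ [(V, m2, a2)])) := by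
  obtain ⟨n0, M, hn'⟩ := h
  refine ⟨3 * n0, M + 1, fun t => ?_⟩
  have e : 3 * n0 + 3 ^ (M + 1) * t = 3 * (n0 + 3 ^ M * t) := by ring
  rw [e]
  have hn := hn' t
  generalize n0 + 3 ^ M * t = n at hn ⊢
  have h1 := halts_part (List.replicate (l + m + 3 * (a * n)) false) p
    (val (3 * n) (L ++ [(V, m2, a2)]))
  have e1 : val (3 * n) ((List.replicate l false, m, a) :: (L ++ [(V, m2, a2)])) =
      List.replicate (l + m + 3 * (a * n)) false ++ val (3 * n) (L ++ [(V, m2, a2)]) := by
    simp only [val]
    rw [← List.append_assoc, ← List.replicate_add]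
    congr 2
    ring
  have e2 : val (3 * n) (L ++ [(V, m2, a2)]) ++
      T p (List.replicate (l + m + 3 * (a * n)) false) =
      val n (tri L ++ [(V, m2 + c, 3 * a2 + 2 * a)]) := by
    rw [val_append, val_append, val_tri, T_replicate, nm_add, ← hc]
    simp only [val, List.append_nil]
    rw [List.append_assoc, List.append_assoc, ← List.replicate_add]
    congr 3
    ring
  have e3 : (p + chi (List.replicate (l + m + 3 * (a * n)) false)) % 3 = (p + (l + m)) % 3 := by
    rw [chi_replicate]
    omega
  rw [e1]
  apply h1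
  rw [e2, e3]
  exact hn

theorem kill_headS (d : ℕ) : ∀ (X0 u : List Bool), Reach d X0 u → true ∉ u →
    ∀ (p : ℕ) (X : List Bool) (m a : ℕ) (L : List (List Bool × ℕ × ℕ)), T p X = X0 →
      ¬ 3 ∣ tot ((X, m, a) :: L) →
      (L ≠ [] → ∀ (q : ℕ) (L' : List (List Bool × ℕ × ℕ)), L'.length = L.length →
        0 < tot L' → QS q L') →
      QS p ((X, m, a) :: L) := by
  induction d with
  | zero =>
    intro X0 u hr hu p X m a L hX ha ih
    have hr' : X0 = u := hr
    apply QS_pass p 0
    have e : T p X = List.replicate (T p X).length false := by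
      apply eq_replicate_of_no_b
      rw [hX, hr']
      exact hu
    have h2 := tot_passL 0 L (p + chi X + (m + a * 0))
    have h3 := passL_length 0 L (p + chi X + (m + a * 0))
    rw [tot_cons] at ha
    simp only [passL]
    obtain ⟨L2, hL2⟩ : ∃ L2, L2 = passL 0 (p + chi X + (m + a * 0)) L := ⟨_, rfl⟩
    rw [← hL2] at h2 h3 ⊢
    by_cases hne : L2 = []
    · -- everything is dead
      subst hne
      refine ⟨0, 0, fun t => ?_⟩
      rw [e]
      simp only [val, List.append_nil]
      rw [← List.replicate_add]
      apply halts_of_no_b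
      intro hmem
      simpa using List.eq_of_mem_replicate hmem
    · obtain ⟨L3, ⟨V, m2, a2⟩, rfl⟩ : ∃ L3 e, L2 = L3 ++ [e] :=
        ⟨L2.dropLast, L2.getLast hne, (List.dropLast_append_getLast hne).symm⟩
      have hL : L ≠ [] := by
        rintro rfl
        simp at h3
      rw [e]
      apply rotateS _ _ _ _ _ _ _ _ _ rfl
      apply ih hL
      · rw [← h3]
        simp [tri]
      · rw [tot_append, tot_cons] at h2 ⊢
        rw [tot_tri]
        simp only [] at ha h2 ⊢
        have h4 : 0 < a + tot L := by omega
        omega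
  | succ d ihd =>
    intro X0 u hr hu p X m a L hX ha ih
    obtain ⟨q, hq, hr'⟩ := hr
    obtain ⟨r, hr⟩ := exists_r ha (endp 0 p ((X, m, a) :: L)) q
    apply QS_pass p r
    have h1 : endp r p ((X, m, a) :: L) % 3 = q % 3 := by rw [endp_r, ← hr]
    have h2 := tot_passL r ((X, m, a) :: L) p
    have h3 := passL_length r L (p + chi X + (m + a * r))
    simp only [passL] at h2 ⊢
    refine ihd (T q X0) u hr' hu _ _ _ _ _ ?_ ?_ ?_
    · rw [hX]
      exact T_congr _ h1
    · rw [h2]
      omega
    · intro hne q' L' hL' h0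
      refine ih ?_ q' L' (by rw [hL', h3]) h0
      rintro rfl
      exact hne rfl

theorem multi_runsS (k : ℕ) : ∀ (t p : ℕ) (L : List (List Bool × ℕ × ℕ)), L.length = k →
    tot L = t → 0 < t → QS p L := by
  induction k with
  | zero =>
    intro t p L hL ht h0
    rw [List.length_eq_zero_iff] at hL
    subst hL
    simp [tot] at ht
    omega
  | succ k ihk =>
    intro t
    induction t using Nat.strong_induction_on with
    | _ t iht =>
      intro p L hL ht h0
      by_cases h3 : ∃ e ∈ L, ¬ 3 ∣ e.2.2
      · obtain ⟨L1, ⟨U, m, a⟩, L2, rfl, h4, h5⟩ := split_first L h3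
        rcases L2 with _ | ⟨⟨X, m', a'⟩, L2⟩
        · rcases L1 with _ | ⟨⟨X, m', a'⟩, L1⟩
          · -- one run
            obtain ⟨d, u, h6, h7⟩ := exists_kill (T p U)
            rw [List.nil_append]
            apply kill_headS d (T p U) u h6 h7 p U m a _ rfl
            · rw [tot_cons]
              simp only [tot, List.map_nil, List.sum_nil] at h5 ⊢
              omega
            · intro h
              exact absurd rfl h
          · obtain ⟨d, u, h6, h7⟩ := exists_kill (T p X)
            rw [List.cons_append]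
            apply kill_headS d (T p X) u h6 h7 p X m' a' _ rfl
            · rw [tot_cons] at h4 ⊢
              rw [tot_append, tot_cons]
              simp only [tot, List.map_nil, List.sum_nil] at h4 h5 ⊢
              omega
            · intro _ q L' hL' h0'
              exact ihk _ q L' (by rw [hL']; simpa using hL) rfl h0'
        · obtain ⟨d, u, h6, h7⟩ := exists_kill X
          apply kill_midS d X u h6 h7 L1 L2 U m a m' a' p h4 h5
          intro q L' hL' h0'
          refine ihk _ q L' ?_ rfl h0'
          rw [hL']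
          simp at hL
          omega
      · push Not at h3
        obtain ⟨L', rfl⟩ : ∃ L', L = tri L' := by
          clear hL ht iht
          induction L with
          | nil => exact ⟨[], rfl⟩
          | cons e L ih =>
            obtain ⟨L', hL'⟩ := ih (fun f hf => h3 f (List.mem_cons_of_mem _ hf))
            obtain ⟨c, hc⟩ := h3 e List.mem_cons_self
            refine ⟨(e.1, e.2.1, c) :: L', ?_⟩
            rw [hL']
            simp [tri, ← hc]
        rw [tot_tri] at ht
        apply QS_tri
        refine iht (2 * tot L') (by omega) _ _ ?_ (tot_passL 0 L' p) (by omega)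
        rw [passL_length]
        simpa [tri] using hL

/-- Every line of inputs contains a residue class modulo a power of three of halting words. -/
theorem lines_haltS (L : List (ℕ × ℕ × List Bool)) (h : ∃ e ∈ L, 0 < e.2.1) :
    ∃ n0 M : ℕ, ∀ t : ℕ, Halts (L.flatMap fun e =>
      List.replicate (e.1 + (n0 + 3 ^ M * t) * e.2.1) false ++ e.2.2) := by
  obtain ⟨P, hP⟩ : ∃ P, P = 2 * (L.flatMap fun e => List.replicate e.1 false ++ e.2.2).length :=
    ⟨_, rfl⟩
  obtain ⟨n0, M, hn'⟩ := multi_runsS _ _ P (conv [] 0 L) rfl rfl (tot_conv L 0 [] h)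
  refine ⟨3 * n0, M + 1, fun t => ?_⟩
  have e : 3 * n0 + 3 ^ (M + 1) * t = 3 * (n0 + 3 ^ M * t) := by ring
  rw [e]
  have hn := hn' t
  generalize n0 + 3 ^ M * t = n at hn ⊢
  have h1 := halts_raw (L.flatMap fun e => List.replicate (e.1 + 3 * n * e.2.1) false ++ e.2.2) 0 []
  have e1 := R_rval n L 0 []
  rw [List.nil_append] at e1
  have e2 := length_rval n L
  have e3 : (0 + 2 * (L.flatMap fun e =>
      List.replicate (e.1 + 3 * n * e.2.1) false ++ e.2.2).length) % 3 = P % 3 := by
    rw [hP]
    omega
  rw [List.nil_append, e1, e3, dec_nil, List.append_nil, Nat.zero_mod, List.drop_zero] at h1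
  exact h1 hn

end Pool.Agent.PostTag
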