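import Pool.Agent.PostTag.Final
import Pool.Agent.PostTag.Lines3
import Pool.Agent.PostTag.Geo

/-!
Automatic sets of non-halting inputs with exactly `N` ones are finite, for bases prime to three.
-/

set_option autoImplicit false

namespace Pool.Agent.PostTag

/-- The word `0^{x_0} U_0 0^{x_1} U_1 ... U_{N-1} 0^{x_N}`. -/
def padded {N : ℕ} (U : Fin N → List Bool) (x : Fin (N + 1) → ℕ) : List Bool :=
  (List.ofFn fun i : Fin N => List.replicate (x i.castSucc) false ++ U i).flatten ++
    List.replicate (x (Fin.last N)) false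

/-- Every line in `ℕ^(N+1)` contains a residue class of halting inputs. -/
theorem line_has_haltingS (N : ℕ) (U : Fin N → List Bool) (v p : Fin (N + 1) → ℕ) (hp : p ≠ 0) :
    ∃ n0 M : ℕ, ∀ t : ℕ, Halts (padded U (v + (n0 + 3 ^ M * t) • p)) := by
  obtain ⟨i, hi⟩ : ∃ i, p i ≠ 0 := by
    by_contra hc
    push Not at hc
    exact hp (funext hc)
  have hne : ∃ e ∈ (List.ofFn fun i : Fin N => (v i.castSucc, p i.castSucc, U i)) ++
      [(v (Fin.last N), p (Fin.last N), ([] : List Bool))], 0 < e.2.1 := by
    rcases Fin.eq_castSucc_or_eq_last i with ⟨j, rfl⟩ | rfl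
    · exact ⟨(v j.castSucc, p j.castSucc, U j), List.mem_append_left _
        (by rw [List.mem_ofFn]; exact ⟨j, rfl⟩), Nat.pos_of_ne_zero hi⟩
    · exact ⟨(v (Fin.last N), p (Fin.last N), []), by simp, Nat.pos_of_ne_zero hi⟩
  obtain ⟨n0, M, hn⟩ := lines_haltS _ hne
  refine ⟨n0, M, fun t => ?_⟩
  convert hn t using 1
  unfold padded
  rw [List.flatMap_append, List.flatMap_def, List.map_ofFn]
  simp [Function.comp_def]

theorem padded_ones (N : ℕ) : ∀ x : Fin (N + 1) → ℕ,
    padded (fun _ : Fin N => [true]) x = wd (List.ofFn x) := by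
  induction N with
  | zero => intro x; simp [padded, wd_singleton]
  | succ N ih =>
    intro x
    have h := ih (fun i => x i.succ)
    rw [List.ofFn_succ] at h ⊢
    rw [List.ofFn_succ, wd_cons]
    unfold padded at h ⊢
    rw [List.ofFn_succ, List.flatten_cons, ← h]
    simp [Fin.succ_last]

/-- The vector with the base `k` digit vectors `w`, most significant first. -/
def value {k m : ℕ} (w : List (Fin m → Fin k)) : Fin m → ℕ :=
  w.foldl (fun v d i => k * v i + (d i : ℕ)) 0

theorem foldl_value {k m : ℕ} (w : List (Fin m → Fin k)) : ∀ v : Fin m → ℕ,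
    w.foldl (fun v d i => k * v i + (d i : ℕ)) v = fun i => k ^ w.length * v i + value w i := by
  induction w with
  | nil => intro v; funext i; simp [value]
  | cons d w ih =>
    intro v
    have h1 := ih (fun i => k * v i + (d i : ℕ))
    have h2 := ih (fun i => k * (0 : Fin m → ℕ) i + (d i : ℕ))
    funext i
    unfold value
    rw [List.foldl_cons, List.foldl_cons, h1, h2]
    simp only [List.length_cons, pow_succ, Pi.zero_apply]
    ring

theorem value_append {k m : ℕ} (u w : List (Fin m → Fin k)) (i : Fin m) :
    value (u ++ w) i = k ^ w.length * value u i + value w i := by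
  have h := foldl_value w (value u)
  have e : value (u ++ w) = w.foldl (fun v d i => k * v i + (d i : ℕ)) (value u) := by
    unfold value
    rw [List.foldl_append]
  rw [e, h]

theorem value_single {k m : ℕ} (d : Fin m → Fin k) (i : Fin m) : value [d] i = (d i : ℕ) := by
  simp [value]

theorem value_cons {k m : ℕ} (d : Fin m → Fin k) (w : List (Fin m → Fin k)) (i : Fin m) :
    value (d :: w) i = k ^ w.length * (d i : ℕ) + value w i := by
  have h := value_append [d] w i
  rw [value_single] at h
  exact h

theorem value_lt {k m : ℕ} (w : List (Fin m → Fin k)) (i : Fin m) :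
    value w i < k ^ w.length := by
  induction w with
  | nil => simp [value]
  | cons d w ih =>
    rw [value_cons, List.length_cons, pow_succ]
    have h : (d i : ℕ) + 1 ≤ k := (d i).2
    calc k ^ w.length * (d i : ℕ) + value w i < k ^ w.length * (d i : ℕ) + k ^ w.length := by
          omega
      _ = k ^ w.length * ((d i : ℕ) + 1) := by ring
      _ ≤ _ := Nat.mul_le_mul_left _ h

theorem exists_repr {k m : ℕ} (hk : 2 ≤ k) (n : ℕ) : ∀ x : Fin m → ℕ, x ≠ 0 → ∑ i, x i ≤ n →
    ∃ (d : Fin m → Fin k) (w : List (Fin m → Fin k)), value (d :: w) = x ∧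
      ∃ i, (d i : ℕ) ≠ 0 := by
  induction n with
  | zero =>
    intro x hx h
    exfalso
    apply hx
    funext i
    have h1 := Finset.single_le_sum (f := x) (fun j _ => Nat.zero_le _) (Finset.mem_univ i)
    simp only [Pi.zero_apply]
    omega
  | succ n ih =>
    intro x hx h
    obtain ⟨δ, hδ⟩ : ∃ δ : Fin m → Fin k, ∀ i, (δ i : ℕ) = x i % k :=
      ⟨fun i => ⟨x i % k, Nat.mod_lt _ (by omega)⟩, fun i => rfl⟩
    by_cases hz : (fun i => x i / k) = 0
    · obtain ⟨i, hi⟩ : ∃ i, x i ≠ 0 := by
        by_contra hc
        push Not at hc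
        exact hx (funext hc)
      have h1 : ∀ j, x j % k = x j := fun j => by
        have h2 : x j / k = 0 := congrFun hz j
        have h3 := Nat.div_add_mod (x j) k
        rw [h2] at h3
        omega
      refine ⟨δ, [], ?_, i, ?_⟩
      · funext j
        rw [value_single, hδ, h1]
      · rw [hδ, h1]
        exact hi
    · have hsum : ∑ i, x i / k < ∑ i, x i := by
        obtain ⟨i, hi⟩ : ∃ i, x i / k ≠ 0 := by
          by_contra hc
          push Not at hc
          exact hz (funext hc)
        apply Finset.sum_lt_sum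
        · intro j _
          exact Nat.div_le_self _ _
        · refine ⟨i, Finset.mem_univ i, Nat.div_lt_self ?_ (by omega)⟩
          rcases Nat.eq_zero_or_pos (x i) with h1 | h1
          · simp [h1] at hi
          · exact h1
      obtain ⟨d, w, h1, h2⟩ := ih _ hz (by
        have : ∑ i, (fun i => x i / k) i = ∑ i, x i / k := rfl
        omega)
      refine ⟨d, w ++ [δ], ?_, h2⟩
      funext j
      rw [← List.cons_append, value_append, h1, value_single, hδ]
      simp only [List.length_singleton, pow_one]
      exact Nat.div_add_mod (x j) k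

theorem value_pump {k m : ℕ} (b : List (Fin m → Fin k)) (n : ℕ) (i : Fin m) :
    value (List.replicate n b).flatten i = geo (k ^ b.length) n * value b i := by
  induction n with
  | zero => simp [value, geo]
  | succ n ih =>
    have e : (List.replicate (n + 1) b).flatten = b ++ (List.replicate n b).flatten := by
      simp [List.replicate_succ]
    have e2 : geo (k ^ b.length) (n + 1) = geo (k ^ b.length) n + (k ^ b.length) ^ n := by
      unfold geo
      rw [Finset.sum_range_succ]
    have e3 : (List.replicate n b).flatten.length = b.length * n := by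
      simp [List.length_flatten, mul_comm]
    rw [e, value_append, ih, e2, e3, pow_mul]
    ring

theorem geo_pow {K : ℕ} (hK : 1 ≤ K) (n : ℕ) : (K - 1) * geo K n + 1 = K ^ n := by
  induction n with
  | zero => simp [geo]
  | succ n ih =>
    have e2 : geo K (n + 1) = geo K n + K ^ n := by
      unfold geo
      rw [Finset.sum_range_succ]
    rw [e2, mul_add, pow_succ]
    have h : (K - 1) * K ^ n + K ^ n = K ^ n * K := by
      obtain ⟨c, rfl⟩ : ∃ c, K = c + 1 := ⟨K - 1, by omega⟩
      simp only [Nat.add_sub_cancel]
      ring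
    omega

/-- A set of vectors is `k`-automatic: the digit words of its elements form a regular language. -/
def IsAutomatic (k m : ℕ) (S : Set (Fin m → ℕ)) : Prop :=
  Language.IsRegular ({w : List (Fin m → Fin k) | value w ∈ S} : Language (Fin m → Fin k))

/-- If every line contains a residue class of good points modulo some power of three, then every
`k`-automatic set without good points is finite, for `k` prime to three. -/
theorem automatic_finite (m k : ℕ) (hk : 2 ≤ k) (h3 : ¬ 3 ∣ k) (H : (Fin m → ℕ) → Prop)
    (hline : ∀ v p : Fin m → ℕ, p ≠ 0 → ∃ n0 M : ℕ, ∀ t : ℕ, H (v + (n0 + 3 ^ M * t) • p))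
    (S : Set (Fin m → ℕ)) (hS : IsAutomatic k m S) (h : ∀ x ∈ S, ¬ H x) : S.Finite := by
  by_contra hinf
  obtain ⟨σ, hσ, D, hD⟩ := hS
  obtain ⟨C, hC⟩ : ∃ C, C = Fintype.card σ := ⟨_, rfl⟩
  -- a large element
  obtain ⟨x, hxS, i0, hi0⟩ : ∃ x ∈ S, ∃ i, k ^ C ≤ x i := by
    by_contra hc
    push Not at hc
    apply hinf
    apply (Set.finite_Iic (fun _ : Fin m => k ^ C)).subset
    intro x hx i
    exact (hc x hx i).le
  have hx0 : x ≠ 0 := by
    rintro rfl
    have : 0 < k ^ C := by positivity
    simp only [Pi.zero_apply] at hi0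
    omega
  obtain ⟨d, w, hw, i1, hi1⟩ := exists_repr hk _ x hx0 le_rfl
  have hlen : C ≤ (d :: w).length := by
    have h1 := value_lt (d :: w) i0
    rw [hw] at h1
    by_contra hc
    push Not at hc
    have h2 : k ^ (d :: w).length ≤ k ^ C := Nat.pow_le_pow_right (by omega) hc.le
    omega
  have hacc : (d :: w) ∈ D.accepts := by
    rw [hD]
    change value (d :: w) ∈ S
    rw [hw]
    exact hxS
  rw [hC] at hlen
  obtain ⟨a, b, c, habc, -, hb, hpump⟩ := D.pumping_lemma hacc hlen
  have hmem : ∀ n, value (a ++ (List.replicate n b).flatten ++ c) ∈ S := by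
    intro n
    have hin : a ++ (List.replicate n b).flatten ++ c ∈
        (({a} : Language (Fin m → Fin k)) *
          KStar.kstar ({b} : Language (Fin m → Fin k)) *
          ({c} : Language (Fin m → Fin k))) := by
      rw [Language.mem_mul]
      refine ⟨a ++ (List.replicate n b).flatten, ?_, c, rfl, rfl⟩
      rw [Language.mem_mul]
      refine ⟨a, rfl, (List.replicate n b).flatten, ?_, rfl⟩
      rw [Language.mem_kstar]
      exact ⟨List.replicate n b, rfl, fun y hy => List.eq_of_mem_replicate hy⟩
    have h1 : a ++ (List.replicate n b).flatten ++ c ∈ D.accepts := hpump hin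
    rw [hD] at h1
    exact h1
  obtain ⟨K, hK⟩ : ∃ K, K = k ^ b.length := ⟨_, rfl⟩
  have hblen : 0 < b.length := List.length_pos_of_ne_nil hb
  have hK2 : 2 ≤ K := by
    rw [hK]
    calc 2 ≤ k := hk
      _ = k ^ 1 := (pow_one k).symm
      _ ≤ _ := Nat.pow_le_pow_right (by omega) hblen
  have hK3 : K ^ 2 % 3 = 1 := by
    have h4 : ¬ 3 ∣ K := fun hc => h3 (Nat.Prime.dvd_of_dvd_pow Nat.prime_three (hK ▸ hc))
    have h5 : K % 3 = 1 ∨ K % 3 = 2 := by omega
    rcases h5 with h5 | h5 <;> simp [Nat.pow_mod, h5]
  -- the line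
  obtain ⟨v, hv⟩ : ∃ v : Fin m → ℕ, ∀ i, v i = k ^ c.length * value a i + value c i :=
    ⟨_, fun i => rfl⟩
  obtain ⟨p, hp⟩ : ∃ p : Fin m → ℕ, ∀ i, p i =
      geo K 2 * (k ^ c.length * ((K - 1) * value a i + value b i)) := ⟨_, fun i => rfl⟩
  have hp0 : p ≠ 0 := by
    intro hc
    have h6 : p i1 = 0 := by rw [hc]; rfl
    rw [hp] at h6
    have h7 : 0 < geo K 2 := by
      have := geo_ge (y := K) (by omega) 2
      omega
    have h8 : 0 < k ^ c.length := by positivity
    have h9 : 0 < (K - 1) * value a i1 + value b i1 := by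
      rcases a with _ | ⟨d', a'⟩
      · rcases b with _ | ⟨d', b'⟩
        · exact absurd rfl hb
        · have h10 : d = d' := by
            have := congrArg List.head? habc
            simpa using this
          have h11 : 0 < value (d' :: b') i1 := by
            rw [value_cons, ← h10]
            have h12 : 0 < k ^ b'.length * (d i1 : ℕ) :=
              Nat.mul_pos (by positivity) (Nat.pos_of_ne_zero hi1)
            omega
          omega
      · have h10 : d = d' := by
          have := congrArg List.head? habc
          simpa using this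
        have h11 : 0 < value (d' :: a') i1 := by
          rw [value_cons, ← h10]
          have h12 : 0 < k ^ a'.length * (d i1 : ℕ) :=
            Nat.mul_pos (by positivity) (Nat.pos_of_ne_zero hi1)
          omega
        have h13 : 0 < (K - 1) * value (d' :: a') i1 := Nat.mul_pos (by omega) h11
        omega
    have h14 : 0 < geo K 2 * (k ^ c.length * ((K - 1) * value a i1 + value b i1)) :=
      Nat.mul_pos h7 (Nat.mul_pos h8 h9)
    omega
  obtain ⟨n0, M, hhalt⟩ := hline v p hp0
  obtain ⟨j, t, hjt⟩ := geo_hits hK3 M n0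
  have hval : value (a ++ (List.replicate (2 * j) b).flatten ++ c) = v + (n0 + 3 ^ M * t) • p := by
    funext i
    rw [value_append, value_append, value_pump, ← hK, ← hjt]
    have e1 : (List.replicate (2 * j) b).flatten.length = b.length * (2 * j) := by
      simp [List.length_flatten, mul_comm]
    have e2 := geo_pow (K := K) (by omega) (2 * j)
    have e3 : k ^ (b.length * (2 * j)) = (K - 1) * geo K (2 * j) + 1 := by
      rw [e2, hK, ← pow_mul]
    have e4 := geo_mul K 2 j
    rw [e1, e3, Pi.add_apply, Pi.smul_apply, smul_eq_mul, hv, hp, e4]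
    ring
  apply h _ (hmem (2 * j))
  rw [hval]
  exact hhalt t

end Pool.Agent.PostTag
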