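import Pool.Agent.PostTag.Rate

/-!
Every line of inputs with two blocks of ones and three runs of zeros contains a halting word.
-/

set_option autoImplicit false

namespace Pool.Agent.PostTag

open Finset Filter

/-- If not all phase vectors keep a `b`, then some word without `b` is reached. -/
theorem reach_of_N (d : ℕ) : ∀ X : List Bool, N d X < 3 ^ d → ∃ u, Reach d X u ∧ true ∉ u := by
  induction d with
  | zero =>
    intro X h
    refine ⟨X, rfl, fun hX => ?_⟩
    simp [N, hX] at h
  | succ d ih =>
    intro X h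
    simp only [N, pow_succ] at h
    have h1 : N d (T 0 X) < 3 ^ d ∨ N d (T 1 X) < 3 ^ d ∨ N d (T 2 X) < 3 ^ d := by omega
    rcases h1 with h1 | h1 | h1
    · obtain ⟨u, h2, h3⟩ := ih _ h1
      exact ⟨u, ⟨0, by norm_num, h2⟩, h3⟩
    · obtain ⟨u, h2, h3⟩ := ih _ h1
      exact ⟨u, ⟨1, by norm_num, h2⟩, h3⟩
    · obtain ⟨u, h2, h3⟩ := ih _ h1
      exact ⟨u, ⟨2, by norm_num, h2⟩, h3⟩

/-- Every word can be freed of the letter `b` by a suitable choice of the phases. -/
theorem exists_kill (X : List Bool) : ∃ d u, Reach d X u ∧ true ∉ u := by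
  have h := s_tendsto.const_mul (X.count true : ℝ)
  rw [mul_zero] at h
  obtain ⟨d, hd⟩ := (h.eventually (gt_mem_nhds (zero_lt_one' ℝ))).exists
  have h3 : (0 : ℝ) < 3 ^ d := by positivity
  have h4 : (N d X : ℝ) ≤ X.count true * N d [true] := by exact_mod_cast N_le_count d X
  have h5 : (N d X : ℝ) < 3 ^ d := by
    calc (N d X : ℝ) ≤ X.count true * N d [true] := h4
      _ = ((X.count true : ℝ) * s d) * 3 ^ d := by
          unfold s
          field_simp
      _ < 1 * 3 ^ d := mul_lt_mul_of_pos_right hd h3
      _ = 3 ^ d := one_mul _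
  obtain ⟨u, h6, h7⟩ := reach_of_N d X (by exact_mod_cast h5)
  exact ⟨d, u, h6, h7⟩

theorem eq_replicate_of_no_b {w : List Bool} (h : true ∉ w) :
    w = List.replicate w.length false := by
  apply List.eq_replicate_iff.2
  refine ⟨rfl, fun b hb => ?_⟩
  cases b
  · rfl
  · exact absurd hb h

/-- One run of zeros: some member of the progression halts. -/
theorem one_run (p : ℕ) (Y : List Bool) (M a : ℕ) (ha : 0 < a) :
    ∃ n, Halts ((dec (Y ++ List.replicate (M + a * n) false)).drop (p % 3)) := by
  by_contra hcon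
  push Not at hcon
  obtain ⟨C, hC⟩ := density_bound
  obtain ⟨c, hc⟩ : ∃ c, c = p % 3 - (dec Y).length := ⟨_, rfl⟩
  obtain ⟨u, hu⟩ : ∃ u, u = (dec Y).drop (p % 3) := ⟨_, rfl⟩
  have hc2 : c ≤ 2 := by omega
  have hword : ∀ n, (dec (Y ++ List.replicate (M + a * n) false)).drop (p % 3) =
      u ++ List.replicate (2 * (M + a * n) - c) false ++ [] := by
    intro n
    rw [dec_append, dec_replicate_false, List.drop_append, List.drop_replicate, ← hc, ← hu,
      List.append_nil]
  have hbad : ∀ n, ¬ Halts (u ++ List.replicate (2 * (M + a * n) - c) false ++ []) := by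
    intro n
    rw [← hword]
    exact hcon n
  -- the bound
  obtain ⟨B, hB⟩ : ∃ B : ℝ, B = |C| * (u.count true : ℝ) * ((2 * M + 4 * a + 16 : ℕ) : ℝ) :=
    ⟨_, rfl⟩
  have hB0 : 0 ≤ B := by rw [hB]; positivity
  have hL : Tendsto (fun t : ℕ => 2 * (M + a * (t + 1)) + 16) atTop atTop := by
    refine tendsto_atTop_mono (fun t => ?_) tendsto_id
    have : t ≤ a * t := Nat.le_mul_of_pos_left t ha
    simp only [id]
    nlinarith
  have hlim : Tendsto (fun t : ℕ => Real.log (Real.log ((2 * (M + a * (t + 1)) + 16 : ℕ) : ℝ)))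
      atTop atTop :=
    Real.tendsto_log_atTop.comp (Real.tendsto_log_atTop.comp
      ((tendsto_natCast_atTop_atTop (R := ℝ)).comp hL))
  obtain ⟨t, ht1, ht2⟩ := ((hlim.eventually_gt_atTop B).and (eventually_ge_atTop 1)).exists
  obtain ⟨L, hLe⟩ : ∃ L, L = 2 * (M + a * (t + 1)) + 16 := ⟨_, rfl⟩
  rw [← hLe] at ht1
  classical
  have h1 := hC u [] L (by omega)
  have h2 : t ≤ ((range L).filter
      (fun i => ¬ Halts (u ++ List.replicate i false ++ []))).card := by
    have h3 : (range t).card ≤ ((range L).filter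
        (fun i => ¬ Halts (u ++ List.replicate i false ++ []))).card := by
      refine Finset.card_le_card_of_injOn (fun n => 2 * (M + a * (n + 1)) - c) ?_ ?_
      · intro n hn
        have hn' : n < t := by simpa using hn
        have h4 : a * (n + 1) ≤ a * (t + 1) := Nat.mul_le_mul_left a (by omega)
        simp only [coe_filter, mem_range]
        exact ⟨by omega, hbad (n + 1)⟩
      · intro x _ y _ hxy
        have h5 : 2 * (M + a * (x + 1)) - c = 2 * (M + a * (y + 1)) - c := hxy
        have h6 : 1 ≤ a * (x + 1) := Nat.mul_pos ha (by omega)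
        have h7 : 1 ≤ a * (y + 1) := Nat.mul_pos ha (by omega)
        have h8 : a * (x + 1) = a * (y + 1) := by omega
        have h9 := Nat.eq_of_mul_eq_mul_left ha h8
        omega
    rwa [card_range] at h3
  have hll : 0 < Real.log (Real.log L) := lt_of_le_of_lt hB0 ht1
  have h3 : (t : ℝ) ≤ C * ((u.count true : ℝ) + ([] : List Bool).count true) * L /
      Real.log (Real.log L) := le_trans (by exact_mod_cast h2) h1
  rw [le_div_iff₀ hll] at h3
  have h4 : (L : ℝ) ≤ ((2 * M + 4 * a + 16 : ℕ) : ℝ) * t := by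
    have h5 : L ≤ (2 * M + 4 * a + 16) * t := by
      rw [hLe]
      nlinarith
    exact_mod_cast h5
  have h6 : C * ((u.count true : ℝ) + ([] : List Bool).count true) * L ≤ B * t := by
    have h7 : C * ((u.count true : ℝ) + ([] : List Bool).count true) ≤
        |C| * (u.count true : ℝ) := by
      have e : ((([] : List Bool).count true : ℕ) : ℝ) = 0 := by simp
      rw [e, add_zero]
      exact mul_le_mul_of_nonneg_right (le_abs_self C) (Nat.cast_nonneg _)
    calc C * ((u.count true : ℝ) + ([] : List Bool).count true) * L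
        ≤ |C| * (u.count true : ℝ) * L := mul_le_mul_of_nonneg_right h7 (Nat.cast_nonneg _)
      _ ≤ |C| * (u.count true : ℝ) * (((2 * M + 4 * a + 16 : ℕ) : ℝ) * t) :=
          mul_le_mul_of_nonneg_left h4 (by positivity)
      _ = B * t := by rw [hB]; ring
  have ht0 : (0 : ℝ) < t := by exact_mod_cast ht2
  have h8 : B * t < t * Real.log (Real.log L) := by
    rw [mul_comm]
    exact mul_lt_mul_of_pos_left ht1 ht0
  linarith

theorem nm_congr {p q : ℕ} (h : p % 3 = q % 3) (m : ℕ) : nm p m = nm q m := by
  simp only [nm, h]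

theorem nm_add (p m t : ℕ) : nm p (m + 3 * t) = nm p m + 2 * t := by
  simp only [nm]
  omega

/-- Some member of the progression of words with two runs of zeros halts. -/
def Q (p : ℕ) (X : List Bool) (m a : ℕ) (Y : List Bool) (m' a' : ℕ) : Prop :=
  ∃ n : ℕ, Halts ((dec (X ++ List.replicate (m + a * n) false ++ Y ++
    List.replicate (m' + a' * n) false)).drop (p % 3))

theorem full_pass (p A B : ℕ) (X Y : List Bool)
    (h : Halts ((dec (T p X ++ List.replicate (nm (p + chi X) A) false ++
      T (p + chi X + A) Y ++ List.replicate (nm (p + chi X + A + chi Y) B) false)).drop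
        ((p + chi X + A + chi Y + B) % 3))) :
    Halts ((dec (X ++ List.replicate A false ++ Y ++ List.replicate B false)).drop (p % 3)) := by
  have h1 := halts_part (X ++ List.replicate A false ++ Y ++ List.replicate B false) p []
  have e1 : T p (X ++ List.replicate A false ++ Y ++ List.replicate B false) =
      T p X ++ List.replicate (nm (p + chi X) A) false ++
      T (p + chi X + A) Y ++ List.replicate (nm (p + chi X + A + chi Y) B) false := by
    simp only [T_append, T_replicate, chi_append, chi_replicate, ← add_assoc]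
  have e4 : p + chi (X ++ List.replicate A false ++ Y ++ List.replicate B false) =
      p + chi X + A + chi Y + B := by
    rw [chi_append, chi_append, chi_append, chi_replicate, chi_replicate]
    ring
  rw [List.nil_append, List.append_nil, e1, e4] at h1
  exact h1 h

theorem Q_pass (p : ℕ) (X : List Bool) (m a : ℕ) (Y : List Bool) (m' a' r : ℕ)
    (h : Q (p + chi X + (m + a * r) + chi Y + (m' + a' * r)) (T p X)
      (nm (p + chi X) (m + a * r)) (2 * a) (T (p + chi X + (m + a * r)) Y)
      (nm (p + chi X + (m + a * r) + chi Y) (m' + a' * r)) (2 * a')) :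
    Q p X m a Y m' a' := by
  obtain ⟨n, hn⟩ := h
  refine ⟨3 * n + r, full_pass _ _ _ _ _ ?_⟩
  have e1 : m + a * (3 * n + r) = (m + a * r) + 3 * (a * n) := by ring
  have e2 : m' + a' * (3 * n + r) = (m' + a' * r) + 3 * (a' * n) := by ring
  have e3 : T (p + chi X + (m + a * r + 3 * (a * n))) Y = T (p + chi X + (m + a * r)) Y :=
    T_congr Y (by omega)
  have e4 : nm (p + chi X + (m + a * r + 3 * (a * n)) + chi Y) (m' + a' * r) =
      nm (p + chi X + (m + a * r) + chi Y) (m' + a' * r) := nm_congr (by omega) _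
  have e5 : (p + chi X + (m + a * r + 3 * (a * n)) + chi Y + (m' + a' * r + 3 * (a' * n))) % 3 =
      (p + chi X + (m + a * r) + chi Y + (m' + a' * r)) % 3 := by omega
  rw [e1, e2, nm_add, nm_add, e3, e4, e5, ← mul_assoc, ← mul_assoc]
  exact hn

theorem Q_pass3 (p : ℕ) (X : List Bool) (m a : ℕ) (Y : List Bool) (m' a' : ℕ)
    (h : Q (p + chi X + m + chi Y + m') (T p X) (nm (p + chi X) m) (2 * a)
      (T (p + chi X + m) Y) (nm (p + chi X + m + chi Y) m') (2 * a')) :
    Q p X m (3 * a) Y m' (3 * a') := by
  obtain ⟨n, hn⟩ := h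
  refine ⟨n, full_pass _ _ _ _ _ ?_⟩
  have e1 : m + 3 * a * n = m + 3 * (a * n) := by ring
  have e2 : m' + 3 * a' * n = m' + 3 * (a' * n) := by ring
  have e3 : T (p + chi X + (m + 3 * (a * n))) Y = T (p + chi X + m) Y :=
    T_congr Y (by omega)
  have e4 : nm (p + chi X + (m + 3 * (a * n)) + chi Y) m' =
      nm (p + chi X + m + chi Y) m' := nm_congr (by omega) _
  have e5 : (p + chi X + (m + 3 * (a * n)) + chi Y + (m' + 3 * (a' * n))) % 3 =
      (p + chi X + m + chi Y + m') % 3 := by omega
  rw [e1, e2, nm_add, nm_add, e3, e4, e5, ← mul_assoc, ← mul_assoc]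
  exact hn

theorem exists_r {a : ℕ} (ha : ¬ 3 ∣ a) (c q : ℕ) : ∃ r, (c + a * r) % 3 = q % 3 := by
  have h : a % 3 = 1 ∨ a % 3 = 2 := by omega
  obtain ⟨b, hb⟩ : ∃ b, b = a / 3 := ⟨_, rfl⟩
  rcases h with h | h
  · have e : a = 3 * b + 1 := by omega
    refine ⟨q + 2 * c, ?_⟩
    have e2 : c + a * (q + 2 * c) = q + 3 * (c + b * (q + 2 * c)) := by rw [e]; ring
    rw [e2]
    omega
  · have e : a = 3 * b + 2 := by omega
    refine ⟨2 * q + c, ?_⟩
    have e2 : c + a * (2 * q + c) = q + 3 * (q + c + b * (2 * q + c)) := by rw [e]; ring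
    rw [e2]
    omega

/-- The first word is `a^j`: the first run is moved to the end. -/
theorem Q_zero (p j m a : ℕ) (Y : List Bool) (m' a' : ℕ) (h : 0 < a + a') :
    Q p (List.replicate j false) m a Y m' a' := by
  obtain ⟨n, hn⟩ := one_run (p + (j + m)) Y (m' + nm p (j + m)) (3 * a' + 2 * a) (by omega)
  refine ⟨3 * n, ?_⟩
  have h1 := halts_part (List.replicate (j + m + 3 * (a * n)) false) p
    (Y ++ List.replicate (m' + a' * (3 * n)) false)
  have e1 : List.replicate j false ++ List.replicate (m + a * (3 * n)) false ++ Y ++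
      List.replicate (m' + a' * (3 * n)) false =
      List.replicate (j + m + 3 * (a * n)) false ++
        (Y ++ List.replicate (m' + a' * (3 * n)) false) := by
    rw [← List.replicate_add, List.append_assoc]
    congr 2
    ring
  have e2 : Y ++ List.replicate (m' + a' * (3 * n)) false ++
      T p (List.replicate (j + m + 3 * (a * n)) false) =
      Y ++ List.replicate (m' + nm p (j + m) + (3 * a' + 2 * a) * n) false := by
    rw [T_replicate, nm_add, List.append_assoc, ← List.replicate_add]
    congr 2
    ring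
  have e3 : (p + chi (List.replicate (j + m + 3 * (a * n)) false)) % 3 =
      (p + (j + m)) % 3 := by
    rw [chi_replicate]
    omega
  rw [e1]
  apply h1
  rw [e2, e3]
  exact hn

/-- The first word can be freed of `b`. -/
theorem kill_first (d : ℕ) : ∀ (X0 u : List Bool), Reach d X0 u → true ∉ u →
    ∀ (p : ℕ) (X : List Bool) (m a : ℕ) (Y : List Bool) (m' a' : ℕ), T p X = X0 →
      ¬ 3 ∣ (a + a') → Q p X m a Y m' a' := by
  induction d with
  | zero =>
    intro X0 u hr hu p X m a Y m' a' hX ha
    have hr' : X0 = u := hr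
    apply Q_pass p X m a Y m' a' 0
    have e : T p X = List.replicate (T p X).length false := by
      apply eq_replicate_of_no_b
      rw [hX, hr']
      exact hu
    rw [e]
    apply Q_zero
    omega
  | succ d ih =>
    intro X0 u hr hu p X m a Y m' a' hX ha
    obtain ⟨q, hq, hr'⟩ := hr
    obtain ⟨r, hr⟩ := exists_r ha (p + chi X + m + chi Y + m') q
    apply Q_pass p X m a Y m' a' r
    refine ih (T q X0) u hr' hu _ _ _ _ _ _ _ ?_ (by omega)
    rw [hX]
    refine T_congr _ ?_
    rw [← hr]
    congr 1
    ring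

/-- The second word can be freed of `b`. -/
theorem kill_second (d : ℕ) : ∀ (Y u : List Bool), Reach d Y u → true ∉ u →
    ∀ (p : ℕ) (X : List Bool) (m a m' a' : ℕ), ¬ 3 ∣ a → Q p X m a Y m' a' := by
  induction d with
  | zero =>
    intro Y u hr hu p X m a m' a' ha
    have hr' : Y = u := hr
    have e : Y = List.replicate Y.length false := by
      apply eq_replicate_of_no_b
      rw [hr']
      exact hu
    obtain ⟨n, hn⟩ := one_run p X (m + Y.length + m') (a + a') (by omega)
    refine ⟨n, ?_⟩
    have e2 : X ++ List.replicate (m + a * n) false ++ Y ++ List.replicate (m' + a' * n) false =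
        X ++ List.replicate (m + Y.length + m' + (a + a') * n) false := by
      rw [e, List.length_replicate, List.append_assoc, List.append_assoc, ← List.replicate_add,
        ← List.replicate_add]
      congr 2
      ring
    rw [e2]
    exact hn
  | succ d ih =>
    intro Y u hr hu p X m a m' a' ha
    obtain ⟨q, hq, hr'⟩ := hr
    obtain ⟨r, hr⟩ := exists_r ha (p + chi X + m) q
    apply Q_pass p X m a Y m' a' r
    have e : T (p + chi X + (m + a * r)) Y = T q Y := by
      refine T_congr _ ?_
      rw [← hr]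
      congr 1
      ring
    rw [e]
    exact ih (T q Y) u hr' hu _ _ _ _ _ _ (by omega)

/-- Two runs of zeros: some member of the progression halts. -/
theorem two_runs (t : ℕ) : ∀ (p : ℕ) (X : List Bool) (m a : ℕ) (Y : List Bool) (m' a' : ℕ),
    a + a' = t → 0 < t → Q p X m a Y m' a' := by
  induction t using Nat.strong_induction_on with
  | _ t ih =>
    intro p X m a Y m' a' ht h0
    by_cases h3 : 3 ∣ a ∧ 3 ∣ a'
    · obtain ⟨⟨b, rfl⟩, ⟨b', rfl⟩⟩ := h3
      apply Q_pass3
      exact ih (2 * b + 2 * b') (by omega) _ _ _ _ _ _ _ rfl (by omega)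
    · by_cases h4 : 3 ∣ a + a'
      · obtain ⟨d, u, h5, h6⟩ := exists_kill Y
        exact kill_second d Y u h5 h6 p X m a m' a' (by omega)
      · obtain ⟨d, u, h5, h6⟩ := exists_kill (T p X)
        exact kill_first d (T p X) u h5 h6 p X m a Y m' a' rfl h4

/-- Three runs of zeros: some member of the progression halts. -/
theorem line_halts (i p0 : ℕ) (U : List Bool) (j p2 : ℕ) (V : List Bool) (k p4 : ℕ)
    (h : 0 < p0 + p2 + p4) :
    ∃ n : ℕ, Halts (List.replicate (i + n * p0) false ++ U ++
      List.replicate (j + n * p2) false ++ V ++ List.replicate (k + n * p4) false) := by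
  obtain ⟨P, hP⟩ : ∃ P, P = 2 * (i + U.length + j + V.length + k) := ⟨_, rfl⟩
  obtain ⟨c0, hc0⟩ : ∃ c, c = rn 0 i := ⟨_, rfl⟩
  obtain ⟨c2, hc2⟩ : ∃ c, c = rn (2 * (i + U.length)) j := ⟨_, rfl⟩
  obtain ⟨c4, hc4⟩ : ∃ c, c = rn (2 * (i + U.length + j + V.length)) k := ⟨_, rfl⟩
  obtain ⟨n, hn⟩ := two_runs (3 * p2 + (3 * p4 + 2 * p0)) (P + c0) (R (2 * i) U) c2 (3 * p2)
    (R (2 * (i + U.length + j)) V) (c4 + nm P c0) (3 * p4 + 2 * p0) rfl (by omega)
  refine ⟨3 * (3 * n), ?_⟩
  have h1 := halts_raw (List.replicate (i + 3 * (3 * n) * p0) false ++ U ++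
      List.replicate (j + 3 * (3 * n) * p2) false ++ V ++
      List.replicate (k + 3 * (3 * n) * p4) false) 0 []
  have e0 : i + 3 * (3 * n) * p0 = 3 * (3 * (p0 * n)) + i := by ring
  have e2 : j + 3 * (3 * n) * p2 = 3 * (3 * (p2 * n)) + j := by ring
  have e4 : k + 3 * (3 * n) * p4 = 3 * (3 * (p4 * n)) + k := by ring
  have eR : R 0 (List.replicate (i + 3 * (3 * n) * p0) false ++ U ++
      List.replicate (j + 3 * (3 * n) * p2) false ++ V ++
      List.replicate (k + 3 * (3 * n) * p4) false) =
      List.replicate (c0 + 3 * (p0 * n)) false ++ (R (2 * i) U ++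
        List.replicate (c2 + 3 * p2 * n) false ++ R (2 * (i + U.length + j)) V ++
        List.replicate (c4 + 3 * (p4 * n)) false) := by
    rw [e0, e2, e4, R_append, R_append, R_append, R_append, R_replicate, R_replicate,
      R_replicate]
    simp only [List.length_append, List.length_replicate, zero_add]
    rw [rn_three_mul, rn_three_mul, rn_three_mul,
      R_congr U (p := 2 * (3 * (3 * (p0 * n)) + i)) (q := 2 * i) (by omega),
      rn_congr j (p := 2 * (3 * (3 * (p0 * n)) + i + U.length)) (q := 2 * (i + U.length))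
        (by omega),
      R_congr V (p := 2 * (3 * (3 * (p0 * n)) + i + U.length + (3 * (3 * (p2 * n)) + j)))
        (q := 2 * (i + U.length + j)) (by omega),
      rn_congr k (p := 2 * (3 * (3 * (p0 * n)) + i + U.length + (3 * (3 * (p2 * n)) + j) +
        V.length)) (q := 2 * (i + U.length + j + V.length)) (by omega), ← hc0, ← hc2, ← hc4]
    have f0 : 3 * (p0 * n) + c0 = c0 + 3 * (p0 * n) := add_comm _ _
    have f2 : 3 * (p2 * n) + c2 = c2 + 3 * p2 * n := by ring
    have f4 : 3 * (p4 * n) + c4 = c4 + 3 * (p4 * n) := add_comm _ _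
    rw [f0, f2, f4]
    simp only [List.append_assoc]
  have eP : (0 + 2 * (List.replicate (i + 3 * (3 * n) * p0) false ++ U ++
      List.replicate (j + 3 * (3 * n) * p2) false ++ V ++
      List.replicate (k + 3 * (3 * n) * p4) false).length) % 3 = P % 3 := by
    rw [e0, e2, e4]
    simp only [List.length_append, List.length_replicate]
    rw [hP]
    omega
  rw [eR, eP, List.nil_append, dec_nil, List.append_nil, Nat.zero_mod, List.drop_zero] at h1
  apply h1
  apply halts_part
  have e5 : (P + chi (List.replicate (c0 + 3 * (p0 * n)) false)) % 3 = (P + c0) % 3 := by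
    rw [chi_replicate]
    omega
  have e6 : R (2 * i) U ++ List.replicate (c2 + 3 * p2 * n) false ++
      R (2 * (i + U.length + j)) V ++ List.replicate (c4 + 3 * (p4 * n)) false ++
      T P (List.replicate (c0 + 3 * (p0 * n)) false) =
      R (2 * i) U ++ List.replicate (c2 + 3 * p2 * n) false ++ R (2 * (i + U.length + j)) V ++
        List.replicate (c4 + nm P c0 + (3 * p4 + 2 * p0) * n) false := by
    rw [T_replicate, nm_add, List.append_assoc _ (List.replicate (c4 + 3 * (p4 * n)) false),
      ← List.replicate_add]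
    congr 2
    ring
  rw [e5, e6]
  exact hn

end Pool.Agent.PostTag
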