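import Mathlib

/-!
Post's tag system `0 -> 00`, `1 -> 1101` (shift 3) as an iterated three-phase transducer.
-/

set_option autoImplicit false

namespace Pool.Agent.PostTag

/-- One step of Post's tag system: delete three symbols, append `1101` or `00`. -/
def step (w : List Bool) : List Bool :=
  w.drop 3 ++ (if w.headI then [true, true, false, true] else [false, false])

/-- The computation on `w` reaches a word of length less than three. -/
def Halts (w : List Bool) : Prop := ∃ k : ℕ, (step^[k] w).length < 3

theorem Halts.of_step {w : List Bool} (h : Halts (step w)) : Halts w := by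
  obtain ⟨k, hk⟩ := h
  exact ⟨k + 1, by simpa [Function.iterate_succ_apply] using hk⟩

theorem Halts.of_short {w : List Bool} (h : w.length < 3) : Halts w := ⟨0, by simpa using h⟩

theorem halts_replicate (n : ℕ) : Halts (List.replicate n false) := by
  induction n using Nat.strong_induction_on with
  | _ n ih =>
    rcases Nat.lt_or_ge n 3 with h | h
    · exact Halts.of_short (by simpa using h)
    · apply Halts.of_step
      obtain ⟨m, rfl⟩ : ∃ m, n = m + 3 := ⟨n - 3, by omega⟩
      have e : step (List.replicate (m + 3) false) = List.replicate (m + 2) false := by
        have h1 : (List.replicate (m + 3) false).headI = false := by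
          simp [List.replicate_succ]
        simp only [step, h1, List.drop_replicate]
        rw [List.replicate_add m 2 false]
        simp [List.replicate]
      rw [e]
      exact ih (m + 2) (by omega)

/-- The block coded by a letter (`true` is `b = 1101`, `false` is `a = 00`). -/
def blk (x : Bool) : List Bool := if x then [true, true, false, true] else [false, false]

/-- Decoding of a block word. -/
def dec (w : List Bool) : List Bool := w.flatMap blk

@[simp] theorem dec_nil : dec [] = [] := rfl
@[simp] theorem dec_cons (x : Bool) (w : List Bool) : dec (x :: w) = blk x ++ dec w := by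
  simp [dec]
theorem dec_append (u v : List Bool) : dec (u ++ v) = dec u ++ dec v := by
  simp [dec]

/-- Output of the transducer: phase (number of symbols to be skipped, mod 3) and letter. -/
def out (p : ℕ) (x : Bool) : List Bool :=
  if p % 3 = 0 then (if x then [true, true] else [false])
  else if p % 3 = 1 then (if x then [true] else [false])
  else (if x then [false] else [])

/-- Phase increment of a letter. -/
def wt (x : Bool) : ℕ := if x then 2 else 1

/-- The transducer. -/
def T : ℕ → List Bool → List Bool
  | _, [] => []
  | p, x :: w => out p x ++ T (p + wt x) w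

/-- Phase increment of a word. -/
def chi : List Bool → ℕ
  | [] => 0
  | x :: w => wt x + chi w

@[simp] theorem T_nil (p : ℕ) : T p [] = [] := rfl
theorem T_cons (p : ℕ) (x : Bool) (w : List Bool) : T p (x :: w) = out p x ++ T (p + wt x) w := rfl
@[simp] theorem chi_nil : chi [] = 0 := rfl
@[simp] theorem chi_cons (x : Bool) (w : List Bool) : chi (x :: w) = wt x + chi w := rfl

theorem chi_append (u v : List Bool) : chi (u ++ v) = chi u + chi v := by
  induction u with
  | nil => simp
  | cons x u ih => simp [ih]; omega

theorem T_append (u v : List Bool) : ∀ p : ℕ, T p (u ++ v) = T p u ++ T (p + chi u) v := by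
  induction u with
  | nil => intro p; simp
  | cons x u ih =>
    intro p
    simp only [List.cons_append, T_cons, ih, chi_cons, List.append_assoc]
    congr 2
    congr 1
    omega

theorem out_congr {p q : ℕ} (h : p % 3 = q % 3) (x : Bool) : out p x = out q x := by
  simp [out, h]

theorem T_congr (w : List Bool) : ∀ {p q : ℕ}, p % 3 = q % 3 → T p w = T q w := by
  induction w with
  | nil => intros; rfl
  | cons x w ih =>
    intro p q h
    rw [T_cons, T_cons, out_congr h, ih (p := p + wt x) (q := q + wt x) (by omega)]

/-- One letter of the block word is processed. -/
theorem halts_letter (p : ℕ) (x : Bool) (rest : List Bool)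
    (h : Halts ((rest ++ dec (out p x)).drop ((p + wt x) % 3))) :
    Halts ((blk x ++ rest).drop (p % 3)) := by
  have hp : p % 3 = 0 ∨ p % 3 = 1 ∨ p % 3 = 2 := by omega
  rcases hp with hp | hp | hp <;> cases x
  · -- phase 0, letter a
    have e1 : (p + wt false) % 3 = 1 := by simp only [wt]; simp; omega
    rw [e1] at h
    rw [hp]
    rcases rest with _ | ⟨c, r⟩
    · exact Halts.of_short (by simp [blk])
    · apply Halts.of_step
      simpa [step, blk, out, hp] using h
  · have e1 : (p + wt true) % 3 = 2 := by simp only [wt]; simp; omega
    rw [e1] at h
    rw [hp]
    apply Halts.of_step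
    apply Halts.of_step
    have e2 : step (step (List.drop 0 (blk true ++ rest)))
        = List.drop 2 (rest ++ dec (out p true)) := by
      rcases rest with _ | ⟨c, _ | ⟨d, r⟩⟩ <;> simp [step, blk, out, hp]
    rw [e2]
    exact h
  · have e1 : (p + wt false) % 3 = 2 := by simp only [wt]; simp; omega
    rw [e1] at h
    rw [hp]
    rcases rest with _ | ⟨c, _ | ⟨d, r⟩⟩
    · exact Halts.of_short (by simp [blk])
    · exact Halts.of_short (by simp [blk])
    · apply Halts.of_step
      simpa [step, blk, out, hp] using h
  · have e1 : (p + wt true) % 3 = 0 := by simp only [wt]; simp; omega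
    rw [e1] at h
    rw [hp]
    apply Halts.of_step
    simpa [step, blk, out, hp] using h
  · have e1 : (p + wt false) % 3 = 0 := by simp only [wt]; simp; omega
    rw [e1] at h
    rw [hp]
    simpa [blk, out, hp] using h
  · have e1 : (p + wt true) % 3 = 1 := by simp only [wt]; simp; omega
    rw [e1] at h
    rw [hp]
    rcases rest with _ | ⟨c, r⟩
    · exact Halts.of_short (by simp [blk])
    · apply Halts.of_step
      simpa [step, blk, out, hp] using h

/-- Reading a first part `U` of the block word. -/
theorem halts_part (U : List Bool) : ∀ (p : ℕ) (W : List Bool),
    Halts ((dec (W ++ T p U)).drop ((p + chi U) % 3)) → Halts ((dec (U ++ W)).drop (p % 3)) := by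
  induction U with
  | nil => intro p W h; simpa using h
  | cons x U ih =>
    intro p W h
    rw [List.cons_append, dec_cons]
    apply halts_letter
    rw [← dec_append, List.append_assoc]
    apply ih
    rw [T_cons, ← List.append_assoc] at h
    rw [chi_cons, ← add_assoc] at h
    simpa using h

theorem dec_replicate_false (n : ℕ) : dec (List.replicate n false) = List.replicate (2 * n) false := by
  induction n with
  | zero => rfl
  | succ n ih =>
    rw [List.replicate_succ, dec_cons, ih, show 2 * (n + 1) = 2 + 2 * n by ring,
      List.replicate_add 2 (2 * n) false]
    rfl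

theorem halts_of_no_b (p : ℕ) (w : List Bool) (h : true ∉ w) : Halts ((dec w).drop (p % 3)) := by
  have e : w = List.replicate w.length false := by
    apply List.eq_replicate_iff.2
    refine ⟨rfl, fun b hb => ?_⟩
    cases b
    · rfl
    · exact absurd hb h
  rw [e, dec_replicate_false, List.drop_replicate]
  exact halts_replicate _

/-- Raw reading of a binary word: every third symbol. -/
def R : ℕ → List Bool → List Bool
  | _, [] => []
  | p, x :: s => (if p % 3 = 0 then [x] else []) ++ R (p + 2) s

theorem R_append (u v : List Bool) : ∀ p : ℕ, R p (u ++ v) = R p u ++ R (p + 2 * u.length) v := by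
  induction u with
  | nil => intro p; simp [R]
  | cons x u ih =>
    intro p
    simp only [List.cons_append, R, ih, List.append_assoc, List.length_cons]
    congr 2
    congr 1
    ring

theorem R_congr (w : List Bool) : ∀ {p q : ℕ}, p % 3 = q % 3 → R p w = R q w := by
  induction w with
  | nil => intros; rfl
  | cons x w ih =>
    intro p q h
    simp only [R]
    rw [h, ih (p := p + 2) (q := q + 2) (by omega)]

theorem halts_raw (s : List Bool) : ∀ (p : ℕ) (W : List Bool),
    Halts ((dec (W ++ R p s)).drop ((p + 2 * s.length) % 3)) → Halts ((s ++ dec W).drop (p % 3)) := by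
  induction s with
  | nil => intro p W h; simpa [R] using h
  | cons x s ih =>
    intro p W h
    have hp : p % 3 = 0 ∨ p % 3 = 1 ∨ p % 3 = 2 := by omega
    have hlen : (p + 2 * (x :: s).length) % 3 = (p + 2 + 2 * s.length) % 3 := by
      simp only [List.length_cons]; congr 1; ring
    rw [hlen] at h
    rcases hp with hp | hp | hp
    · have h' : Halts ((dec ((W ++ [x]) ++ R (p + 2) s)).drop ((p + 2 + 2 * s.length) % 3)) := by
        simpa [R, hp] using h
      have h2 := ih (p + 2) (W ++ [x]) h'
      have e1 : (p + 2) % 3 = 2 := by omega
      rw [e1] at h2
      rw [hp]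
      rcases Nat.lt_or_ge ((x :: s) ++ dec W).length 3 with hl | hl
      · exact Halts.of_short (by simpa using hl)
      · apply Halts.of_step
        have hl2 : 2 ≤ (s ++ dec W).length := by
          simp only [List.cons_append, List.length_cons] at hl; omega
        have e2 : step (List.drop 0 (x :: s ++ dec W)) = List.drop 2 (s ++ dec (W ++ [x])) := by
          rw [dec_append, ← List.append_assoc, List.drop_append_of_le_length hl2]
          cases x <;> simp [step, blk, dec]
        rw [e2]
        exact h2
    · have h' : Halts ((dec (W ++ R (p + 2) s)).drop ((p + 2 + 2 * s.length) % 3)) := by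
        simpa [R, hp] using h
      have h2 := ih (p + 2) W h'
      have e1 : (p + 2) % 3 = 0 := by omega
      rw [e1] at h2
      rw [hp]
      simpa using h2
    · have h' : Halts ((dec (W ++ R (p + 2) s)).drop ((p + 2 + 2 * s.length) % 3)) := by
        simpa [R, hp] using h
      have h2 := ih (p + 2) W h'
      have e1 : (p + 2) % 3 = 1 := by omega
      rw [e1] at h2
      rw [hp]
      simpa using h2

theorem count_out_le (p : ℕ) (x : Bool) : (out p x).count true ≤ 2 * [x].count true := by
  have hp : p % 3 = 0 ∨ p % 3 = 1 ∨ p % 3 = 2 := by omega
  rcases hp with hp | hp | hp <;> cases x <;> simp [out, hp]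

theorem count_T_le (w : List Bool) : ∀ p : ℕ, (T p w).count true ≤ 2 * w.count true := by
  induction w with
  | nil => intro p; simp
  | cons x w ih =>
    intro p
    rw [T_cons, List.count_append]
    have h1 := count_out_le p x
    have h2 := ih (p + wt x)
    have h3 : (x :: w).count true = [x].count true + w.count true := by
      rw [← List.singleton_append, List.count_append]
    omega

theorem count_R_le (w : List Bool) : ∀ p : ℕ, (R p w).count true ≤ w.count true := by
  induction w with
  | nil => intro p; simp [R]
  | cons x w ih =>
    intro p
    have h2 := ih (p + 2)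
    have h3 : (x :: w).count true = [x].count true + w.count true := by
      rw [← List.singleton_append, List.count_append]
    by_cases hp : p % 3 = 0
    · simp only [R, hp, if_true, List.count_append]
      omega
    · simp only [R, hp, if_false, List.nil_append]
      omega

end Pool.Agent.PostTag
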