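import Pool.Agent.PostTag.Extinct

/-!
Equidistribution of the phases when a run of zeros varies.
-/

set_option autoImplicit false

namespace Pool.Agent.PostTag

open Finset

/-- Length of the output on `m` letters `a` read from phase `p`. -/
def nm (p m : ℕ) : ℕ := m - (m + p % 3) / 3

theorem T_replicate (m : ℕ) : ∀ p : ℕ,
    T p (List.replicate m false) = List.replicate (nm p m) false := by
  induction m with
  | zero => intro p; simp [nm]
  | succ m ih =>
    intro p
    rw [List.replicate_succ, T_cons, ih]
    have hp : p % 3 = 0 ∨ p % 3 = 1 ∨ p % 3 = 2 := by omega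
    rcases hp with hp | hp | hp
    · have e : nm p (m + 1) = nm (p + wt false) m + 1 := by
        have e1 : (p + 1) % 3 = 1 := by omega
        simp only [nm, wt, Bool.false_eq_true, if_false, hp, e1]
        omega
      rw [e, List.replicate_succ]
      simp [out, hp]
    · have e : nm p (m + 1) = nm (p + wt false) m + 1 := by
        have e1 : (p + 1) % 3 = 2 := by omega
        simp only [nm, wt, Bool.false_eq_true, if_false, hp, e1]
        omega
      rw [e, List.replicate_succ]
      simp [out, hp]
    · have e : nm p (m + 1) = nm (p + wt false) m := by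
        have e1 : (p + 1) % 3 = 0 := by omega
        simp only [nm, wt, Bool.false_eq_true, if_false, hp, e1]
        omega
      rw [e]
      simp [out, hp]

theorem chi_replicate (m : ℕ) : chi (List.replicate m false) = m := by
  induction m with
  | zero => rfl
  | succ m ih => rw [List.replicate_succ, chi_cons, ih]; simp [wt]; omega

/-- Is there a `b` left after `k` passes, starting with phase `p` and the word `a^m X`?
(1 if yes, 0 if no.) -/
def bad : ℕ → ℕ → ℕ → List Bool → ℕ
  | 0, _, _, X => if true ∈ X then 1 else 0
  | k + 1, p, m, X => bad k (p + m + chi X) (nm p m) (T (p + m) X)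

theorem halts_of_bad (k : ℕ) : ∀ (p m : ℕ) (X : List Bool), bad k p m X = 0 →
    Halts ((dec (List.replicate m false ++ X)).drop (p % 3)) := by
  induction k with
  | zero =>
    intro p m X h
    apply halts_of_no_b
    simp only [bad] at h
    split_ifs at h with hX
    simp [hX]
  | succ k ih =>
    intro p m X h
    have h2 := ih _ _ _ h
    have h3 := halts_part (List.replicate m false ++ X) p []
    rw [List.nil_append, List.append_nil, T_append, T_replicate, chi_append, chi_replicate,
      ← add_assoc] at h3
    exact h3 h2

theorem bad_congr (k : ℕ) : ∀ (p q m : ℕ) (X : List Bool), p % 3 = q % 3 →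
    bad k p m X = bad k q m X := by
  induction k with
  | zero => intros; rfl
  | succ k ih =>
    intro p q m X h
    simp only [bad]
    rw [T_congr X (p := p + m) (q := q + m) (by omega)]
    have e : nm p m = nm q m := by simp only [nm, h]
    rw [e]
    exact ih _ _ _ _ (by omega)

theorem bad_periodic (k : ℕ) : ∀ (p m : ℕ) (X : List Bool),
    bad k p (m + 3 ^ k) X = bad k p m X := by
  induction k with
  | zero => intros; rfl
  | succ k ih =>
    intro p m X
    have h3 : 3 ^ (k + 1) = 3 * 3 ^ k := by ring
    simp only [bad]
    rw [T_congr X (p := p + (m + 3 ^ (k + 1))) (q := p + m) (by omega)]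
    have e : nm p (m + 3 ^ (k + 1)) = nm p m + 3 ^ k + 3 ^ k := by
      simp only [nm]
      omega
    rw [e, ih, ih]
    exact bad_congr k _ _ _ _ (by omega)

/-- Reindexing a full period. -/
theorem sum_affine {n a c : ℕ} (hn : 0 < n) (ha : Nat.Coprime a n) {f : ℕ → ℕ}
    (hf : ∀ m, f (m + n) = f m) : ∑ t ∈ range n, f (a * t + c) = ∑ t ∈ range n, f t := by
  have hmod : ∀ m, f (m % n) = f m := by
    have h1 : ∀ j m, f (m + n * j) = f m := by
      intro j
      induction j with
      | zero => intro m; simp
      | succ j ih =>
        intro m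
        rw [show m + n * (j + 1) = m + n * j + n by ring, hf, ih]
    intro m
    have h2 := h1 (m / n) (m % n)
    rw [Nat.mod_add_div] at h2
    exact h2.symm
  have hmaps : ∀ t ∈ range n, (a * t + c) % n ∈ range n := by
    intro t _
    exact mem_range.2 (Nat.mod_lt _ hn)
  have hinj : Set.InjOn (fun t => (a * t + c) % n) (range n : Set ℕ) := by
    intro x hx y hy hxy
    simp only [coe_range, Set.mem_Iio] at hx hy
    have h1 : a * x + c ≡ a * y + c [MOD n] := hxy
    have h2 : a * x ≡ a * y [MOD n] := Nat.ModEq.add_right_cancel' c h1
    have h3 : x ≡ y [MOD n] := Nat.ModEq.cancel_left_of_coprime (by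
      rw [Nat.coprime_comm] at ha; exact ha) h2
    exact Nat.ModEq.eq_of_lt_of_lt h3 hx hy
  have hsurj : Set.SurjOn (fun t => (a * t + c) % n) (range n : Set ℕ) (range n : Set ℕ) :=
    Finset.surjOn_of_injOn_of_card_le _ (by intro t ht; exact hmaps t ht) hinj le_rfl
  exact Finset.sum_nbij (fun t => (a * t + c) % n) hmaps hinj hsurj
    (fun t _ => (hmod _).symm)

theorem sum_three (f : ℕ → ℕ) (n : ℕ) :
    ∑ m ∈ range (3 * n), f m
      = ∑ t ∈ range n, f (3 * t) + ∑ t ∈ range n, f (3 * t + 1) + ∑ t ∈ range n, f (3 * t + 2) := by
  induction n with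
  | zero => simp
  | succ n ih =>
    rw [show 3 * (n + 1) = 3 * n + 1 + 1 + 1 by ring, sum_range_succ, sum_range_succ,
      sum_range_succ, ih, sum_range_succ, sum_range_succ, sum_range_succ]
    ring

theorem sum_bad (k : ℕ) : ∀ (p : ℕ) (X : List Bool),
    ∑ m ∈ range (3 ^ k), bad k p m X = N k X := by
  induction k with
  | zero => intro p X; simp [bad, N]
  | succ k ih =>
    intro p X
    rw [show 3 ^ (k + 1) = 3 * 3 ^ k by ring, sum_three]
    have key : ∀ r : ℕ, r < 3 → ∑ t ∈ range (3 ^ k), bad (k + 1) p (3 * t + r) X
        = N k (T (p + r) X) := by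
      intro r hr
      have h1 : ∀ t, bad (k + 1) p (3 * t + r) X
          = bad k (p + r + chi X) (2 * t + nm p r) (T (p + r) X) := by
        intro t
        simp only [bad]
        have e : nm p (3 * t + r) = 2 * t + nm p r := by
          simp only [nm]; omega
        rw [e, T_congr X (p := p + (3 * t + r)) (q := p + r) (by omega)]
        exact bad_congr k _ _ _ _ (by omega)
      simp only [h1]
      rw [sum_affine (n := 3 ^ k) (a := 2) (c := nm p r) (by positivity)
        (by apply Nat.Coprime.pow_right; decide)
        (f := fun m => bad k (p + r + chi X) m (T (p + r) X)) (fun m => bad_periodic k _ m _)]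
      exact ih _ _
    have k0 := key 0 (by norm_num)
    have k1 := key 1 (by norm_num)
    have k2 := key 2 (by norm_num)
    simp only [add_zero] at k0
    rw [k0, k1, k2]
    exact N_shift k p X

theorem sum_bad_shift (k p c : ℕ) (X : List Bool) (j : ℕ) :
    ∑ m ∈ range (j * 3 ^ k), bad k p (m + c) X = j * N k X := by
  induction j with
  | zero => simp
  | succ j ih =>
    rw [add_mul, one_mul, Finset.sum_range_add, ih, add_mul, one_mul]
    congr 1
    have h := sum_affine (n := 3 ^ k) (a := 1) (c := j * 3 ^ k + c) (by positivity)
      (Nat.coprime_one_left _) (f := fun m => bad k p m X) (fun m => bad_periodic k p m X)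
    rw [sum_bad] at h
    rw [← h]
    apply sum_congr rfl
    intro t _
    congr 1
    ring

theorem sum_bad_le (k p c : ℕ) (X : List Bool) (M : ℕ) :
    ∑ m ∈ range M, bad k p (m + c) X ≤ (M / 3 ^ k + 1) * N k X := by
  rw [← sum_bad_shift k p c X]
  apply sum_le_sum_of_subset
  apply range_subset_range.2
  have h3 : 0 < 3 ^ k := by positivity
  have h1 := Nat.mod_lt M h3
  have h2 := Nat.div_add_mod M (3 ^ k)
  rw [add_mul, one_mul, mul_comm]
  omega

/-- Number of letters read in a raw run of `n` zeros from phase `p`. -/
def rn (p : ℕ) : ℕ → ℕ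
  | 0 => 0
  | n + 1 => (if p % 3 = 0 then 1 else 0) + rn (p + 2) n

theorem R_replicate (n : ℕ) : ∀ p : ℕ,
    R p (List.replicate n false) = List.replicate (rn p n) false := by
  induction n with
  | zero => intro p; rfl
  | succ n ih =>
    intro p
    rw [List.replicate_succ, R, ih, rn, List.replicate_add]
    by_cases hp : p % 3 = 0 <;> simp [hp]

theorem rn_congr (n : ℕ) : ∀ {p q : ℕ}, p % 3 = q % 3 → rn p n = rn q n := by
  induction n with
  | zero => intros; rfl
  | succ n ih =>
    intro p q h
    simp only [rn]
    rw [h, ih (p := p + 2) (q := q + 2) (by omega)]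

theorem rn_three (p n : ℕ) : rn p (n + 3) = 1 + rn p n := by
  simp only [rn]
  rw [rn_congr n (p := p + 2 + 2 + 2) (q := p) (by omega)]
  have hp : p % 3 = 0 ∨ p % 3 = 1 ∨ p % 3 = 2 := by omega
  rcases hp with hp | hp | hp
  · have h1 : (p + 2) % 3 = 2 := by omega
    have h2 : (p + 2 + 2) % 3 = 1 := by omega
    simp [hp, h1, h2]
  · have h1 : (p + 2) % 3 = 0 := by omega
    have h2 : (p + 2 + 2) % 3 = 2 := by omega
    simp [hp, h1, h2]
  · have h1 : (p + 2) % 3 = 1 := by omega
    have h2 : (p + 2 + 2) % 3 = 0 := by omega
    simp [hp, h1, h2]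

theorem rn_three_mul (p t r : ℕ) : rn p (3 * t + r) = t + rn p r := by
  induction t with
  | zero => simp
  | succ t ih =>
    rw [show 3 * (t + 1) + r = 3 * t + r + 3 by ring, rn_three, ih]
    ring

theorem halts_padded (k n : ℕ) (u v : List Bool)
    (h : bad k (2 * (u.length + n + v.length) + chi (R 0 u)) (rn (2 * u.length) n)
      (R (2 * (u.length + n)) v ++ T (2 * (u.length + n + v.length)) (R 0 u)) = 0) :
    Halts (u ++ List.replicate n false ++ v) := by
  have h1 := halts_of_bad _ _ _ _ h
  rw [← List.append_assoc] at h1
  have h2 := halts_part (R 0 u) (2 * (u.length + n + v.length))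
    (List.replicate (rn (2 * u.length) n) false ++ R (2 * (u.length + n)) v) h1
  have h3 := halts_raw (u ++ List.replicate n false ++ v) 0 []
  have e : R 0 (u ++ List.replicate n false ++ v)
      = R 0 u ++ (List.replicate (rn (2 * u.length) n) false ++ R (2 * (u.length + n)) v) := by
    rw [R_append, R_append, R_replicate, List.append_assoc]
    congr 2
    · congr 1
      rw [zero_add]
    · simp only [List.length_append, List.length_replicate]
      congr 1
      ring
  rw [List.nil_append, e] at h3
  have e2 : (0 + 2 * (u ++ List.replicate n false ++ v).length)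
      = 2 * (u.length + n + v.length) := by
    simp only [List.length_append, List.length_replicate]; ring
  rw [e2] at h3
  have h4 := h3 h2
  simpa using h4

open Classical in
/-- The number of `n < 3 M` for which the computation on `u 0^n v` does not halt. -/
theorem card_le (k M : ℕ) (u v : List Bool) :
    ((range (3 * M)).filter (fun n => ¬ Halts (u ++ List.replicate n false ++ v))).card
      ≤ 3 * ((M / 3 ^ k + 1) * ((2 * (u.count true + v.count true)) * N k [true])) := by
  set g : ℕ → ℕ := fun n => bad k (2 * (u.length + n + v.length) + chi (R 0 u))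
      (rn (2 * u.length) n)
      (R (2 * (u.length + n)) v ++ T (2 * (u.length + n + v.length)) (R 0 u)) with hg
  have h1 : ((range (3 * M)).filter
      (fun n => ¬ Halts (u ++ List.replicate n false ++ v))).card ≤ ∑ n ∈ range (3 * M), g n := by
    rw [card_filter]
    apply sum_le_sum
    intro n _
    by_cases hn : Halts (u ++ List.replicate n false ++ v)
    · rw [if_neg (not_not.2 hn)]
      exact Nat.zero_le _
    · rw [if_pos hn]
      by_contra hc
      apply hn
      exact halts_padded k n u v (by simpa [hg] using hc)
  refine h1.trans ?_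
  rw [sum_three]
  have key : ∀ r : ℕ, ∑ t ∈ range M, g (3 * t + r)
      ≤ (M / 3 ^ k + 1) * ((2 * (u.count true + v.count true)) * N k [true]) := by
    intro r
    set X := R (2 * (u.length + r)) v ++ T (2 * (u.length + r + v.length)) (R 0 u) with hX
    have e : ∀ t, g (3 * t + r) = bad k (2 * (u.length + r + v.length) + chi (R 0 u))
        (t + rn (2 * u.length) r) X := by
      intro t
      simp only [hg]
      rw [rn_three_mul, R_congr v (p := 2 * (u.length + (3 * t + r))) (q := 2 * (u.length + r))
        (by omega), T_congr (R 0 u) (p := 2 * (u.length + (3 * t + r) + v.length))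
        (q := 2 * (u.length + r + v.length)) (by omega)]
      exact bad_congr k _ _ _ _ (by omega)
    simp only [e]
    refine (sum_bad_le k _ _ X M).trans ?_
    apply Nat.mul_le_mul_left
    refine (N_le_count k X).trans ?_
    apply Nat.mul_le_mul_right
    rw [hX, List.count_append]
    have c1 := count_R_le v (2 * (u.length + r))
    have c2 := count_T_le (R 0 u) (2 * (u.length + r + v.length))
    have c3 := count_R_le u 0
    omega
  have k0 := key 0
  have k1 := key 1
  have k2 := key 2
  simp only [add_zero] at k0
  omega

end Pool.Agent.PostTag
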