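import Pool.Agent.PostTag.Exact
import Pool.Agent.PostTag.Equi

/-!
A backward chain for Post's tag system: configurations with two groups of ones and three long runs
of zeros have a predecessor of the same kind with longer runs.
-/

set_option autoImplicit false

namespace Pool.Agent.PostTag

/-- Two groups of `E + 1` and `F + 1` ones in long runs of zeros. -/
def cfg (a E b F c : ℕ) : List Bool :=
  List.replicate a false ++ (List.replicate (E + 1) true ++ (List.replicate b false ++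
    (List.replicate (F + 1) true ++ List.replicate c false)))

theorem rep_app (m n : ℕ) (l : List Bool) :
    List.replicate m false ++ (List.replicate n false ++ l) = List.replicate (m + n) false ++ l := by
  rw [← List.append_assoc, ← List.replicate_add]

theorem T_mod (p : ℕ) (w : List Bool) : T p w = T (p % 3) w := T_congr w (by omega)

/-- Passing a group of ones: `E` is the type after, `F` the type before the pass. -/
theorem T_group {E F q : ℕ} (hE : E < 2) (hF : F < 2)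
    (h0 : E = 0 → F = 0 → q % 3 = 1) (h1 : E = 0 → F = 1 → q % 3 = 2) (h2 : E = 1 → q % 3 = 0) :
    T q (List.replicate (F + 1) true) = List.replicate (F * (1 - E)) false ++
      (List.replicate (E + 1) true ++ List.replicate (F * E) false) := by
  rw [T_mod]
  have hE' : E = 0 ∨ E = 1 := by omega
  have hF' : F = 0 ∨ F = 1 := by omega
  rcases hE' with rfl | rfl <;> rcases hF' with rfl | rfl
  · rw [h0 rfl rfl]; decide
  · rw [h1 rfl rfl]; decide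
  · rw [h2 rfl]; decide
  · rw [h2 rfl]; decide

theorem chi_ones (n : ℕ) : chi (List.replicate n true) = 2 * n := by
  induction n with
  | zero => rfl
  | succ n ih => rw [List.replicate_succ, chi_cons, ih]; simp [wt]; omega

theorem chi_cfg (a E b F c : ℕ) : chi (cfg a E b F c) = a + 2 * (E + 1) + b + 2 * (F + 1) + c := by
  simp only [cfg, chi_append, chi_replicate, chi_ones]
  ring

theorem T_cfg {a E b F c a1 E1 b1 F1 c1 t : ℕ} (hE : E < 2) (hF : F < 2) (hE1 : E1 < 2)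
    (hF1 : F1 < 2)
    (h0 : E = 0 → E1 = 0 → (t + a1) % 3 = 1) (h1 : E = 0 → E1 = 1 → (t + a1) % 3 = 2)
    (h2 : E = 1 → (t + a1) % 3 = 0)
    (k0 : F = 0 → F1 = 0 → (t + a1 + 2 * (E1 + 1) + b1) % 3 = 1)
    (k1 : F = 0 → F1 = 1 → (t + a1 + 2 * (E1 + 1) + b1) % 3 = 2)
    (k2 : F = 1 → (t + a1 + 2 * (E1 + 1) + b1) % 3 = 0)
    (ha : nm t a1 + E1 * (1 - E) = a)
    (hb : E1 * E + (nm (t + a1 + 2 * (E1 + 1)) b1 + F1 * (1 - F)) = b)
    (hc : F1 * F + nm (t + a1 + 2 * (E1 + 1) + b1 + 2 * (F1 + 1)) c1 = c) :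
    T t (cfg a1 E1 b1 F1 c1) = cfg a E b F c := by
  simp only [cfg, T_append, T_replicate, chi_replicate, chi_ones]
  rw [T_group hE hE1 h0 h1 h2, T_group hF hF1 k0 k1 k2]
  simp only [List.append_assoc, rep_app]
  rw [← List.replicate_add, ha, hb, hc]

/-- The parity invariants of the chain. -/
def Inv (a E b F c p : ℕ) : Prop :=
  E < 2 ∧ F < 2 ∧ p < 3 ∧ (b + F) % 2 = 1 ∧ (p = 1 ↔ c % 2 = 1) ∧
    ((3 * c - p) / 2 + F + a + E) % 2 = 1

/-- The phase after a group of ones. -/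
def rr (E F : ℕ) : ℕ := if E = 0 then 0 else 2 - F

theorem run_a {E E1 t a α : ℕ} (hE : E < 2) (hE1 : E1 < 2) (ht : t < 2) (ha : 9 ≤ a)
    (hα : 2 * α + 1 = 3 * a + t + E) :
    ∃ a1 : ℕ, a < a1 ∧ a1 % 2 = α % 2 ∧
    (E = 0 → E1 = 0 → (t + a1) % 3 = 1) ∧
    (E = 0 → E1 = 1 → (t + a1) % 3 = 2) ∧
    (E = 1 → (t + a1) % 3 = 0) ∧
    nm t a1 + E1 * (1 - E) = a ∧
    (t + a1 + 2 * (E1 + 1)) % 3 = rr E E1 := by
  have hE' : E = 0 ∨ E = 1 := by omega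
  have hE1' : E1 = 0 ∨ E1 = 1 := by omega
  have ht' : t = 0 ∨ t = 1 := by omega
  refine ⟨α - 2 * (E1 * (1 - E)), ?_⟩
  rcases hE' with rfl | rfl <;> rcases hE1' with rfl | rfl <;> rcases ht' with rfl | rfl <;>
    simp [nm, rr] <;> omega

theorem run_b {E E1 F F1 q b ζ : ℕ} (hE : E < 2) (hE1 : E1 < 2) (hF : F < 2) (hF1 : F1 < 2)
    (hb : 9 ≤ b) (hq : q % 3 = rr E E1) (hζ : 2 * ζ + 3 = 3 * b + F) :
    ∃ b1 : ℕ, b < b1 ∧ b1 % 2 = (ζ + 1 + E) % 2 ∧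
    (F = 0 → F1 = 0 → (q + b1) % 3 = 1) ∧
    (F = 0 → F1 = 1 → (q + b1) % 3 = 2) ∧
    (F = 1 → (q + b1) % 3 = 0) ∧
    E1 * E + (nm q b1 + F1 * (1 - F)) = b ∧
    (q + b1 + 2 * (F1 + 1)) % 3 = rr F F1 := by
  have hE' : E = 0 ∨ E = 1 := by omega
  have hE1' : E1 = 0 ∨ E1 = 1 := by omega
  have hF' : F = 0 ∨ F = 1 := by omega
  have hF1' : F1 = 0 ∨ F1 = 1 := by omega
  refine ⟨ζ + 1 + E - 2 * (E * E1) - 2 * (F1 * (1 - F)), ?_⟩
  rcases hE' with rfl | rfl <;> rcases hE1' with rfl | rfl <;> rcases hF' with rfl | rfl <;>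
    rcases hF1' with rfl | rfl <;> simp [rr] at hq <;> simp [nm, rr, hq] <;> omega

theorem run_c {F F1 q c β p c1 : ℕ} (hF : F < 2) (hF1 : F1 < 2) (hp : p < 3) (hc : 9 ≤ c)
    (hq : q % 3 = rr F F1) (hβ : 2 * β + p = 3 * c) (hc1 : c1 + 2 * (F * F1) = β + F) :
    c < c1 ∧ F1 * F + nm q c1 = c ∧ (q + c1) % 3 = p := by
  have hF' : F = 0 ∨ F = 1 := by omega
  have hF1' : F1 = 0 ∨ F1 = 1 := by omega
  rcases hF' with rfl | rfl <;> rcases hF1' with rfl | rfl <;>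
    simp [rr] at hq <;> simp [nm, hq] <;> omega

theorem chain_step {a E b F c p : ℕ} (ha : 9 ≤ a) (hb : 9 ≤ b) (hc : 9 ≤ c)
    (h : Inv a E b F c p) :
    ∃ a1 E1 b1 F1 c1 t : ℕ, a < a1 ∧ b < b1 ∧ c < c1 ∧ Inv a1 E1 b1 F1 c1 t ∧
      T t (cfg a1 E1 b1 F1 c1) = cfg a E b F c ∧ (t + chi (cfg a1 E1 b1 F1 c1)) % 3 = p := by
  obtain ⟨hE, hF, hp, h1, h2, h3⟩ := h
  obtain ⟨β, hβ⟩ : ∃ β : ℕ, 2 * β + p = 3 * c := ⟨(3 * c - p) / 2, by omega⟩
  have h3' : (β + F + a + E) % 2 = 1 := by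
    have e : (3 * c - p) / 2 = β := by omega
    rw [e] at h3
    exact h3
  clear h3
  -- the initial phase
  obtain ⟨t, ht, hta⟩ : ∃ t : ℕ, t < 2 ∧ (a + E + t) % 2 = 1 :=
    ⟨(a + E + 1) % 2, by omega, by omega⟩
  obtain ⟨ζ, hζ⟩ : ∃ ζ : ℕ, 2 * ζ + 3 = 3 * b + F := ⟨(3 * b + F - 3) / 2, by omega⟩
  obtain ⟨α, hα⟩ : ∃ α : ℕ, 2 * α + 1 = 3 * a + t + E := ⟨(3 * a + t + E - 1) / 2, by omega⟩
  -- the type of the second group
  obtain ⟨F1, hF1, hF1'⟩ : ∃ F1 : ℕ, F1 < 2 ∧ (F1 + E + ζ) % 2 = 0 :=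
    ⟨(E + ζ) % 2, by omega, by omega⟩
  obtain ⟨c1, hc1⟩ : ∃ c1 : ℕ, c1 + 2 * (F * F1) = β + F := by
    refine ⟨β + F - 2 * (F * F1), ?_⟩
    have : F * F1 ≤ 1 := by nlinarith
    omega
  have hc1p : (c1 + t) % 2 = 0 := by
    have : c1 % 2 = (β + F) % 2 := by rw [← hc1]; omega
    omega
  obtain ⟨δ, hδ⟩ : ∃ δ : ℕ, 2 * δ + t = 3 * c1 := ⟨(3 * c1 - t) / 2, by omega⟩
  -- the type of the first group
  obtain ⟨E1, hE1, hE1'⟩ : ∃ E1 : ℕ, E1 < 2 ∧ (δ + F1 + α + E1) % 2 = 1 :=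
    ⟨(1 + δ + F1 + α) % 2, by omega, by omega⟩
  have hδ' : (3 * c1 - t) / 2 = δ := by omega
  obtain ⟨a1, A1, A0, A2, A3, A4, A5, A6⟩ := run_a hE hE1 ht ha hα
  obtain ⟨b1, B1, B0, B2, B3, B4, B5, B6⟩ := run_b hE hE1 hF hF1 hb A6 hζ
  obtain ⟨C1, C2, C3⟩ := run_c hF hF1 hp hc B6 hβ hc1
  refine ⟨a1, E1, b1, F1, c1, t, A1, B1, C1, ⟨hE1, hF1, by omega, ?_, ?_, ?_⟩,
    T_cfg hE hF hE1 hF1 A2 A3 A4 B2 B3 B4 A5 B5 C2, ?_⟩
  · clear A2 A3 A4 A5 A6 B2 B3 B4 B5 B6 C2 C3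
    omega
  · clear A2 A3 A4 A5 A6 B2 B3 B4 B5 B6 C2 C3
    omega
  · rw [hδ']
    clear A2 A3 A4 A5 A6 B2 B3 B4 B5 B6 C2 C3
    omega
  · rw [chi_cfg, ← C3]
    congr 1
    ring

/-- The computation on the block word of the read letters `cfg a E b F c` in phase `p`. -/
def NH (a E b F c p : ℕ) : Prop := ¬ Halts ((dec (cfg a E b F c)).drop p)

theorem length_cfg (a E b F c : ℕ) :
    (cfg a E b F c).length = a + (E + 1) + b + (F + 1) + c := by
  simp [cfg]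
  ring

theorem base_cycle : step^[78 + 6] ((dec (cfg 9 0 9 0 11)).drop 1)
    = step^[78] ((dec (cfg 9 0 9 0 11)).drop 1) := by
  decide +kernel

theorem base_long : ∀ j < 78 + 6, 3 ≤ (step^[j] ((dec (cfg 9 0 9 0 11)).drop 1)).length := by
  decide +kernel

theorem base_NH : NH 9 0 9 0 11 1 := not_halts_of_cycle (by norm_num) base_cycle base_long

/-- Non-halting configurations with two groups and arbitrarily long runs of zeros. -/
theorem chain (n : ℕ) : ∃ a E b F c p : ℕ, n ≤ a ∧ n ≤ b ∧ n ≤ c ∧ 9 ≤ a ∧ 9 ≤ b ∧ 9 ≤ c ∧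
    Inv a E b F c p ∧ NH a E b F c p := by
  induction n with
  | zero => exact ⟨9, 0, 9, 0, 11, 1, by norm_num, by norm_num, by norm_num, by norm_num,
      by norm_num, by norm_num, ⟨by norm_num, by norm_num, by norm_num, by norm_num, by norm_num,
        by norm_num⟩, base_NH⟩
  | succ n ih =>
    obtain ⟨a, E, b, F, c, p, ha, hb, hc, ha9, hb9, hc9, hI, hN⟩ := ih
    obtain ⟨a1, E1, b1, F1, c1, t, h1, h2, h3, h4, h5, h6⟩ := chain_step ha9 hb9 hc9 hI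
    refine ⟨a1, E1, b1, F1, c1, t, by omega, by omega, by omega, by omega, by omega, by omega,
      h4, ?_⟩
    have ht : t < 3 := h4.2.2.1
    have h7 := not_halts_pass t (cfg a1 E1 b1 F1 c1) (by rw [length_cfg]; omega)
      (by rw [h5, h6]; exact hN)
    unfold NH
    rwa [Nat.mod_eq_of_lt ht] at h7

end Pool.Agent.PostTag
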