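import Pool.Agent.PostTag.Run

/-!
Counting the non-halting inputs `1 0^i`.
-/

set_option autoImplicit false

namespace Pool.Agent.PostTag

/-- Several configurations of the chain lead to a given one. -/
def Fan (J c Q : ℕ) : Prop := ∀ l : ℕ, 2 ^ J ≤ l → ∃ S : Finset ℕ, S.card = c ∧ ∀ m ∈ S,
  l ≤ m ∧ m ≤ Q * l ∧ nxt^[J] ([true, true, true], 4 * m) = ([true, true, true], 4 * l) ∧
    (Halts (st m) ↔ Halts (st l))

theorem fan_of_table {wl : List (List Bool)} {tb J c Q : ℕ} (htb : okTbl wl tb = true)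
    (hQ : 3 ^ J ≤ Q * 2 ^ J)
    (h : ∀ r, 2 ^ J ≤ r → r < 2 ^ J + 2 ^ J → ∃ S : Finset ℕ, S.card = c ∧ ∀ s ∈ S, r ≤ s ∧
      s ≤ Q * r ∧ run wl.length tb J 0 (4 * s) r = true) : Fan J c Q := by
  intro l hl
  have hw0 : wl.getD 0 [] = [true, true, true] := by
    simp only [okTbl, Bool.and_eq_true, beq_iff_eq] at htb
    exact htb.1
  have h2 : 0 < 2 ^ J := by positivity
  obtain ⟨t, ht⟩ : ∃ t, l / 2 ^ J = t + 1 :=
    ⟨l / 2 ^ J - 1, by
      have : 1 ≤ l / 2 ^ J := (Nat.one_le_div_iff h2).2 hl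
      omega⟩
  obtain ⟨r, hr⟩ : ∃ r, r = 2 ^ J + l % 2 ^ J := ⟨_, rfl⟩
  have hlt := Nat.mod_lt l h2
  have hl2 : l = 2 ^ J * t + r := by
    have h3 := Nat.div_add_mod l (2 ^ J)
    rw [ht, mul_add, mul_one] at h3
    omega
  obtain ⟨S, hS, hS2⟩ := h r (by omega) (by omega)
  refine ⟨S.image (fun s => 3 ^ J * t + s), ?_, ?_⟩
  · rw [Finset.card_image_of_injective _ (fun a b hab => by simpa using hab), hS]
  · intro m hm
    obtain ⟨s, hs, rfl⟩ := Finset.mem_image.1 hm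
    obtain ⟨h4, h5, h6⟩ := hS2 s hs
    obtain ⟨h7, h8⟩ := run_sound htb J 0 (4 * s) r h6 4 t
    have e1 : 3 ^ J * 4 * t + 4 * s = 4 * (3 ^ J * t + s) := by ring
    have e2 : 2 ^ J * 4 * t + 4 * r = 4 * l := by rw [hl2]; ring
    rw [e1, e2, hw0] at h7 h8
    have h23 : 2 ^ J * t ≤ 3 ^ J * t := Nat.mul_le_mul_right _ (Nat.pow_le_pow_left (by norm_num) J)
    have hQt : 3 ^ J * t ≤ Q * (2 ^ J * t) := by
      rw [← mul_assoc]
      exact Nat.mul_le_mul_right _ hQ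
    refine ⟨by omega, ?_, h7, ?_⟩
    · rw [hl2, mul_add]
      omega
    · rw [st_eq, st_eq]
      exact h8

theorem exists_tree {J c Q : ℕ} (h : Fan J c Q) {l0 : ℕ} (hl0 : 2 ^ J ≤ l0)
    (hn0 : ¬ Halts (st l0)) (n : ℕ) : ∃ P : Finset ℕ, P.card = c ^ n ∧ ∀ m ∈ P, 2 ^ J ≤ m ∧
      m ≤ Q ^ n * l0 ∧ ¬ Halts (st m) := by
  classical
  have h' : ∀ l : ℕ, ∃ S : Finset ℕ, 2 ^ J ≤ l → S.card = c ∧ ∀ m ∈ S,
      l ≤ m ∧ m ≤ Q * l ∧ nxt^[J] ([true, true, true], 4 * m) = ([true, true, true], 4 * l) ∧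
        (Halts (st m) ↔ Halts (st l)) := by
    intro l
    by_cases hl : 2 ^ J ≤ l
    · obtain ⟨S, hS⟩ := h l hl
      exact ⟨S, fun _ => hS⟩
    · exact ⟨∅, fun hc => absurd hc hl⟩
  choose C hC using h'
  induction n with
  | zero => exact ⟨{l0}, by simp, by simp [hl0, hn0]⟩
  | succ n ih =>
    obtain ⟨P, hP, hP2⟩ := ih
    refine ⟨P.biUnion C, ?_, ?_⟩
    · rw [Finset.card_biUnion, Finset.sum_congr rfl (fun l hl => (hC l (hP2 l hl).1).1),
        Finset.sum_const, hP, smul_eq_mul, pow_succ]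
      intro a ha b hb hab
      rw [Function.onFun, Finset.disjoint_left]
      intro m hma hmb
      apply hab
      have h1 := ((hC a (hP2 a ha).1).2 m hma).2.2.1
      have h2 := ((hC b (hP2 b hb).1).2 m hmb).2.2.1
      rw [h1] at h2
      have h3 := congrArg Prod.snd h2
      simp only at h3
      omega
    · intro m hm
      obtain ⟨l, hl, hml⟩ := Finset.mem_biUnion.1 hm
      obtain ⟨g1, g2, g3⟩ := hP2 l hl
      obtain ⟨g4, g5, -, g6⟩ := (hC l g1).2 m hml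
      refine ⟨g1.trans g4, ?_, fun hc => g3 (g6.1 hc)⟩
      calc m ≤ Q * l := g5
        _ ≤ Q * (Q ^ n * l0) := Nat.mul_le_mul_left _ g2
        _ = Q ^ (n + 1) * l0 := by ring

theorem power_many {J c Q d : ℕ} (h : Fan J c Q) (hQ : 2 ≤ Q) (hd : Q < c ^ d) :
    ∃ N0 : ℕ, ∀ N : ℕ, N0 ≤ N →
      N ≤ ({i : ℕ | i < N ∧ ¬ Halts (true :: List.replicate i false)}.ncard) ^ d := by
  obtain ⟨l0, hl0, hl3, hn0⟩ := exists_st_not_halts (2 ^ J)
  obtain ⟨K, hK⟩ : ∃ K, K = 9 * l0 + 9 := ⟨_, rfl⟩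
  have hQ0 : (0 : ℝ) < Q := by exact_mod_cast (by omega : 0 < Q)
  have hx : (1 : ℝ) < (c ^ d : ℕ) / (Q : ℝ) := by
    rw [one_lt_div hQ0]
    exact_mod_cast hd
  obtain ⟨n1, hn1⟩ := pow_unbounded_of_one_lt ((K * Q : ℕ) : ℝ) hx
  have hgrow : ∀ n, n1 ≤ n → K * Q ^ (n + 1) ≤ (c ^ d) ^ n := by
    intro n hn
    induction n, hn using Nat.le_induction with
    | base =>
      rw [div_pow, lt_div_iff₀ (by positivity)] at hn1
      have h1 : (K * Q) * Q ^ n1 < (c ^ d) ^ n1 := by exact_mod_cast hn1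
      calc K * Q ^ (n1 + 1) = (K * Q) * Q ^ n1 := by ring
        _ ≤ _ := h1.le
    | succ n hn ih =>
      calc K * Q ^ (n + 1 + 1) = (K * Q ^ (n + 1)) * Q := by ring
        _ ≤ (c ^ d) ^ n * c ^ d := Nat.mul_le_mul ih hd.le
        _ = (c ^ d) ^ (n + 1) := by ring
  refine ⟨K * Q ^ n1, fun N hN => ?_⟩
  -- the largest suitable depth
  obtain ⟨n, hn1n, hnN, hNn⟩ : ∃ n, n1 ≤ n ∧ K * Q ^ n ≤ N ∧ N < K * Q ^ (n + 1) := by
    have hK0 : 0 < K := by omega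
    obtain ⟨q, hq⟩ : ∃ q, q = N / K := ⟨_, rfl⟩
    have hq1 : Q ^ n1 ≤ q := by
      rw [hq, Nat.le_div_iff_mul_le hK0, mul_comm]
      exact hN
    have hq0 : q ≠ 0 := by
      have : 0 < Q ^ n1 := by positivity
      omega
    refine ⟨Nat.log Q q, (Nat.le_log_iff_pow_le (by omega) hq0).2 hq1, ?_, ?_⟩
    · have h1 := Nat.pow_log_le_self Q hq0
      calc K * Q ^ Nat.log Q q ≤ K * q := Nat.mul_le_mul_left _ h1
        _ ≤ N := by rw [hq]; exact Nat.mul_div_le N K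
    · have h1 := Nat.lt_pow_succ_log_self (b := Q) (by omega) q
      have h2 : N < K * (q + 1) := by
        rw [hq]
        exact Nat.lt_mul_div_succ N hK0
      calc N < K * (q + 1) := h2
        _ ≤ K * Q ^ (Nat.log Q q + 1) := Nat.mul_le_mul_left _ h1
  obtain ⟨P, hP, hP2⟩ := exists_tree h hl0 hn0 n
  have hsub : ((P.image fun m => 9 * m + 8 : Finset ℕ) : Set ℕ) ⊆
      {i : ℕ | i < N ∧ ¬ Halts (true :: List.replicate i false)} := by
    intro i hi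
    rw [Finset.mem_coe, Finset.mem_image] at hi
    obtain ⟨m, hm, rfl⟩ := hi
    obtain ⟨g1, g2, g3⟩ := hP2 m hm
    have hm1 : 1 ≤ m := le_trans (Nat.one_le_two_pow) g1
    refine ⟨?_, ?_⟩
    · have hQn : 0 < Q ^ n := by positivity
      have h1 : K * Q ^ n = 9 * (Q ^ n * l0) + 9 * Q ^ n := by rw [hK]; ring
      omega
    · rw [← rw1_zero, halts_rw1 (by omega) hm1]
      exact g3
  have hfin : {i : ℕ | i < N ∧ ¬ Halts (true :: List.replicate i false)}.Finite :=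
    (Set.finite_lt_nat N).subset fun i hi => hi.1
  have hcard : c ^ n ≤ {i : ℕ | i < N ∧ ¬ Halts (true :: List.replicate i false)}.ncard := by
    have h1 := Set.ncard_le_ncard hsub hfin
    rw [Set.ncard_coe_finset, Finset.card_image_of_injective _ (fun a b hab => by
      have hab2 : 9 * a + 8 = 9 * b + 8 := hab
      omega), hP] at h1
    exact h1
  calc N ≤ K * Q ^ (n + 1) := hNn.le
    _ ≤ (c ^ d) ^ n := hgrow n hn1n
    _ = (c ^ n) ^ d := by rw [← pow_mul, ← pow_mul, mul_comm]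
    _ ≤ _ := Nat.pow_le_pow_left hcard d

end Pool.Agent.PostTag
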