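import Pool.Agent.PostTag.Basic

/-!
Exact forward passes of Post's tag system, used to transport non-halting backwards.
-/

set_option autoImplicit false

namespace Pool.Agent.PostTag

theorem length_step_ge (w : List Bool) : w.length ≤ (step w).length + 1 := by
  simp only [step, List.length_append, List.length_drop]
  split_ifs <;> simp <;> omega

theorem length_iterate_ge (k : ℕ) (w : List Bool) : w.length ≤ (step^[k] w).length + k := by
  induction k with
  | zero => simp
  | succ k ih =>
    rw [Function.iterate_succ_apply']
    have h := length_step_ge (step^[k] w)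
    omega

theorem Halts.iterate {w : List Bool} {k : ℕ} (h : Halts w) (hk : k + 3 ≤ w.length) :
    Halts (step^[k] w) := by
  obtain ⟨j, hj⟩ := h
  have h1 := length_iterate_ge j w
  obtain ⟨i, rfl⟩ := Nat.exists_eq_add_of_le (show k ≤ j by omega)
  refine ⟨i, ?_⟩
  rw [← Function.iterate_add_apply, add_comm i k]
  exact hj

/-- One letter of the block word is processed, exact form. -/
theorem iter_letter (p : ℕ) (x : Bool) (rest : List Bool) (hr : 2 ≤ rest.length) :
    step^[(out p x).length] ((blk x ++ rest).drop (p % 3))
      = (rest ++ dec (out p x)).drop ((p + wt x) % 3) := by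
  obtain ⟨c, d, r, rfl⟩ : ∃ c d r, rest = c :: d :: r := by
    rcases rest with _ | ⟨c, _ | ⟨d, r⟩⟩
    · simp at hr
    · simp at hr
    · exact ⟨c, d, r, rfl⟩
  have hp : p % 3 = 0 ∨ p % 3 = 1 ∨ p % 3 = 2 := by omega
  rcases hp with hp | hp | hp <;> cases x
  · have e1 : (p + wt false) % 3 = 1 := by simp only [wt]; simp; omega
    rw [e1, hp]
    simp [out, hp, blk, step]
  · have e1 : (p + wt true) % 3 = 2 := by simp only [wt]; simp; omega
    rw [e1, hp]
    simp [out, hp, blk, step]
  · have e1 : (p + wt false) % 3 = 2 := by simp only [wt]; simp; omega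
    rw [e1, hp]
    simp [out, hp, blk, step]
  · have e1 : (p + wt true) % 3 = 0 := by simp only [wt]; simp; omega
    rw [e1, hp]
    simp [out, hp, blk, step]
  · have e1 : (p + wt false) % 3 = 0 := by simp only [wt]; simp; omega
    rw [e1, hp]
    simp [out, hp, blk]
  · have e1 : (p + wt true) % 3 = 1 := by simp only [wt]; simp; omega
    rw [e1, hp]
    simp [out, hp, blk, step]

theorem length_dec_ge {W : List Bool} (hW : W ≠ []) : 2 ≤ (dec W).length := by
  obtain ⟨x, W', rfl⟩ := List.exists_cons_of_ne_nil hW
  rw [dec_cons, List.length_append]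
  cases x <;> simp [blk] <;> omega

/-- Reading a first part `U` of the block word, exact form. -/
theorem iter_part (U : List Bool) : ∀ (p : ℕ) (W : List Bool), W ≠ [] →
    step^[(T p U).length] ((dec (U ++ W)).drop (p % 3))
      = (dec (W ++ T p U)).drop ((p + chi U) % 3) := by
  induction U with
  | nil => intro p W _; simp
  | cons x U ih =>
    intro p W hW
    rw [T_cons, List.length_append, add_comm (out p x).length, Function.iterate_add_apply,
      List.cons_append, dec_cons, iter_letter, ← dec_append, List.append_assoc, ih, chi_cons,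
      List.append_assoc, add_assoc]
    · simp [hW]
    · apply length_dec_ge
      simp [hW]

theorem length_T (U : List Bool) : ∀ p : ℕ,
    3 * (T p U).length + p % 3 = (dec U).length + (p + chi U) % 3 := by
  induction U with
  | nil => intro p; simp
  | cons x U ih =>
    intro p
    have h := ih (p + wt x)
    rw [T_cons, dec_cons, chi_cons, List.length_append, List.length_append, ← add_assoc]
    have h2 : 3 * (out p x).length + p % 3 = (blk x).length + (p + wt x) % 3 := by
      have hp : p % 3 = 0 ∨ p % 3 = 1 ∨ p % 3 = 2 := by omega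
      rcases hp with hp | hp | hp <;> cases x <;> simp [out, hp, blk, wt] <;> omega
    omega

theorem T_two_ne_nil (p : ℕ) (x y : Bool) : T p [x, y] ≠ [] := by
  have hp : p % 3 = 0 ∨ p % 3 = 1 ∨ p % 3 = 2 := by omega
  rcases hp with hp | hp | hp
  · rw [T_congr _ (p := p) (q := 0) (by omega)]
    cases x <;> cases y <;> decide
  · rw [T_congr _ (p := p) (q := 1) (by omega)]
    cases x <;> cases y <;> decide
  · rw [T_congr _ (p := p) (q := 2) (by omega)]
    cases x <;> cases y <;> decide

theorem length_dec_ge' (W : List Bool) : 2 * W.length ≤ (dec W).length := by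
  induction W with
  | nil => simp
  | cons x W ih =>
    rw [dec_cons, List.length_append]
    cases x <;> simp [blk] <;> omega

/-- A full pass, exact form. -/
theorem iter_pass (p : ℕ) (U : List Bool) (hU : 3 ≤ U.length) :
    step^[(T p U).length] ((dec U).drop (p % 3)) = (dec (T p U)).drop ((p + chi U) % 3) := by
  obtain ⟨x, y, z, V, rfl⟩ : ∃ x y z V, U = x :: y :: z :: V := by
    rcases U with _ | ⟨x, _ | ⟨y, _ | ⟨z, V⟩⟩⟩
    · simp at hU
    · simp at hU
    · simp at hU
    · exact ⟨x, y, z, V, rfl⟩
  have e : x :: y :: z :: V = [x, y] ++ (z :: V) := rfl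
  have h1 := iter_part [x, y] p (z :: V) (by simp)
  have h2 := iter_part (z :: V) (p + chi [x, y]) (T p [x, y]) (T_two_ne_nil p x y)
  have e2 : T p (x :: y :: z :: V) = T p [x, y] ++ T (p + chi [x, y]) (z :: V) := by
    rw [e, T_append]
  rw [e2, List.length_append, add_comm, Function.iterate_add_apply, e, h1, h2, chi_append,
    add_assoc]

theorem not_halts_pass (p : ℕ) (U : List Bool) (hU : 4 ≤ U.length)
    (h : ¬ Halts ((dec (T p U)).drop ((p + chi U) % 3))) : ¬ Halts ((dec U).drop (p % 3)) := by
  intro hc
  apply h
  rw [← iter_pass p U (by omega)]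
  apply hc.iterate
  have h1 := length_T U p
  have h2 := length_dec_ge' U
  rw [List.length_drop]
  omega

/-- Reading raw letters, exact form. -/
theorem iter_raw (s : List Bool) : ∀ (p : ℕ) (W : List Bool), W ≠ [] →
    step^[(R p s).length] ((s ++ dec W).drop (p % 3))
      = (dec (W ++ R p s)).drop ((p + 2 * s.length) % 3) := by
  induction s with
  | nil => intro p W _; simp [R]
  | cons x s ih =>
    intro p W hW
    have hd : 2 ≤ (dec W).length := length_dec_ge hW
    have hlen : (p + 2 * (x :: s).length) % 3 = (p + 2 + 2 * s.length) % 3 := by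
      simp only [List.length_cons]; congr 1; ring
    rw [hlen]
    have hp : p % 3 = 0 ∨ p % 3 = 1 ∨ p % 3 = 2 := by omega
    rcases hp with hp | hp | hp
    · have h2 := ih (p + 2) (W ++ [x]) (by simp)
      have e1 : (p + 2) % 3 = 2 := by omega
      have e0 : R p (x :: s) = x :: R (p + 2) s := by simp [R, hp]
      rw [e0, List.length_cons, Function.iterate_succ_apply, hp]
      have e2 : step (List.drop 0 (x :: s ++ dec W)) = List.drop 2 (s ++ dec (W ++ [x])) := by
        have e3 : List.drop 2 (s ++ dec (W ++ [x])) = List.drop 2 (s ++ dec W) ++ dec [x] := by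
          rw [dec_append, ← List.append_assoc,
            List.drop_append_of_le_length (by rw [List.length_append]; omega)]
        rw [e3]
        cases x <;> simp [step, blk]
      rw [e1] at h2
      rw [e2, h2]
      simp
    · have h2 := ih (p + 2) W hW
      have e1 : (p + 2) % 3 = 0 := by omega
      have e0 : R p (x :: s) = R (p + 2) s := by simp [R, hp]
      rw [e0, ← h2, hp, e1]
      simp
    · have h2 := ih (p + 2) W hW
      have e1 : (p + 2) % 3 = 1 := by omega
      have e0 : R p (x :: s) = R (p + 2) s := by simp [R, hp]
      rw [e0, ← h2, hp, e1]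
      simp

theorem length_R (s : List Bool) : ∀ p : ℕ, (R p s).length ≤ s.length := by
  induction s with
  | nil => intro p; simp [R]
  | cons x s ih =>
    intro p
    have h := ih (p + 2)
    simp only [R, List.length_append, List.length_cons]
    split_ifs <;> simp <;> omega

theorem three_length_R (s : List Bool) : ∀ p : ℕ, 3 * (R p s).length ≤ s.length + 2 := by
  have key : ∀ (s : List Bool) (p : ℕ), 3 * (R p s).length + p % 3
      ≤ s.length + 2 := by
    intro s
    induction s with
    | nil =>
      intro p
      simp [R]
      omega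
    | cons x s ih =>
      intro p
      have h := ih (p + 2)
      have hp : p % 3 = 0 ∨ p % 3 = 1 ∨ p % 3 = 2 := by omega
      rcases hp with hp | hp | hp <;> simp [R, hp] <;> omega
  intro p
  have := key s p
  omega

/-- Reading a raw word starting in phase `0`. -/
theorem not_halts_raw (s : List Bool) (hs : 6 ≤ s.length)
    (h : ¬ Halts ((dec (R 0 s)).drop ((2 * s.length) % 3))) : ¬ Halts s := by
  intro hc
  apply h
  obtain ⟨x, s', rfl⟩ : ∃ x s', s = x :: s' := by
    rcases s with _ | ⟨x, s'⟩
    · simp at hs
    · exact ⟨x, s', rfl⟩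
  have hs' : 5 ≤ s'.length := by simpa using hs
  have h1 := iter_raw s' 2 [x] (by simp)
  have e0 : R 0 (x :: s') = x :: R 2 s' := by simp [R]
  have e2 : step (x :: s') = List.drop 2 (s' ++ dec [x]) := by
    rw [List.drop_append_of_le_length (by omega)]
    cases x <;> simp [step, blk, dec]
  have e3 : step^[(R 0 (x :: s')).length] (x :: s')
      = (dec (R 0 (x :: s'))).drop ((2 * (x :: s').length) % 3) := by
    rw [e0, List.length_cons, Function.iterate_succ_apply, e2]
    have e4 : (2 * (x :: s').length) % 3 = (2 + 2 * s'.length) % 3 := by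
      simp only [List.length_cons]; congr 1; ring
    rw [e4, ← List.singleton_append (x := x) (l := R 2 s'), ← h1]
  rw [← e3]
  apply hc.iterate
  have h5 := three_length_R (x :: s') 0
  simp only [List.length_cons] at h5 ⊢
  omega

/-- A certificate of non-halting. -/
theorem not_halts_of_cycle {w : List Bool} {K P : ℕ} (hP : 0 < P)
    (h1 : step^[K + P] w = step^[K] w) (h2 : ∀ j < K + P, 3 ≤ (step^[j] w).length) :
    ¬ Halts w := by
  rintro ⟨k, hk⟩
  induction k using Nat.strong_induction_on with
  | _ k ih =>
    rcases Nat.lt_or_ge k (K + P) with h | h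
    · have := h2 k h
      omega
    · obtain ⟨i, rfl⟩ := Nat.exists_eq_add_of_le h
      refine ih (K + i) (by omega) ?_
      have e : step^[K + i] w = step^[K + P + i] w := by
        calc step^[K + i] w = step^[i] (step^[K] w) := by
              rw [add_comm K i, Function.iterate_add_apply]
          _ = step^[i] (step^[K + P] w) := by rw [h1]
          _ = step^[K + P + i] w := by rw [← Function.iterate_add_apply, add_comm i]
      rw [e]
      exact hk

end Pool.Agent.PostTag
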