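import Pool.Agent.PostTag.Basic

/-!
Extinction of the letter `b` under independent uniform phases.
-/

set_option autoImplicit false

namespace Pool.Agent.PostTag

/-- The number of phase vectors in `{0,1,2}^k` for which the `k`-th word still holds a `b`. -/
def N : ℕ → List Bool → ℕ
  | 0, X => if true ∈ X then 1 else 0
  | k + 1, X => N k (T 0 X) + N k (T 1 X) + N k (T 2 X)

theorem N_shift (k : ℕ) (p : ℕ) (X : List Bool) :
    N k (T p X) + N k (T (p + 1) X) + N k (T (p + 2) X) = N (k + 1) X := by
  have hp : p % 3 = 0 ∨ p % 3 = 1 ∨ p % 3 = 2 := by omega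
  simp only [N]
  rcases hp with hp | hp | hp
  · rw [T_congr X (p := p) (q := 0) (by omega), T_congr X (p := p + 1) (q := 1) (by omega),
      T_congr X (p := p + 2) (q := 2) (by omega)]
  · rw [T_congr X (p := p) (q := 1) (by omega), T_congr X (p := p + 1) (q := 2) (by omega),
      T_congr X (p := p + 2) (q := 0) (by omega)]
    ring
  · rw [T_congr X (p := p) (q := 2) (by omega), T_congr X (p := p + 1) (q := 0) (by omega),
      T_congr X (p := p + 2) (q := 1) (by omega)]
    ring

theorem N_append_le (k : ℕ) : ∀ X Y : List Bool, N k (X ++ Y) ≤ N k X + N k Y := by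
  induction k with
  | zero =>
    intro X Y
    simp only [N, List.mem_append]
    split_ifs <;> simp_all
  | succ k ih =>
    intro X Y
    have hY := N_shift k (chi X) Y
    simp only [N, T_append]
    have h0 := ih (T 0 X) (T (0 + chi X) Y)
    have h1 := ih (T 1 X) (T (1 + chi X) Y)
    have h2 := ih (T 2 X) (T (2 + chi X) Y)
    simp only [N] at hY
    rw [show 0 + chi X = chi X by ring] at h0 ⊢
    rw [show 1 + chi X = chi X + 1 by ring] at h1 ⊢
    rw [show 2 + chi X = chi X + 2 by ring] at h2 ⊢
    omega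

theorem N_nil (k : ℕ) : N k [] = 0 := by
  induction k with
  | zero => simp [N]
  | succ k ih => simp [N, ih]

theorem N_a (k : ℕ) : N k [false] = 0 := by
  induction k with
  | zero => simp [N]
  | succ k ih =>
    have h0 : T 0 [false] = [false] := by decide
    have h1 : T 1 [false] = [false] := by decide
    have h2 : T 2 [false] = [] := by decide
    simp only [N, h0, h1, h2, ih, N_nil]

theorem N_le_count (k : ℕ) (X : List Bool) : N k X ≤ X.count true * N k [true] := by
  induction X with
  | nil => simp [N_nil]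
  | cons x X ih =>
    have h := N_append_le k [x] X
    rw [List.singleton_append] at h
    cases x
    · rw [N_a] at h
      have e : (false :: X).count true = X.count true := by simp
      rw [e]
      omega
    · have e : (true :: X).count true = X.count true + 1 := by simp
      rw [e, add_mul, one_mul]
      omega

theorem N_le_pow (k : ℕ) : ∀ X : List Bool, N k X ≤ 3 ^ k := by
  induction k with
  | zero => intro X; simp only [N]; split_ifs <;> simp
  | succ k ih =>
    intro X
    have h0 := ih (T 0 X)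
    have h1 := ih (T 1 X)
    have h2 := ih (T 2 X)
    simp only [N, pow_succ]
    omega

theorem true_mem_of_T {p : ℕ} {X : List Bool} (h : true ∈ T p X) : true ∈ X := by
  by_contra hX
  have h0 : X.count true = 0 := List.count_eq_zero.2 hX
  have h1 := count_T_le X p
  rw [h0] at h1
  have h2 : (T p X).count true = 0 := by omega
  exact (List.count_eq_zero.1 h2) h

theorem N_succ_le (k : ℕ) : ∀ X : List Bool, N (k + 1) X ≤ 3 * N k X := by
  induction k with
  | zero =>
    intro X
    simp only [N]
    by_cases hX : true ∈ X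
    · simp only [hX, if_true]
      split_ifs <;> simp
    · have h0 : true ∉ T 0 X := fun h => hX (true_mem_of_T h)
      have h1 : true ∉ T 1 X := fun h => hX (true_mem_of_T h)
      have h2 : true ∉ T 2 X := fun h => hX (true_mem_of_T h)
      simp [h0, h1, h2]
  | succ k ih =>
    intro X
    have h0 := ih (T 0 X)
    have h1 := ih (T 1 X)
    have h2 := ih (T 2 X)
    have e : N (k + 1 + 1) X = N (k + 1) (T 0 X) + N (k + 1) (T 1 X) + N (k + 1) (T 2 X) := rfl
    have e' : N (k + 1) X = N k (T 0 X) + N k (T 1 X) + N k (T 2 X) := rfl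
    rw [e, e']
    omega

theorem N_add_le (k d : ℕ) (X : List Bool) : N (d + k) X ≤ 3 ^ d * N k X := by
  induction d with
  | zero => simp
  | succ d ih =>
    have h := N_succ_le (d + k) X
    have e : d + 1 + k = d + k + 1 := by ring
    rw [e, pow_succ]
    calc N (d + k + 1) X ≤ 3 * N (d + k) X := h
      _ ≤ 3 * (3 ^ d * N k X) := Nat.mul_le_mul_left _ ih
      _ = 3 ^ d * 3 * N k X := by ring

/-- The letter count is preserved on average. -/
theorem count_sum (X : List Bool) : ∀ p : ℕ,
    (T p X).count true + (T (p + 1) X).count true + (T (p + 2) X).count true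
      = 3 * X.count true := by
  induction X with
  | nil => intro p; simp
  | cons x X ih =>
    intro p
    have h3 : (x :: X).count true = [x].count true + X.count true := by
      rw [← List.singleton_append, List.count_append]
    have h4 := ih (p + wt x)
    simp only [T_cons, List.count_append, h3]
    rw [show p + 1 + wt x = p + wt x + 1 by ring, show p + 2 + wt x = p + wt x + 2 by ring]
    have h5 : (out p x).count true + (out (p + 1) x).count true + (out (p + 2) x).count true
        = 3 * [x].count true := by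
      have hp : p % 3 = 0 ∨ p % 3 = 1 ∨ p % 3 = 2 := by omega
      rcases hp with hp | hp | hp
      · rw [out_congr (p := p) (q := 0) (by omega), out_congr (p := p + 1) (q := 1) (by omega),
          out_congr (p := p + 2) (q := 2) (by omega)]
        cases x <;> decide
      · rw [out_congr (p := p) (q := 1) (by omega), out_congr (p := p + 1) (q := 2) (by omega),
          out_congr (p := p + 2) (q := 0) (by omega)]
        cases x <;> decide
      · rw [out_congr (p := p) (q := 2) (by omega), out_congr (p := p + 1) (q := 0) (by omega),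
          out_congr (p := p + 2) (q := 1) (by omega)]
        cases x <;> decide
    omega

/-- `u` is reached from `X` in `d` passes with freely chosen phases. -/
def Reach : ℕ → List Bool → List Bool → Prop
  | 0, X, u => X = u
  | d + 1, X, u => ∃ q : ℕ, q < 3 ∧ Reach d (T q X) u

theorem N_reach (k d : ℕ) : ∀ X u : List Bool, Reach d X u →
    N (d + k) X + u.count true * N k [true] ≤ 3 ^ d * X.count true * N k [true] + N k u := by
  induction d with
  | zero =>
    intro X u h
    simp only [Reach] at h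
    subst h
    simp [add_comm]
  | succ d ih =>
    intro X u h
    obtain ⟨q, hq, hr⟩ := h
    have h1 := ih _ _ hr
    have hs := count_sum X 0
    simp only [zero_add] at hs
    have e : N (d + 1 + k) X = N (d + k) (T 0 X) + N (d + k) (T 1 X) + N (d + k) (T 2 X) := by
      rw [show d + 1 + k = d + k + 1 by ring]; rfl
    have hb : ∀ Y : List Bool, N (d + k) Y ≤ 3 ^ d * Y.count true * N k [true] := by
      intro Y
      calc N (d + k) Y ≤ 3 ^ d * N k Y := N_add_le k d Y
        _ ≤ 3 ^ d * (Y.count true * N k [true]) := Nat.mul_le_mul_left _ (N_le_count k Y)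
        _ = _ := by ring
    have hb0 := hb (T 0 X)
    have hb1 := hb (T 1 X)
    have hb2 := hb (T 2 X)
    have etot : 3 ^ (d + 1) * X.count true * N k [true]
        = 3 ^ d * (T 0 X).count true * N k [true] + 3 ^ d * (T 1 X).count true * N k [true]
          + 3 ^ d * (T 2 X).count true * N k [true] := by
      calc 3 ^ (d + 1) * X.count true * N k [true]
          = 3 ^ d * (3 * X.count true) * N k [true] := by ring
        _ = _ := by rw [← hs]; ring
    rw [e, etot]
    have hq' : q = 0 ∨ q = 1 ∨ q = 2 := by omega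
    rcases hq' with rfl | rfl | rfl <;> omega

/-- Five passes with the phases `0,1,1,1,1`. -/
def F5 (X : List Bool) : List Bool := T 1 (T 1 (T 1 (T 1 (T 0 X))))

/-- Five passes with the phases `0,1,2,0,1`. -/
def G5 (X : List Bool) : List Bool := T 1 (T 0 (T 2 (T 1 (T 0 X))))

/-- `aabbba`. -/
def Y0 : List Bool := [false, false, true, true, true, false]

/-- The word reached from `b` after 20 passes. -/
def W0 : List Bool := F5 (F5 (F5 (F5 [true])))

/-- `Y0` repeated `n` times. -/
def Yp : ℕ → List Bool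
  | 0 => []
  | n + 1 => Y0 ++ Yp n

theorem G5_Y0_append (Z : List Bool) : G5 (Y0 ++ Z) = Y0 ++ G5 Z := by
  have h1 : T 0 (Y0 ++ Z) = T 0 Y0 ++ T 0 Z := by
    rw [T_append, T_congr Z (p := 0 + chi Y0) (q := 0) (by decide)]
  have h2 : ∀ Z, T 1 (T 0 Y0 ++ Z) = T 1 (T 0 Y0) ++ T 1 Z := by
    intro Z
    rw [T_append, T_congr Z (p := 1 + chi (T 0 Y0)) (q := 1) (by decide)]
  have h3 : ∀ Z, T 2 (T 1 (T 0 Y0) ++ Z) = T 2 (T 1 (T 0 Y0)) ++ T 2 Z := by
    intro Z
    rw [T_append, T_congr Z (p := 2 + chi (T 1 (T 0 Y0))) (q := 2) (by decide)]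
  have h4 : ∀ Z, T 0 (T 2 (T 1 (T 0 Y0)) ++ Z) = T 0 (T 2 (T 1 (T 0 Y0))) ++ T 0 Z := by
    intro Z
    rw [T_append, T_congr Z (p := 0 + chi (T 2 (T 1 (T 0 Y0)))) (q := 0) (by decide)]
  have h5 : ∀ Z, T 1 (T 0 (T 2 (T 1 (T 0 Y0))) ++ Z) = T 1 (T 0 (T 2 (T 1 (T 0 Y0)))) ++ T 1 Z := by
    intro Z
    rw [T_append, T_congr Z (p := 1 + chi (T 0 (T 2 (T 1 (T 0 Y0))))) (q := 1) (by decide)]
  have h6 : T 1 (T 0 (T 2 (T 1 (T 0 Y0)))) = Y0 := by decide
  simp only [G5]
  rw [h1, h2, h3, h4, h5, h6]

theorem G5_Yp (n : ℕ) : G5 (Yp n) = Yp n := by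
  induction n with
  | zero => rfl
  | succ n ih => rw [Yp, G5_Y0_append, ih]

theorem F5_W0_append (Z : List Bool) : F5 (W0 ++ Z) = W0 ++ (Y0 ++ G5 Z) := by
  have h1 : T 0 (W0 ++ Z) = T 0 W0 ++ T 0 Z := by
    rw [T_append, T_congr Z (p := 0 + chi W0) (q := 0) (by decide)]
  have h2 : ∀ Z, T 1 (T 0 W0 ++ Z) = T 1 (T 0 W0) ++ T 1 Z := by
    intro Z
    rw [T_append, T_congr Z (p := 1 + chi (T 0 W0)) (q := 1) (by decide)]
  have h3 : ∀ Z, T 1 (T 1 (T 0 W0) ++ Z) = T 1 (T 1 (T 0 W0)) ++ T 2 Z := by
    intro Z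
    rw [T_append, T_congr Z (p := 1 + chi (T 1 (T 0 W0))) (q := 2) (by decide)]
  have h4 : ∀ Z, T 1 (T 1 (T 1 (T 0 W0)) ++ Z) = T 1 (T 1 (T 1 (T 0 W0))) ++ T 0 Z := by
    intro Z
    rw [T_append, T_congr Z (p := 1 + chi (T 1 (T 1 (T 0 W0)))) (q := 0) (by decide)]
  have h5 : ∀ Z, T 1 (T 1 (T 1 (T 1 (T 0 W0))) ++ Z) = T 1 (T 1 (T 1 (T 1 (T 0 W0)))) ++ T 1 Z := by
    intro Z
    rw [T_append, T_congr Z (p := 1 + chi (T 1 (T 1 (T 1 (T 0 W0))))) (q := 1) (by decide)]
  have h6 : T 1 (T 1 (T 1 (T 1 (T 0 W0)))) = W0 ++ Y0 := by decide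
  simp only [F5, G5]
  rw [h1, h2, h3, h4, h5, h6, List.append_assoc]

theorem reach_trans (d : ℕ) : ∀ (e : ℕ) (X Z u : List Bool),
    Reach d X Z → Reach e Z u → Reach (d + e) X u := by
  induction d with
  | zero => intro e X Z u h1 h2; simp only [Reach] at h1; subst h1; simpa using h2
  | succ d ih =>
    intro e X Z u h1 h2
    obtain ⟨q, hq, hr⟩ := h1
    rw [show d + 1 + e = d + e + 1 by ring]
    exact ⟨q, hq, ih e _ _ _ hr h2⟩

theorem reach_F5 (X : List Bool) : Reach 5 X (F5 X) :=
  ⟨0, by norm_num, 1, by norm_num, 1, by norm_num, 1, by norm_num, 1, by norm_num, rfl⟩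

theorem reach_W0 : Reach 20 [true] W0 := by
  have h := reach_trans 5 5 _ _ _ (reach_F5 [true]) (reach_F5 _)
  have h' := reach_trans 10 5 _ _ _ h (reach_F5 _)
  exact reach_trans 15 5 _ _ _ h' (reach_F5 _)

theorem reach_Yp (n : ℕ) : Reach (20 + 5 * n) [true] (W0 ++ Yp n) := by
  induction n with
  | zero => simpa [Yp] using reach_W0
  | succ n ih =>
    have h := reach_trans _ 5 _ _ _ ih (reach_F5 _)
    rw [F5_W0_append, G5_Yp] at h
    rw [show 20 + 5 * (n + 1) = 20 + 5 * n + 5 by ring]
    exact h

theorem count_Yp (n : ℕ) : (Yp n).count true = 3 * n := by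
  induction n with
  | zero => rfl
  | succ n ih =>
    have h : Y0.count true = 3 := by decide
    rw [Yp, List.count_append, ih, h]
    ring

/-- Arbitrarily many `b` are reached from a single one. -/
theorem reach_many (M : ℕ) : ∃ d u, Reach d [true] u ∧ M ≤ u.count true := by
  refine ⟨_, _, reach_Yp M, ?_⟩
  rw [List.count_append, count_Yp]
  omega

open Filter Topology

/-- The survival probability. -/
noncomputable def s (k : ℕ) : ℝ := (N k [true] : ℝ) / 3 ^ k

theorem s_nonneg (k : ℕ) : 0 ≤ s k := by unfold s; positivity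

theorem s_antitone : Antitone s := by
  apply antitone_nat_of_succ_le
  intro k
  unfold s
  have h : (N (k + 1) [true] : ℝ) ≤ 3 * N k [true] := by exact_mod_cast N_succ_le k [true]
  rw [pow_succ, div_le_div_iff₀ (by positivity) (by positivity)]
  have h3 : (0 : ℝ) < 3 ^ k := by positivity
  nlinarith

theorem s_step {M : ℕ} {d : ℕ} {u : List Bool} (h : Reach d [true] u) (hu : M ≤ u.count true)
    (k : ℕ) : s (d + k) + (M * s k - 1) / 3 ^ d ≤ s k := by
  have h1 := N_reach k d _ _ h
  have h2 := N_le_pow k u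
  have h3 : ([true] : List Bool).count true = 1 := by decide
  rw [h3, mul_one] at h1
  have h4 : N (d + k) [true] + M * N k [true] ≤ 3 ^ d * N k [true] + 3 ^ k := by
    have := Nat.mul_le_mul_right (N k [true]) hu
    omega
  have h5 : (N (d + k) [true] : ℝ) + M * N k [true] ≤ 3 ^ d * N k [true] + 3 ^ k := by
    exact_mod_cast h4
  unfold s
  have hk : (0 : ℝ) < 3 ^ k := by positivity
  have hd : (0 : ℝ) < 3 ^ d := by positivity
  have e : (N (d + k) [true] : ℝ) / 3 ^ (d + k) + (M * ((N k [true] : ℝ) / 3 ^ k) - 1) / 3 ^ d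
      = ((N (d + k) [true] : ℝ) + M * N k [true] - 3 ^ k) / (3 ^ d * 3 ^ k) := by
    rw [pow_add]
    field_simp
    ring
  have e2 : (N k [true] : ℝ) / 3 ^ k = (3 ^ d * N k [true]) / (3 ^ d * 3 ^ k) := by
    field_simp
  rw [e, e2]
  gcongr
  linarith

theorem s_tendsto : Tendsto s atTop (𝓝 0) := by
  have hb : BddBelow (Set.range s) := ⟨0, by rintro _ ⟨k, rfl⟩; exact s_nonneg k⟩
  have hlim := tendsto_atTop_ciInf s_antitone hb
  set L := ⨅ k, s k with hL
  have hL0 : 0 ≤ L := le_ciInf s_nonneg
  have key : ∀ M : ℕ, (M : ℝ) * L ≤ 1 := by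
    intro M
    obtain ⟨d, u, hr, hu⟩ := reach_many M
    have h1 : ∀ k, s (d + k) + (M * s k - 1) / 3 ^ d ≤ s k := s_step hr hu
    have hl1 : Tendsto (fun k => s (d + k)) atTop (𝓝 L) := by
      have := (tendsto_add_atTop_iff_nat d).2 hlim
      refine this.congr fun k => ?_
      rw [add_comm]
    have hl2 : Tendsto (fun k => s (d + k) + (M * s k - 1) / 3 ^ d) atTop
        (𝓝 (L + (M * L - 1) / 3 ^ d)) :=
      hl1.add (((hlim.const_mul _).sub_const _).div_const _)
    have h2 : L + (M * L - 1) / 3 ^ d ≤ L := le_of_tendsto_of_tendsto' hl2 hlim h1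
    have h3 : (M * L - 1) / 3 ^ d ≤ 0 := by linarith
    have hd : (0 : ℝ) < 3 ^ d := by positivity
    have h4 : (M : ℝ) * L - 1 ≤ 0 := by
      by_contra hc
      push Not at hc
      have := div_pos hc hd
      linarith
    linarith
  have hL1 : L = 0 := by
    by_contra hne
    have hpos : 0 < L := lt_of_le_of_ne hL0 (Ne.symm hne)
    obtain ⟨M, hM⟩ := exists_nat_gt (1 / L)
    have := key M
    have h5 : 1 < (M : ℝ) * L := by
      rwa [div_lt_iff₀ hpos] at hM
    linarith
  rw [hL1] at hlim
  exact hlim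

end Pool.Agent.PostTag
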