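import Pool.Agent.PostTag.Lines

/-!
Every line of inputs with any number of blocks and runs of zeros contains a halting word.
-/

set_option autoImplicit false

namespace Pool.Agent.PostTag

/-- The word with blocks `e.1` followed by runs of `e.2.1 + e.2.2 n` zeros. -/
def val (n : ℕ) : List (List Bool × ℕ × ℕ) → List Bool
  | [] => []
  | (U, m, a) :: L => U ++ (List.replicate (m + a * n) false ++ val n L)

/-- The blocks and runs after one pass, for parameters `3 n + r`. -/
def passL (r : ℕ) : ℕ → List (List Bool × ℕ × ℕ) → List (List Bool × ℕ × ℕ)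
  | _, [] => []
  | p, (U, m, a) :: L =>
      (T p U, nm (p + chi U) (m + a * r), 2 * a) :: passL r (p + chi U + (m + a * r)) L

/-- The phase after the pass. -/
def endp (r : ℕ) : ℕ → List (List Bool × ℕ × ℕ) → ℕ
  | p, [] => p
  | p, (U, m, a) :: L => endp r (p + chi U + (m + a * r)) L

theorem val_append (n : ℕ) (L L' : List (List Bool × ℕ × ℕ)) :
    val n (L ++ L') = val n L ++ val n L' := by
  induction L with
  | nil => rfl
  | cons e L ih =>
    obtain ⟨U, m, a⟩ := e
    simp only [List.cons_append, val, ih, List.append_assoc]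

theorem passL_congr (r : ℕ) (L : List (List Bool × ℕ × ℕ)) : ∀ {p q : ℕ}, p % 3 = q % 3 →
    passL r p L = passL r q L := by
  induction L with
  | nil => intros; rfl
  | cons e L ih =>
    obtain ⟨U, m, a⟩ := e
    intro p q h
    simp only [passL]
    rw [T_congr U h, nm_congr (p := p + chi U) (q := q + chi U) (by omega),
      ih (p := p + chi U + (m + a * r)) (q := q + chi U + (m + a * r)) (by omega)]

theorem endp_add (r : ℕ) (L : List (List Bool × ℕ × ℕ)) : ∀ p c : ℕ,
    endp r (p + c) L = endp r p L + c := by
  induction L with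
  | nil => intros; rfl
  | cons e L ih =>
    obtain ⟨U, m, a⟩ := e
    intro p c
    simp only [endp]
    rw [← ih]
    congr 1
    ring

theorem endp_eq (r : ℕ) (L : List (List Bool × ℕ × ℕ)) (p : ℕ) : endp r p L = p + endp r 0 L := by
  have h := endp_add r L 0 p
  rw [zero_add] at h
  rw [h]
  ring

theorem endp_append (r : ℕ) (L L' : List (List Bool × ℕ × ℕ)) : ∀ p : ℕ,
    endp r p (L ++ L') = endp r (endp r p L) L' := by
  induction L with
  | nil => intros; rfl
  | cons e L ih =>
    obtain ⟨U, m, a⟩ := e
    intro p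
    simp only [List.cons_append, endp, ih]

theorem passL_append (r : ℕ) (L L' : List (List Bool × ℕ × ℕ)) : ∀ p : ℕ,
    passL r p (L ++ L') = passL r p L ++ passL r (endp r p L) L' := by
  induction L with
  | nil => intros; rfl
  | cons e L ih =>
    obtain ⟨U, m, a⟩ := e
    intro p
    simp only [List.cons_append, passL, endp, ih]

theorem passL_length (r : ℕ) (L : List (List Bool × ℕ × ℕ)) : ∀ p : ℕ,
    (passL r p L).length = L.length := by
  induction L with
  | nil => intros; rfl
  | cons e L ih =>
    obtain ⟨U, m, a⟩ := e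
    intro p
    simp [passL, ih]

theorem T_val (r n : ℕ) (L : List (List Bool × ℕ × ℕ)) : ∀ p : ℕ,
    T p (val (3 * n + r) L) = val n (passL r p L) ∧
      (p + chi (val (3 * n + r) L)) % 3 = (endp r p L) % 3 := by
  induction L with
  | nil => intro p; simp [val, passL, endp]
  | cons e L ih =>
    obtain ⟨U, m, a⟩ := e
    intro p
    have e1 : m + a * (3 * n + r) = (m + a * r) + 3 * (a * n) := by ring
    have h := ih (p + chi U + (m + a * r + 3 * (a * n)))
    have h2 : passL r (p + chi U + (m + a * r + 3 * (a * n))) L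
        = passL r (p + chi U + (m + a * r)) L := passL_congr r L (by omega)
    have h3 : (endp r (p + chi U + (m + a * r + 3 * (a * n))) L) % 3
        = (endp r (p + chi U + (m + a * r)) L) % 3 := by
      rw [← add_assoc, endp_add]
      omega
    constructor
    · simp only [val, passL]
      rw [T_append, T_append, T_replicate, chi_replicate, e1, nm_add, h.1, h2, ← mul_assoc]
    · simp only [val, endp]
      rw [chi_append, chi_append, chi_replicate, e1, ← h3, ← h.2]
      congr 1
      ring

/-- Some member of the progression halts. -/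
def QL (p : ℕ) (L : List (List Bool × ℕ × ℕ)) : Prop :=
  ∃ n : ℕ, Halts ((dec (val n L)).drop (p % 3))

theorem QL_pass (p r : ℕ) (L : List (List Bool × ℕ × ℕ)) (h : QL (endp r p L) (passL r p L)) :
    QL p L := by
  obtain ⟨n, hn⟩ := h
  refine ⟨3 * n + r, ?_⟩
  have h1 := halts_part (val (3 * n + r) L) p []
  rw [List.nil_append, List.append_nil, (T_val r n L p).1, (T_val r n L p).2] at h1
  exact h1 hn

/-- The list with slopes multiplied by three. -/
def tri (L : List (List Bool × ℕ × ℕ)) : List (List Bool × ℕ × ℕ) :=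
  L.map fun e => (e.1, e.2.1, 3 * e.2.2)

theorem val_tri (n : ℕ) (L : List (List Bool × ℕ × ℕ)) : val n (tri L) = val (3 * n) L := by
  induction L with
  | nil => rfl
  | cons e L ih =>
    obtain ⟨U, m, a⟩ := e
    have e1 : 3 * a * n = a * (3 * n) := by ring
    simp only [tri, List.map_cons, val] at ih ⊢
    rw [ih, e1]

/-- The total slope. -/
def tot (L : List (List Bool × ℕ × ℕ)) : ℕ := (L.map fun e => e.2.2).sum

theorem tot_cons (e : List Bool × ℕ × ℕ) (L : List (List Bool × ℕ × ℕ)) :
    tot (e :: L) = e.2.2 + tot L := by simp [tot]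

theorem tot_append (L L' : List (List Bool × ℕ × ℕ)) : tot (L ++ L') = tot L + tot L' := by
  simp [tot]

theorem tot_passL (r : ℕ) (L : List (List Bool × ℕ × ℕ)) : ∀ p : ℕ,
    tot (passL r p L) = 2 * tot L := by
  induction L with
  | nil => intros; rfl
  | cons e L ih =>
    obtain ⟨U, m, a⟩ := e
    intro p
    rw [passL, tot_cons, tot_cons, ih]
    ring

theorem tot_tri (L : List (List Bool × ℕ × ℕ)) : tot (tri L) = 3 * tot L := by
  induction L with
  | nil => rfl
  | cons e L ih =>
    rw [tot_cons, mul_add, ← ih]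
    simp [tri, tot]

theorem endp_r (r : ℕ) (L : List (List Bool × ℕ × ℕ)) : ∀ p : ℕ,
    endp r p L = endp 0 p L + tot L * r := by
  induction L with
  | nil => intro p; simp [endp, tot]
  | cons e L ih =>
    obtain ⟨U, m, a⟩ := e
    intro p
    simp only [endp, tot_cons]
    rw [ih, show p + chi U + (m + a * r) = p + chi U + (m + a * 0) + a * r by ring, endp_add]
    ring

/-- The pass when all slopes are divisible by three. -/
theorem QL_tri (p : ℕ) (L : List (List Bool × ℕ × ℕ)) (h : QL (endp 0 p L) (passL 0 p L)) :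
    QL p (tri L) := by
  obtain ⟨n, hn⟩ := h
  refine ⟨n, ?_⟩
  rw [val_tri]
  have h1 := halts_part (val (3 * n + 0) L) p []
  rw [List.nil_append, List.append_nil, (T_val 0 n L p).1, (T_val 0 n L p).2, add_zero] at h1
  exact h1 hn

theorem kill_mid (d : ℕ) : ∀ (X u : List Bool), Reach d X u → true ∉ u →
    ∀ (L1 L2 : List (List Bool × ℕ × ℕ)) (U : List Bool) (m a m' a' p : ℕ), 3 ∣ tot L1 →
      ¬ 3 ∣ a →
      (∀ (q : ℕ) (L : List (List Bool × ℕ × ℕ)), L.length = L1.length + 1 + L2.length →
        0 < tot L → QL q L) →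
      QL p (L1 ++ (U, m, a) :: (X, m', a') :: L2) := by
  induction d with
  | zero =>
    intro X u hr hu L1 L2 U m a m' a' p _ ha ih
    have hr' : X = u := hr
    have e : X = List.replicate X.length false := by
      apply eq_replicate_of_no_b
      rw [hr']
      exact hu
    obtain ⟨n, hn⟩ := ih p (L1 ++ (U, m + X.length + m', a + a') :: L2) (by simp; omega)
      (by rw [tot_append, tot_cons]; simp only []; omega)
    refine ⟨n, ?_⟩
    have e2 : val n (L1 ++ (U, m, a) :: (X, m', a') :: L2)
        = val n (L1 ++ (U, m + X.length + m', a + a') :: L2) := by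
      rw [val_append, val_append]
      simp only [val]
      congr 2
      rw [e, List.length_replicate, ← List.append_assoc, ← List.append_assoc,
        ← List.replicate_add, ← List.replicate_add]
      congr 2
      ring
    rw [e2]
    exact hn
  | succ d ihd =>
    intro X u hr hu L1 L2 U m a m' a' p h3 ha ih
    obtain ⟨q, hq, hr'⟩ := hr
    obtain ⟨r, hr⟩ := exists_r ha (endp 0 p L1 + chi U + m) q
    apply QL_pass p r
    rw [passL_append]
    simp only [passL]
    have e1 : (endp r p L1 + chi U + (m + a * r)) % 3 = q % 3 := by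
      rw [endp_r]
      obtain ⟨c, hc⟩ := h3
      have : tot L1 * r = 3 * (c * r) := by rw [hc]; ring
      omega
    rw [T_congr X e1]
    apply ihd (T q X) u hr' hu
    · rw [tot_passL]
      exact Dvd.dvd.mul_left h3 2
    · omega
    · intro q' L hL h0
      rw [passL_length, passL_length] at hL
      exact ih q' L hL h0

theorem rotate (p l m a c : ℕ) (V : List Bool) (m2 a2 : ℕ) (L : List (List Bool × ℕ × ℕ))
    (hc : c = nm p (l + m))
    (h : QL (p + (l + m)) (tri L ++ [(V, m2 + c, 3 * a2 + 2 * a)])) :
    QL p ((List.replicate l false, m, a) :: (L ++ [(V, m2, a2)])) := by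
  obtain ⟨n, hn⟩ := h
  refine ⟨3 * n, ?_⟩
  have h1 := halts_part (List.replicate (l + m + 3 * (a * n)) false) p
    (val (3 * n) (L ++ [(V, m2, a2)]))
  have e1 : val (3 * n) ((List.replicate l false, m, a) :: (L ++ [(V, m2, a2)])) =
      List.replicate (l + m + 3 * (a * n)) false ++ val (3 * n) (L ++ [(V, m2, a2)]) := by
    simp only [val]
    rw [← List.append_assoc, ← List.replicate_add]
    congr 2
    ring
  have e2 : val (3 * n) (L ++ [(V, m2, a2)]) ++
      T p (List.replicate (l + m + 3 * (a * n)) false) =
      val n (tri L ++ [(V, m2 + c, 3 * a2 + 2 * a)]) := by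
    rw [val_append, val_append, val_tri, T_replicate, nm_add, ← hc]
    simp only [val, List.append_nil]
    rw [List.append_assoc, List.append_assoc, ← List.replicate_add]
    congr 3
    ring
  have e3 : (p + chi (List.replicate (l + m + 3 * (a * n)) false)) % 3 = (p + (l + m)) % 3 := by
    rw [chi_replicate]
    omega
  rw [e1]
  apply h1
  rw [e2, e3]
  exact hn

theorem kill_head (d : ℕ) : ∀ (X0 u : List Bool), Reach d X0 u → true ∉ u →
    ∀ (p : ℕ) (X : List Bool) (m a : ℕ) (L : List (List Bool × ℕ × ℕ)), T p X = X0 →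
      L ≠ [] → ¬ 3 ∣ tot ((X, m, a) :: L) →
      (∀ (q : ℕ) (L' : List (List Bool × ℕ × ℕ)), L'.length = L.length → 0 < tot L' → QL q L') →
      QL p ((X, m, a) :: L) := by
  induction d with
  | zero =>
    intro X0 u hr hu p X m a L hX hL ha ih
    have hr' : X0 = u := hr
    apply QL_pass p 0
    have e : T p X = List.replicate (T p X).length false := by
      apply eq_replicate_of_no_b
      rw [hX, hr']
      exact hu
    have h2 := tot_passL 0 L (p + chi X + (m + a * 0))
    have h3 := passL_length 0 L (p + chi X + (m + a * 0))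
    rw [tot_cons] at ha
    simp only [passL]
    obtain ⟨L2, hL2⟩ : ∃ L2, L2 = passL 0 (p + chi X + (m + a * 0)) L := ⟨_, rfl⟩
    rw [← hL2] at h2 h3 ⊢
    have hne : L2 ≠ [] := by
      intro h0
      rw [h0] at h3
      apply hL
      exact List.length_eq_zero_iff.1 h3.symm
    obtain ⟨L3, ⟨V, m2, a2⟩, rfl⟩ : ∃ L3 e, L2 = L3 ++ [e] :=
      ⟨L2.dropLast, L2.getLast hne, (List.dropLast_append_getLast hne).symm⟩
    rw [e]
    apply rotate _ _ _ _ _ _ _ _ _ rfl
    apply ih
    · rw [← h3]
      simp [tri]
    · rw [tot_append, tot_cons] at h2 ⊢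
      rw [tot_tri]
      simp only [] at ha h2 ⊢
      have h4 : 0 < a + tot L := by omega
      omega
  | succ d ihd =>
    intro X0 u hr hu p X m a L hX hL ha ih
    obtain ⟨q, hq, hr'⟩ := hr
    obtain ⟨r, hr⟩ := exists_r ha (endp 0 p ((X, m, a) :: L)) q
    apply QL_pass p r
    have h1 : endp r p ((X, m, a) :: L) % 3 = q % 3 := by rw [endp_r, ← hr]
    have h2 := tot_passL r ((X, m, a) :: L) p
    have h3 := passL_length r L (p + chi X + (m + a * r))
    simp only [passL] at h2 ⊢
    refine ihd (T q X0) u hr' hu _ _ _ _ _ ?_ ?_ ?_ ?_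
    · rw [hX]
      exact T_congr _ h1
    · intro h0
      rw [h0] at h3
      apply hL
      exact List.length_eq_zero_iff.1 h3.symm
    · rw [h2]
      omega
    · intro q' L' hL' h0
      exact ih q' L' (by rw [hL', h3]) h0

theorem split_first (L : List (List Bool × ℕ × ℕ)) (h : ∃ e ∈ L, ¬ 3 ∣ e.2.2) :
    ∃ L1 e L2, L = L1 ++ e :: L2 ∧ 3 ∣ tot L1 ∧ ¬ 3 ∣ e.2.2 := by
  induction L with
  | nil => simp at h
  | cons f L ih =>
    by_cases hf : 3 ∣ f.2.2
    · obtain ⟨e, he, he2⟩ := h
      rcases List.mem_cons.1 he with rfl | he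
      · exact absurd hf he2
      · obtain ⟨L1, g, L2, h1, h2, h3⟩ := ih ⟨e, he, he2⟩
        refine ⟨f :: L1, g, L2, by rw [h1]; rfl, ?_, h3⟩
        rw [tot_cons]
        exact dvd_add hf h2
    · exact ⟨[], f, L, rfl, by simp [tot], hf⟩

theorem multi_runs (k : ℕ) : ∀ (t p : ℕ) (L : List (List Bool × ℕ × ℕ)), L.length = k →
    tot L = t → 0 < t → QL p L := by
  induction k with
  | zero =>
    intro t p L hL ht h0
    rw [List.length_eq_zero_iff] at hL
    subst hL
    simp [tot] at ht
    omega
  | succ k ihk =>
    intro t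
    induction t using Nat.strong_induction_on with
    | _ t iht =>
      intro p L hL ht h0
      by_cases h3 : ∃ e ∈ L, ¬ 3 ∣ e.2.2
      · obtain ⟨L1, ⟨U, m, a⟩, L2, rfl, h4, h5⟩ := split_first L h3
        rcases L2 with _ | ⟨⟨X, m', a'⟩, L2⟩
        · rcases L1 with _ | ⟨⟨X, m', a'⟩, L1⟩
          · -- one run
            obtain ⟨n, hn⟩ := one_run p U m a (by
              rcases Nat.eq_zero_or_pos a with h | h
              · simp [h] at h5
              · exact h)
            exact ⟨n, by simpa [val] using hn⟩
          · obtain ⟨d, u, h6, h7⟩ := exists_kill (T p X)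
            rw [List.cons_append]
            apply kill_head d (T p X) u h6 h7 p X m' a' _ rfl (by simp)
            · rw [tot_cons] at h4 ⊢
              rw [tot_append, tot_cons]
              simp only [tot, List.map_nil, List.sum_nil] at h4 h5 ⊢
              omega
            · intro q L' hL' h0'
              exact ihk _ q L' (by rw [hL']; simpa using hL) rfl h0'
        · obtain ⟨d, u, h6, h7⟩ := exists_kill X
          apply kill_mid d X u h6 h7 L1 L2 U m a m' a' p h4 h5
          intro q L' hL' h0'
          refine ihk _ q L' ?_ rfl h0'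
          rw [hL']
          simp at hL
          omega
      · push Not at h3
        obtain ⟨L', rfl⟩ : ∃ L', L = tri L' := by
          clear hL ht iht
          induction L with
          | nil => exact ⟨[], rfl⟩
          | cons e L ih =>
            obtain ⟨L', hL'⟩ := ih (fun f hf => h3 f (List.mem_cons_of_mem _ hf))
            obtain ⟨c, hc⟩ := h3 e List.mem_cons_self
            refine ⟨(e.1, e.2.1, c) :: L', ?_⟩
            rw [hL']
            simp [tri, ← hc]
        rw [tot_tri] at ht
        apply QL_tri
        refine iht (2 * tot L') (by omega) _ _ ?_ (tot_passL 0 L' p) (by omega)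
        rw [passL_length]
        simpa [tri] using hL

/-- Reading raw runs and blocks; `W` is the word read so far. -/
def conv (W : List Bool) : ℕ → List (ℕ × ℕ × List Bool) → List (List Bool × ℕ × ℕ)
  | _, [] => [(W, 0, 0)]
  | p, (m, a, U) :: L => (W, rn p m, a) :: conv (R (p + 2 * m) U) (p + 2 * m + 2 * U.length) L

theorem R_rval (n : ℕ) (L : List (ℕ × ℕ × List Bool)) : ∀ (p : ℕ) (W : List Bool),
    W ++ R p (L.flatMap fun e => List.replicate (e.1 + 3 * n * e.2.1) false ++ e.2.2)
      = val n (conv W p L) := by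
  induction L with
  | nil => intro p W; simp [R, conv, val]
  | cons e L ih =>
    obtain ⟨m, a, U⟩ := e
    intro p W
    have e1 : m + 3 * n * a = 3 * (n * a) + m := by ring
    have e2 : rn p m + a * n = n * a + rn p m := by ring
    simp only [List.flatMap_cons, conv, val]
    rw [← ih, List.append_assoc, R_append, R_append, R_replicate, e1, rn_three_mul,
      List.length_replicate, R_congr U (p := p + 2 * (3 * (n * a) + m)) (q := p + 2 * m) (by omega),
      R_congr _ (p := p + 2 * (3 * (n * a) + m) + 2 * U.length)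
        (q := p + 2 * m + 2 * U.length) (by omega), e2]

theorem tot_conv (L : List (ℕ × ℕ × List Bool)) : ∀ (p : ℕ) (W : List Bool),
    (∃ e ∈ L, 0 < e.2.1) → 0 < tot (conv W p L) := by
  induction L with
  | nil => intro p W h; simp at h
  | cons e L ih =>
    obtain ⟨m, a, U⟩ := e
    intro p W h
    simp only [conv, tot_cons]
    obtain ⟨f, hf, hf2⟩ := h
    rcases List.mem_cons.1 hf with rfl | hf
    · simp only [] at hf2
      omega
    · have := ih (p + 2 * m + 2 * U.length) (R (p + 2 * m) U) ⟨f, hf, hf2⟩
      omega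

theorem length_rval (n : ℕ) (L : List (ℕ × ℕ × List Bool)) :
    (L.flatMap fun e => List.replicate (e.1 + 3 * n * e.2.1) false ++ e.2.2).length % 3
      = (L.flatMap fun e => List.replicate e.1 false ++ e.2.2).length % 3 := by
  induction L with
  | nil => rfl
  | cons e L ih =>
    simp only [List.flatMap_cons, List.length_append, List.length_replicate] at ih ⊢
    have e1 : 3 * n * e.2.1 = 3 * (n * e.2.1) := by ring
    rw [e1]
    omega

/-- Every line of inputs contains a halting word. -/
theorem lines_halt (L : List (ℕ × ℕ × List Bool)) (h : ∃ e ∈ L, 0 < e.2.1) :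
    ∃ n : ℕ, Halts (L.flatMap fun e => List.replicate (e.1 + n * e.2.1) false ++ e.2.2) := by
  obtain ⟨P, hP⟩ : ∃ P, P = 2 * (L.flatMap fun e => List.replicate e.1 false ++ e.2.2).length :=
    ⟨_, rfl⟩
  obtain ⟨n, hn⟩ := multi_runs _ _ P (conv [] 0 L) rfl rfl (tot_conv L 0 [] h)
  refine ⟨3 * n, ?_⟩
  have h1 := halts_raw (L.flatMap fun e => List.replicate (e.1 + 3 * n * e.2.1) false ++ e.2.2) 0 []
  have e1 := R_rval n L 0 []
  rw [List.nil_append] at e1
  have e2 := length_rval n L
  have e3 : (0 + 2 * (L.flatMap fun e =>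
      List.replicate (e.1 + 3 * n * e.2.1) false ++ e.2.2).length) % 3 = P % 3 := by
    rw [hP]
    omega
  rw [List.nil_append, e1, e3, dec_nil, List.append_nil, Nat.zero_mod, List.drop_zero] at h1
  exact h1 hn

end Pool.Agent.PostTag
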