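import Pool.Agent.PostTag.Sparse
import Pool.Agent.PostTag.Lines2

/-!
The set of non-halting inputs with exactly `N` ones: no infinite semilinear subset, and infinite for
`N ≥ 4`.
-/

set_option autoImplicit false

namespace Pool.Agent.PostTag

/-- The word `0^{l_0} 1 0^{l_1} 1 ... 1 0^{l_N}` with run lengths `l`. -/
def wd (l : List ℕ) : List Bool := [true].intercalate (l.map fun k => List.replicate k false)

theorem wd_singleton (k : ℕ) : wd [k] = List.replicate k false := by simp [wd, List.intercalate]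

theorem wd_cons (k k' : ℕ) (l : List ℕ) :
    wd (k :: k' :: l) = List.replicate k false ++ true :: wd (k' :: l) := by
  simp [wd, List.intercalate]

theorem exists_wd (w : List Bool) : ∃ l : List ℕ, l.length = w.count true + 1 ∧ wd l = w := by
  induction w with
  | nil => exact ⟨[0], by simp, by simp [wd_singleton]⟩
  | cons x w ih =>
    obtain ⟨l, hl, hw⟩ := ih
    obtain ⟨k, l', rfl⟩ : ∃ k l', l = k :: l' := by
      rcases l with _ | ⟨k, l'⟩
      · simp at hl
      · exact ⟨k, l', rfl⟩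
    cases x
    · refine ⟨(k + 1) :: l', by simpa using hl, ?_⟩
      rcases l' with _ | ⟨k', l''⟩
      · rw [wd_singleton] at hw ⊢
        rw [List.replicate_succ, hw]
      · rw [wd_cons] at hw ⊢
        rw [List.replicate_succ, List.cons_append, hw]
    · refine ⟨0 :: k :: l', by simpa using hl, ?_⟩
      rw [wd_cons, hw]
      simp

/-- The list used for `lines_halt`. -/
def tag : List (ℕ × ℕ) → List (ℕ × ℕ × List Bool)
  | [] => []
  | [e] => [(e.1, e.2, [])]
  | e :: e' :: l => (e.1, e.2, [true]) :: tag (e' :: l)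

theorem tag_flatMap (n : ℕ) (l : List (ℕ × ℕ)) (hl : l ≠ []) :
    (tag l).flatMap (fun e => List.replicate (e.1 + n * e.2.1) false ++ e.2.2)
      = wd (l.map fun e => e.1 + n * e.2) := by
  induction l with
  | nil => exact absurd rfl hl
  | cons e l ih =>
    rcases l with _ | ⟨e', l'⟩
    · simp [tag, wd_singleton]
    · have h := ih (by simp)
      rw [tag, List.flatMap_cons, h]
      simp only [List.map_cons]
      rw [wd_cons]
      simp

theorem tag_mem (l : List (ℕ × ℕ)) (h : ∃ e ∈ l, 0 < e.2) : ∃ e ∈ tag l, 0 < e.2.1 := by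
  induction l with
  | nil => simp at h
  | cons e l ih =>
    rcases l with _ | ⟨e', l'⟩
    · obtain ⟨f, hf, hf2⟩ := h
      rw [List.mem_singleton] at hf
      subst hf
      exact ⟨(f.1, f.2, []), by simp [tag], hf2⟩
    · obtain ⟨f, hf, hf2⟩ := h
      rcases List.mem_cons.1 hf with rfl | hf
      · exact ⟨(f.1, f.2, [true]), by simp [tag], hf2⟩
      · obtain ⟨g, hg, hg2⟩ := ih ⟨f, hf, hf2⟩
        exact ⟨g, by rw [tag]; exact List.mem_cons_of_mem _ hg, hg2⟩

/-- Every line in `ℕ^(N+1)` contains a halting input. -/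
theorem line_has_halting (N : ℕ) (v p : Fin (N + 1) → ℕ) (hp : p ≠ 0) :
    ∃ n : ℕ, Halts (wd (List.ofFn (v + n • p))) := by
  have hne : ∃ e ∈ List.ofFn (fun i => (v i, p i)), 0 < e.2 := by
    obtain ⟨i, hi⟩ : ∃ i, p i ≠ 0 := by
      by_contra hc
      push Not at hc
      exact hp (funext hc)
    exact ⟨(v i, p i), by rw [List.mem_ofFn]; exact ⟨i, rfl⟩, Nat.pos_of_ne_zero hi⟩
  obtain ⟨n, hn⟩ := lines_halt _ (tag_mem _ hne)
  refine ⟨n, ?_⟩
  rw [tag_flatMap n _ (by
    intro hc
    rw [List.ofFn_eq_nil_iff] at hc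
    omega)] at hn
  convert hn using 2
  rw [List.map_ofFn]
  congr 1

theorem semilinear_finite (N : ℕ) (s : Set (Fin (N + 1) → ℕ)) (hs : IsSemilinearSet s)
    (h : ∀ x ∈ s, ¬ Halts (wd (List.ofFn x))) : s.Finite := by
  obtain ⟨S, hS, hlin, rfl⟩ := hs
  apply hS.sUnion
  intro t ht
  obtain ⟨a, T, hT, rfl⟩ := hlin t ht
  by_cases hz : ∃ p ∈ T, p ≠ 0
  · exfalso
    obtain ⟨p, hpT, hp⟩ := hz
    obtain ⟨n, hn⟩ := line_has_halting N a p hp
    refine h (a + n • p) ?_ hn
    refine Set.mem_sUnion.2 ⟨_, ht, ?_⟩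
    rw [Set.mem_vadd_set]
    exact ⟨n • p, (AddSubmonoid.closure T).nsmul_mem (AddSubmonoid.subset_closure hpT) n, rfl⟩
  · push Not at hz
    have hbot : AddSubmonoid.closure T = ⊥ := by
      rw [eq_bot_iff, AddSubmonoid.closure_le]
      intro p hp
      simp [hz p hp]
    rw [hbot]
    simp

theorem exists_ofFn {m : ℕ} {l : List ℕ} (hl : l.length = m) : ∃ x : Fin m → ℕ, List.ofFn x = l := by
  subst hl
  exact ⟨l.get, List.ofFn_get l⟩

theorem infinite_not_halts (N : ℕ) (hN : 4 ≤ N) :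
    {x : Fin (N + 1) → ℕ | ¬ Halts (wd (List.ofFn x))}.Infinite := by
  intro hfin
  obtain ⟨B, hB⟩ := (hfin.image (fun x => (wd (List.ofFn x)).length)).bddAbove
  obtain ⟨w, hw1, hw2, hw3⟩ := exists_not_halts N hN (B + 1)
  obtain ⟨l, hl, hlw⟩ := exists_wd w
  rw [hw1] at hl
  obtain ⟨x, hx⟩ := exists_ofFn hl
  have h4 : (wd (List.ofFn x)).length ≤ B := by
    apply hB
    refine ⟨x, ?_, rfl⟩
    rw [← hlw, ← hx] at hw3
    exact hw3
  rw [hx, hlw] at h4
  omega

end Pool.Agent.PostTag
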