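import Pool.Agent.PostTag.Sparse

/-!
Post's tag system on the inputs `1 0^i`: a backward chain of configurations with three adjacent
ones and a single run of zeros.
-/

set_option autoImplicit false

namespace Pool.Agent.PostTag

theorem Halts.of_iterate {w : List Bool} {k : ℕ} (h : Halts (step^[k] w)) : Halts w := by
  obtain ⟨j, hj⟩ := h
  exact ⟨j + k, by rwa [Function.iterate_add_apply]⟩

theorem halts_iff_of_iterate {w w' : List Bool} {k : ℕ} (h : step^[k] w = w')
    (hk : k + 3 ≤ w.length) : Halts w' ↔ Halts w := by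
  subst h
  exact ⟨fun h => h.of_iterate, fun h => h.iterate hk⟩

/-- A full pass does not change the outcome. -/
theorem halts_pass_iff (p : ℕ) (U : List Bool) (hU : 4 ≤ U.length) :
    Halts ((dec (T p U)).drop ((p + chi U) % 3)) ↔ Halts ((dec U).drop (p % 3)) := by
  apply halts_iff_of_iterate (iter_pass p U (by omega))
  have h1 := length_T U p
  have h2 := length_dec_ge' U
  rw [List.length_drop]
  omega

/-- Moving a leading block of zeros. -/
theorem halts_lead_iff (p : ℕ) (W : List Bool) (hW : 3 ≤ W.length) :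
    Halts ((dec (W ++ T p [false])).drop ((p + 1) % 3)) ↔
      Halts ((dec (false :: W)).drop (p % 3)) := by
  have hne : W ≠ [] := by
    rintro rfl
    simp at hW
  have h := iter_part [false] p W hne
  apply halts_iff_of_iterate (k := (T p [false]).length)
  · rw [List.singleton_append] at h
    rw [h]
    simp [chi, wt]
  · have h1 := length_T [false] p
    have h2 := length_dec_ge' (false :: W)
    rw [List.length_drop]
    have h3 : (T p [false]).length ≤ 1 := by
      rw [show ([false] : List Bool) = List.replicate 1 false from rfl, T_replicate,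
        List.length_replicate]
      simp only [nm]
      omega
    rw [List.length_cons] at h2
    omega

/-- A raw pass does not change the outcome. -/
theorem halts_raw_iff (s : List Bool) (hs : 6 ≤ s.length) :
    Halts ((dec (R 0 s)).drop ((2 * s.length) % 3)) ↔ Halts s := by
  obtain ⟨x, s', rfl⟩ : ∃ x s', s = x :: s' := by
    rcases s with _ | ⟨x, s'⟩
    · simp at hs
    · exact ⟨x, s', rfl⟩
  have hs' : 5 ≤ s'.length := by simpa using hs
  have h1 := iter_raw s' 2 [x] (by simp)
  have e0 : R 0 (x :: s') = x :: R 2 s' := by simp [R]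
  have e2 : step (x :: s') = List.drop 2 (s' ++ dec [x]) := by
    rw [List.drop_append_of_le_length (by omega)]
    cases x <;> simp [step, blk, dec]
  have e3 : step^[(R 0 (x :: s')).length] (x :: s')
      = (dec (R 0 (x :: s'))).drop ((2 * (x :: s').length) % 3) := by
    rw [e0, List.length_cons, Function.iterate_succ_apply, e2]
    have e4 : (2 * (x :: s').length) % 3 = (2 + 2 * s'.length) % 3 := by
      simp only [List.length_cons]; congr 1; ring
    rw [e4, ← List.singleton_append (x := x) (l := R 2 s'), ← h1]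
  apply halts_iff_of_iterate e3
  have h5 := three_length_R (x :: s') 0
  simp only [List.length_cons] at h5 ⊢
  omega

/-- The block word `1^a 0^n`. -/
def ow (a n : ℕ) : List Bool := List.replicate a true ++ List.replicate n false

theorem chi_ow (a n : ℕ) : chi (ow a n) = 2 * a + n := by
  rw [ow, chi_append, chi_ones, chi_replicate]

theorem length_ow (a n : ℕ) : (ow a n).length = a + n := by simp [ow]

/-- The configuration with three ones of index `l`. -/
def st (l : ℕ) : List Bool := (dec (ow 3 ((4 * l + (2 * l) % 3) / 3))).drop ((2 * l) % 3)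

theorem halts_even (c : ℕ) : Halts (st (2 * c + 2)) ↔ Halts (st (3 * c + 2)) := by
  have h := halts_pass_iff 1 (ow 3 (4 * c + 3)) (by rw [length_ow]; omega)
  have e1 : T 1 (ow 3 (4 * c + 3)) = ow 3 ((4 * (2 * c + 2) + (2 * (2 * c + 2)) % 3) / 3) := by
    have e : T 1 (List.replicate 3 true) = [true, true, true, false] := by decide
    rw [ow, T_append, e, T_replicate, chi_ones]
    have e2 : (4 * (2 * c + 2) + (2 * (2 * c + 2)) % 3) / 3
        = nm (1 + 2 * 3) (4 * c + 3) + 1 := by
      simp only [nm]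
      omega
    rw [e2, ow, List.replicate_succ]
    rfl
  have e2 : (1 + chi (ow 3 (4 * c + 3))) % 3 = (2 * (2 * c + 2)) % 3 := by
    rw [chi_ow]
    omega
  have e3 : (4 * (3 * c + 2) + (2 * (3 * c + 2)) % 3) / 3 = 4 * c + 3 := by omega
  have e4 : (2 * (3 * c + 2)) % 3 = 1 := by omega
  rw [e1, e2] at h
  rw [st, st, e3, e4]
  exact h

theorem halts_odd (c : ℕ) : Halts (st (2 * c + 1)) ↔ Halts (st (3 * c + 1)) := by
  have h := halts_pass_iff 2 (ow 3 (4 * c + 2)) (by rw [length_ow]; omega)
  have e1 : T 2 (ow 3 (4 * c + 2)) = false :: ow 3 (nm 8 (4 * c + 2)) := by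
    have e : T 2 (List.replicate 3 true) = [false, true, true, true] := by decide
    rw [ow, T_append, e, T_replicate, chi_ones, ow]
    rfl
  have e2 : (2 + chi (ow 3 (4 * c + 2))) % 3 = (c + 1) % 3 := by
    rw [chi_ow]
    omega
  have h2 := halts_lead_iff (c + 1) (ow 3 (nm 8 (4 * c + 2))) (by rw [length_ow]; omega)
  have e5 : ow 3 (nm 8 (4 * c + 2)) ++ T (c + 1) [false]
      = ow 3 ((4 * (2 * c + 1) + (2 * (2 * c + 1)) % 3) / 3) := by
    rw [show ([false] : List Bool) = List.replicate 1 false from rfl, T_replicate, ow, ow,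
      List.append_assoc, ← List.replicate_add]
    have e7 : nm 8 (4 * c + 2) + nm (c + 1) 1 = (4 * (2 * c + 1) + (2 * (2 * c + 1)) % 3) / 3 := by
      clear h h2 e2
      obtain ⟨q, hq⟩ : ∃ q, c = 3 * q + c % 3 := ⟨c / 3, by omega⟩
      have hr : c % 3 = 0 ∨ c % 3 = 1 ∨ c % 3 = 2 := by omega
      rcases hr with hr | hr | hr <;> rw [hr] at hq <;> simp only [nm] <;> omega
    rw [e7]
  have e6 : (c + 1 + 1) % 3 = (2 * (2 * c + 1)) % 3 := by omega
  have e3 : (4 * (3 * c + 1) + (2 * (3 * c + 1)) % 3) / 3 = 4 * c + 2 := by omega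
  have e4 : (2 * (3 * c + 1)) % 3 = 2 := by omega
  rw [e1, e2] at h
  rw [e5, e6] at h2
  rw [st, st, e3, e4, h2]
  exact h

/-- A raw input read as `1 0^(3l+2)`, with `M + 1` ones. -/
def rw1 (M l : ℕ) : List Bool :=
  [true, false, false] ++ (pre M ++ List.replicate (9 * l + 6 - 3 * M) false)

theorem length_rw1 {M l : ℕ} (h : M ≤ 3 * l + 2) : (rw1 M l).length = 9 * l + 9 := by
  simp only [rw1, List.length_append, length_pre, List.length_replicate, List.length_cons,
    List.length_nil]
  omega

theorem R_rw1 {M l : ℕ} (h : M ≤ 3 * l + 2) : R 0 (rw1 M l) = ow 1 (3 * l + 2) := by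
  have e : R 0 [true, false, false] = [true] := by decide
  have e3 : 9 * l + 6 - 3 * M = 3 * (3 * l + 2 - M) := by omega
  rw [rw1, R_append, e, R_congr _ (p := 0 + 2 * [true, false, false].length) (q := 0) (by simp),
    R_pre, e3, ← List.append_nil (List.replicate (3 * (3 * l + 2 - M)) false), R_run, R,
    List.append_nil, ← List.replicate_add, show M + (3 * l + 2 - M) = 3 * l + 2 by omega, ow]
  rfl

theorem halts_ow (l : ℕ) (hl : 1 ≤ l) : Halts (dec (ow 1 (3 * l + 2))) ↔ Halts (st l) := by
  have h1 := halts_pass_iff 0 (ow 1 (3 * l + 2)) (by rw [length_ow]; omega)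
  have e1 : T 0 (ow 1 (3 * l + 2)) = ow 2 (2 * l + 1) := by
    have e : T 0 (List.replicate 1 true) = [true, true] := by decide
    have e2 : nm (0 + 2 * 1) (3 * l + 2) = 2 * l + 1 := by
      simp only [nm]
      omega
    rw [ow, T_append, e, T_replicate, chi_ones, e2]
    rfl
  have e2 : (0 + chi (ow 1 (3 * l + 2))) % 3 = 1 := by
    rw [chi_ow]
    omega
  have h2 := halts_pass_iff 1 (ow 2 (2 * l + 1)) (by rw [length_ow]; omega)
  have e3 : T 1 (ow 2 (2 * l + 1)) = ow 3 ((4 * l + (2 * l) % 3) / 3) := by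
    have e : T 1 (List.replicate 2 true) = [true, true, true] := by decide
    have e2 : nm (1 + 2 * 2) (2 * l + 1) = (4 * l + (2 * l) % 3) / 3 := by
      simp only [nm]
      omega
    rw [ow, T_append, e, T_replicate, chi_ones, e2]
    rfl
  have e4 : (1 + chi (ow 2 (2 * l + 1))) % 3 = (2 * l) % 3 := by
    rw [chi_ow]
    omega
  rw [e1, e2] at h1
  rw [e3, e4] at h2
  rw [st, h2]
  exact h1.symm

theorem halts_rw1 {M l : ℕ} (h : M ≤ 3 * l + 2) (hl : 1 ≤ l) : Halts (rw1 M l) ↔ Halts (st l) := by
  have h0 := halts_raw_iff (rw1 M l) (by rw [length_rw1 h]; omega)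
  rw [R_rw1 h, length_rw1 h, show (2 * (9 * l + 9)) % 3 = 0 by omega] at h0
  rw [← h0, ← halts_ow l hl]
  rfl

theorem rw1_zero (l : ℕ) : rw1 0 l = true :: List.replicate (9 * l + 8) false := by
  have e : (pre 0 : List Bool) = [] := by simp [pre]
  rw [rw1, e, List.nil_append, show 9 * l + 8 = 2 + (9 * l + 6 - 3 * 0) by omega,
    List.replicate_add]
  rfl

theorem count_rw1 (M l : ℕ) : (rw1 M l).count true = M + 1 := by
  have h : ∀ k : ℕ, (List.replicate k false).count true = 0 := fun k => by
    rw [List.count_eq_zero]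
    intro h
    simpa using List.eq_of_mem_replicate h
  have e : ([true, false, false] : List Bool).count true = 1 := by decide
  simp only [rw1, List.count_append, count_pre, h, e]
  omega

theorem halts_one_even (c : ℕ) :
    Halts (true :: List.replicate (18 * c + 26) false) ↔
      Halts (true :: List.replicate (27 * c + 26) false) := by
  have h1 := halts_rw1 (M := 0) (l := 2 * c + 2) (by omega) (by omega)
  have h2 := halts_rw1 (M := 0) (l := 3 * c + 2) (by omega) (by omega)
  rw [rw1_zero, show 9 * (2 * c + 2) + 8 = 18 * c + 26 by omega] at h1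
  rw [rw1_zero, show 9 * (3 * c + 2) + 8 = 27 * c + 26 by omega] at h2
  rw [h1, h2]
  exact halts_even c

theorem halts_one_odd (c : ℕ) :
    Halts (true :: List.replicate (18 * c + 17) false) ↔
      Halts (true :: List.replicate (27 * c + 17) false) := by
  have h1 := halts_rw1 (M := 0) (l := 2 * c + 1) (by omega) (by omega)
  have h2 := halts_rw1 (M := 0) (l := 3 * c + 1) (by omega) (by omega)
  rw [rw1_zero, show 9 * (2 * c + 1) + 8 = 18 * c + 17 by omega] at h1
  rw [rw1_zero, show 9 * (3 * c + 1) + 8 = 27 * c + 17 by omega] at h2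
  rw [h1, h2]
  exact halts_odd c

theorem st3_cycle : step^[83 + 10] (st 3) = step^[83] (st 3) := by
  decide +kernel

theorem st3_long : ∀ j < 83 + 10, 3 ≤ (step^[j] (st 3)).length := by
  decide +kernel

theorem st3_not_halts : ¬ Halts (st 3) := not_halts_of_cycle (by norm_num) st3_cycle st3_long

/-- Arbitrarily large non-halting configurations of the chain. -/
theorem exists_st_not_halts (n : ℕ) : ∃ l : ℕ, n ≤ l ∧ 3 ≤ l ∧ ¬ Halts (st l) := by
  induction n with
  | zero => exact ⟨3, by norm_num, le_rfl, st3_not_halts⟩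
  | succ n ih =>
    obtain ⟨l, h1, h2, h3⟩ := ih
    have hl : l % 2 = 0 ∨ l % 2 = 1 := by omega
    rcases hl with hl | hl
    · obtain ⟨c, rfl⟩ : ∃ c, l = 2 * c + 2 := ⟨(l - 2) / 2, by omega⟩
      exact ⟨3 * c + 2, by omega, by omega, fun h => h3 ((halts_even c).2 h)⟩
    · obtain ⟨c, rfl⟩ : ∃ c, l = 2 * c + 1 := ⟨(l - 1) / 2, by omega⟩
      exact ⟨3 * c + 1, by omega, by omega, fun h => h3 ((halts_odd c).2 h)⟩

/-- Infinitely many inputs with exactly `N ≥ 1` ones do not halt. -/
theorem infinite_ones (N : ℕ) (hN : 1 ≤ N) :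
    {w : List Bool | w.count true = N ∧ ¬ Halts w}.Infinite := by
  intro hfin
  obtain ⟨B, hB⟩ := (hfin.image List.length).bddAbove
  obtain ⟨l, h1, h2, h3⟩ := exists_st_not_halts (B + N)
  have hM : N - 1 ≤ 3 * l + 2 := by omega
  have h4 : (rw1 (N - 1) l).length ≤ B := by
    apply hB
    refine ⟨_, ⟨?_, ?_⟩, rfl⟩
    · rw [count_rw1]
      omega
    · rw [halts_rw1 hM (by omega)]
      exact h3
  rw [length_rw1 hM] at h4
  omega

/-- Infinitely many inputs `1 0^i` do not halt. -/
theorem infinite_single : {i : ℕ | ¬ Halts (true :: List.replicate i false)}.Infinite := by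
  intro hfin
  obtain ⟨B, hB⟩ := hfin.bddAbove
  obtain ⟨l, h1, h2, h3⟩ := exists_st_not_halts (B + 1)
  have h4 : 9 * l + 8 ≤ B := by
    apply hB
    change ¬ Halts (true :: List.replicate (9 * l + 8) false)
    rw [← rw1_zero, halts_rw1 (by omega) (by omega)]
    exact h3
  omega

end Pool.Agent.PostTag
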