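import Pool.Agent.PostTag.Auto
import Pool.Agent.PostTag.OneRun

/-!
Automatic families of inputs `U_0 0^{x_0} U_1 0^{x_1} ... U_m`.
-/

set_option autoImplicit false

namespace Pool.Agent.PostTag

/-- The word `U_0 0^{x_0} U_1 0^{x_1} U_2 ... 0^{x_{m-1}} U_m`. -/
def padIn {m : ℕ} (U : Fin (m + 1) → List Bool) (x : Fin m → ℕ) : List Bool :=
  U 0 ++ (List.ofFn fun i : Fin m => List.replicate (x i) false ++ U i.succ).flatten

/-- Every line contains a residue class of halting inputs. -/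
theorem line_has_halting_in (m : ℕ) (U : Fin (m + 1) → List Bool) (v p : Fin m → ℕ) (hp : p ≠ 0) :
    ∃ n0 M : ℕ, ∀ t : ℕ, Halts (padIn U (v + (n0 + 3 ^ M * t) • p)) := by
  obtain ⟨i, hi⟩ : ∃ i, p i ≠ 0 := by
    by_contra hc
    push Not at hc
    exact hp (funext hc)
  have hne : ∃ e ∈ (0, 0, U 0) :: (List.ofFn fun i : Fin m => (v i, p i, U i.succ)),
      0 < e.2.1 :=
    ⟨(v i, p i, U i.succ), List.mem_cons_of_mem _ (by rw [List.mem_ofFn]; exact ⟨i, rfl⟩),
      Nat.pos_of_ne_zero hi⟩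
  obtain ⟨n0, M, hn⟩ := lines_haltS _ hne
  refine ⟨n0, M, fun t => ?_⟩
  convert hn t using 1
  unfold padIn
  rw [List.flatMap_cons, List.flatMap_def, List.map_ofFn]
  simp [Function.comp_def]

theorem automatic_in (m : ℕ) (U : Fin (m + 1) → List Bool) (k : ℕ) (hk : 2 ≤ k)
    (h3 : Nat.Coprime k 3) (S : Set (Fin m → ℕ)) (hS : IsAutomatic k m S)
    (h : ∀ x ∈ S, ¬ Halts (padIn U x)) : S.Finite := by
  have h3' : ¬ 3 ∣ k := fun hc => by
    have h4 := Nat.Coprime.eq_one_of_dvd h3.symm hc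
    omega
  exact automatic_finite m k hk h3' (fun x => Halts (padIn U x))
    (fun v p hp => line_has_halting_in m U v p hp) S hS h

theorem IsAutomatic.compl {k m : ℕ} {S : Set (Fin m → ℕ)} (h : IsAutomatic k m S) :
    IsAutomatic k m Sᶜ := by
  unfold IsAutomatic at h ⊢
  exact h.compl

theorem not_automatic_single (k : ℕ) (hk : 2 ≤ k) (h3 : Nat.Coprime k 3) :
    ¬ IsAutomatic k 1 {x : Fin 1 → ℕ | Halts (true :: List.replicate (x 0) false)} := by
  intro h
  have h1 := automatic_in 1 ![[true], []] k hk h3 _ h.compl (fun x hx => by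
    have e : padIn ![[true], []] x = true :: List.replicate (x 0) false := by
      simp [padIn]
    rw [e]
    exact hx)
  apply infinite_single
  have h2 := h1.image (fun x : Fin 1 → ℕ => x 0)
  apply h2.subset
  intro i hi
  exact ⟨fun _ => i, hi, rfl⟩

end Pool.Agent.PostTag
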