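import Pool.Agent.PostTag.Equi

/-!
An explicit rate.
-/

set_option autoImplicit false

namespace Pool.Agent.PostTag

open Finset

theorem s_le_one (k : ℕ) : s k ≤ 1 := by
  unfold s
  rw [div_le_one (by positivity)]
  exact_mod_cast N_le_pow k [true]

/-- The survival probability is at most `1 / M` after `d 3^d` passes, `d = 20 + 5 M`. -/
theorem s_le_inv (M : ℕ) (hM : 1 ≤ M) (k : ℕ) (hk : (20 + 5 * M) * 3 ^ (20 + 5 * M) ≤ k) :
    s k ≤ 1 / M := by
  set d := 20 + 5 * M with hd
  have hM0 : (0 : ℝ) < M := by exact_mod_cast hM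
  by_contra hc
  push Not at hc
  have hcount : 3 * M ≤ (W0 ++ Yp M).count true := by
    rw [List.count_append, count_Yp]; omega
  have hbig : ∀ i ≤ k, 1 / (M : ℝ) < s i := fun i hi => hc.trans_le (s_antitone hi)
  have h3 : (0 : ℝ) < 3 ^ d := by positivity
  have hstep : ∀ i ≤ k, s (d + i) ≤ s i - 1 / 3 ^ d := by
    intro i hi
    have h1 := s_step (M := 3 * M) (reach_Yp M) hcount i
    have h2 := hbig i hi
    have h4 : (1 : ℝ) ≤ ((3 * M : ℕ) : ℝ) * s i - 1 := by
      push_cast
      have : (1 : ℝ) < M * s i := by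
        rw [div_lt_iff₀ hM0] at h2; linarith
      linarith
    have h5 : (1 : ℝ) / 3 ^ d ≤ (((3 * M : ℕ) : ℝ) * s i - 1) / 3 ^ d := by gcongr
    rw [← hd] at h1
    linarith
  have hind : ∀ j : ℕ, j * d ≤ k → s (j * d) ≤ 1 - j / 3 ^ d := by
    intro j
    induction j with
    | zero => intro _; simpa using s_le_one 0
    | succ j ih =>
      intro hj
      have hj' : j * d ≤ k := by
        have : j * d ≤ (j + 1) * d := Nat.mul_le_mul_right d (Nat.le_succ j)
        omega
      have h1 := ih hj'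
      have h2 := hstep (j * d) hj'
      rw [show (j + 1) * d = d + j * d by ring]
      push_cast
      have e : (1 : ℝ) - ((j : ℝ) + 1) / 3 ^ d = 1 - (j : ℝ) / 3 ^ d - 1 / 3 ^ d := by ring
      rw [e]
      linarith
  have hfin := hind (3 ^ d) (by rw [mul_comm]; exact hk)
  have e : (1 : ℝ) - ((3 ^ d : ℕ) : ℝ) / 3 ^ d = 0 := by
    push_cast
    rw [div_self h3.ne']
    ring
  rw [e] at hfin
  have h6 := hbig (3 ^ d * d) (by rw [mul_comm]; exact hk)
  have h7 : (0 : ℝ) < 1 / M := by positivity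
  linarith

theorem mul_pow_le (d : ℕ) : d * 3 ^ d ≤ 9 ^ d := by
  have h : d ≤ 3 ^ d := (Nat.lt_pow_self (by norm_num)).le
  calc d * 3 ^ d ≤ 3 ^ d * 3 ^ d := Nat.mul_le_mul_right _ h
    _ = 9 ^ d := by rw [← mul_pow]; norm_num

theorem s_log (k : ℕ) (hk : 1 ≤ k) : s k * Real.log k ≤ 30 * Real.log 9 := by
  have hk0 : (0 : ℝ) < k := by exact_mod_cast hk
  have hl9 : 0 < Real.log 9 := Real.log_pos (by norm_num)
  rcases lt_or_ge (Real.log k) (25 * Real.log 9) with h | h
  · have h0 : 0 ≤ Real.log k := Real.log_natCast_nonneg k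
    calc s k * Real.log k ≤ 1 * Real.log k := mul_le_mul_of_nonneg_right (s_le_one k) h0
      _ ≤ 30 * Real.log 9 := by linarith
  · have hx : 5 ≤ Real.log k / (5 * Real.log 9) := by
      rw [le_div_iff₀ (by positivity)]; linarith
    have hf5 : 5 ≤ ⌊Real.log k / (5 * Real.log 9)⌋₊ := Nat.le_floor (by exact_mod_cast hx)
    obtain ⟨M, hM⟩ : ∃ M : ℕ, ⌊Real.log k / (5 * Real.log 9)⌋₊ = M + 4 :=
      ⟨⌊Real.log k / (5 * Real.log 9)⌋₊ - 4, by omega⟩
    have hM1 : 1 ≤ M := by omega
    have hM0 : (1 : ℝ) ≤ M := by exact_mod_cast hM1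
    have hlo : ((M : ℝ) + 4) * (5 * Real.log 9) ≤ Real.log k := by
      have h1 : ((M + 4 : ℕ) : ℝ) ≤ Real.log k / (5 * Real.log 9) := by
        rw [← hM]; exact Nat.floor_le (by linarith)
      rw [le_div_iff₀ (by positivity)] at h1
      push_cast at h1
      exact h1
    have hhi : Real.log k < ((M : ℝ) + 5) * (5 * Real.log 9) := by
      have h1 : Real.log k / (5 * Real.log 9) < ((M + 4 : ℕ) : ℝ) + 1 := by
        rw [← hM]; exact Nat.lt_floor_add_one _
      rw [div_lt_iff₀ (by positivity)] at h1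
      push_cast at h1
      linarith
    have hpow : 9 ^ (20 + 5 * M) ≤ k := by
      have h1 : Real.log ((9 : ℝ) ^ (20 + 5 * M)) ≤ Real.log k := by
        rw [Real.log_pow]
        push_cast
        linarith
      have h2 : (9 : ℝ) ^ (20 + 5 * M) ≤ k := (Real.log_le_log_iff (by positivity) hk0).1 h1
      exact_mod_cast h2
    have hs := s_le_inv M hM1 k ((mul_pow_le _).trans hpow)
    calc s k * Real.log k ≤ 1 / M * (((M : ℝ) + 5) * (5 * Real.log 9)) := by
          apply mul_le_mul hs hhi.le (Real.log_natCast_nonneg k) (by positivity)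
      _ ≤ 30 * Real.log 9 := by
          rw [div_mul_eq_mul_div, div_le_iff₀ (by linarith)]
          nlinarith

open Classical in
/-- The main estimate. -/
theorem density_bound : ∃ C : ℝ, ∀ u v : List Bool, ∀ n : ℕ, 16 ≤ n →
    (((range n).filter (fun i => ¬ Halts (u ++ List.replicate i false ++ v))).card : ℝ)
      ≤ C * ((u.count true : ℝ) + v.count true) * n / Real.log (Real.log n) := by
  refine ⟨6 * (3 * (30 * Real.log 9)), ?_⟩
  intro u v n hn
  set r := u.count true + v.count true with hr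
  have hr' : ((u.count true : ℝ) + v.count true) = r := by rw [hr]; push_cast; ring
  rw [hr']
  set M := n / 3 + 1 with hM
  have hMn : n ≤ 3 * M := by omega
  have hM2 : 2 * M ≤ n := by omega
  have hM3 : 3 ≤ M := by omega
  set k := Nat.log 3 M with hk
  have hk1 : 1 ≤ k := by
    rw [hk]
    exact Nat.log_pos (by norm_num) hM3
  have hkM : 3 ^ k ≤ M := Nat.pow_log_le_self 3 (by omega)
  have hMk : M < 3 ^ (k + 1) := Nat.lt_pow_succ_log_self (by norm_num) M
  have h1 : (((range n).filter
      (fun i => ¬ Halts (u ++ List.replicate i false ++ v))).card : ℝ)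
        ≤ 3 * (((M / 3 ^ k : ℕ) + 1 : ℝ) * ((2 * r) * N k [true])) := by
    have h2 := card_le k M u v
    have h3 : ((range n).filter
      (fun i => ¬ Halts (u ++ List.replicate i false ++ v))).card
        ≤ ((range (3 * M)).filter
      (fun i => ¬ Halts (u ++ List.replicate i false ++ v))).card := by
      apply card_le_card
      apply filter_subset_filter
      exact range_subset_range.2 hMn
    exact_mod_cast h3.trans h2
  have h4 : 3 * (((M / 3 ^ k : ℕ) + 1 : ℝ) * ((2 * r) * N k [true])) ≤ 6 * r * n * s k := by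
    have h3k : (0 : ℝ) < 3 ^ k := by positivity
    have e : (N k [true] : ℝ) = s k * 3 ^ k := by
      unfold s; field_simp
    rw [e]
    have h5 : ((M / 3 ^ k : ℕ) : ℝ) * 3 ^ k ≤ M := by
      have := Nat.div_mul_le_self M (3 ^ k)
      exact_mod_cast this
    have h6 : (3 : ℝ) ^ k ≤ M := by exact_mod_cast hkM
    have h7 : (2 : ℝ) * M ≤ n := by exact_mod_cast hM2
    have h8 : (((M / 3 ^ k : ℕ) : ℝ) + 1) * 3 ^ k ≤ n := by nlinarith
    have h9 : 0 ≤ (r : ℝ) * s k := mul_nonneg (Nat.cast_nonneg _) (s_nonneg k)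
    calc 3 * (((M / 3 ^ k : ℕ) + 1 : ℝ) * ((2 * r) * (s k * 3 ^ k)))
        = 6 * ((r : ℝ) * s k) * ((((M / 3 ^ k : ℕ) : ℝ) + 1) * 3 ^ k) := by ring
      _ ≤ 6 * ((r : ℝ) * s k) * n := by
          apply mul_le_mul_of_nonneg_left h8 (by positivity)
      _ = _ := by ring
  -- logarithms
  have hn0 : (0 : ℝ) < n := by positivity
  have hlogn : 2 < Real.log n := by
    have h16 : Real.log 16 ≤ Real.log n := Real.log_le_log (by norm_num) (by exact_mod_cast hn)
    have : Real.log 16 = 4 * Real.log 2 := by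
      rw [show (16 : ℝ) = 2 ^ 4 by norm_num, Real.log_pow]; norm_num
    have h2 := Real.log_two_gt_d9
    linarith
  have hll : 0 < Real.log (Real.log n) := Real.log_pos (by linarith)
  have hkey : s k * Real.log (Real.log n) ≤ 3 * (30 * Real.log 9) := by
    -- log n ≤ log (3 M) ≤ (k + 2) log 3, hence log n ≤ 9 k ... log log n ≤ log 9 + log k
    have hk0 : (1 : ℝ) ≤ k := by exact_mod_cast hk1
    have h10 : Real.log n ≤ 9 * k := by
      have h11 : (n : ℝ) ≤ 3 ^ (k + 2) := by
        have : n ≤ 3 ^ (k + 2) := by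
          have e : 3 ^ (k + 2) = 3 * 3 ^ (k + 1) := by ring
          omega
        exact_mod_cast this
      have h12 : Real.log n ≤ Real.log (3 ^ (k + 2)) := Real.log_le_log hn0 h11
      rw [Real.log_pow] at h12
      have h13 : Real.log 3 ≤ 3 - 1 := Real.log_le_sub_one_of_pos (by norm_num)
      push_cast at h12
      have h14 : ((k : ℝ) + 2) * Real.log 3 ≤ ((k : ℝ) + 2) * 2 := by
        apply mul_le_mul_of_nonneg_left _ (by linarith)
        linarith
      linarith
    have h15 : Real.log (Real.log n) ≤ Real.log 9 + Real.log k := by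
      have h16 : Real.log (Real.log n) ≤ Real.log (9 * k) :=
        Real.log_le_log (by linarith) h10
      rwa [Real.log_mul (by norm_num) (by linarith)] at h16
    have h17 := s_log k hk1
    have h18 : s k * Real.log (Real.log n) ≤ s k * (Real.log 9 + Real.log k) :=
      mul_le_mul_of_nonneg_left h15 (s_nonneg k)
    have h19 : s k * Real.log 9 ≤ 1 * Real.log 9 :=
      mul_le_mul_of_nonneg_right (s_le_one k) (Real.log_nonneg (by norm_num))
    have hl9 : 0 < Real.log 9 := Real.log_pos (by norm_num)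
    nlinarith
  rw [le_div_iff₀ hll]
  calc _ ≤ (6 * r * n * s k) * Real.log (Real.log n) :=
        mul_le_mul_of_nonneg_right (h1.trans h4) hll.le
    _ = 6 * r * n * (s k * Real.log (Real.log n)) := by ring
    _ ≤ 6 * r * n * (3 * (30 * Real.log 9)) := by
        apply mul_le_mul_of_nonneg_left hkey (by positivity)
    _ = _ := by ring

end Pool.Agent.PostTag
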