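import Pool.Agent.PostTag.Tree

/-!
Fast checks of symbolic passes with a packed table.
-/

set_option autoImplicit false

namespace Pool.Agent.PostTag

/-- Entry of the packed table `tb` for the word of index `i` in phase `p`. -/
def tstep (tb i p : ℕ) : ℕ :=
  Nat.mod (Nat.shiftRight tb (Nat.mul (nat_lit 16) (Nat.add (Nat.mul (nat_lit 3) i) p)))
    (nat_lit 65536)

/-- One entry is correct. -/
def okEntry (wl : List (List Bool)) (tb i p : ℕ) : Bool :=
  !Nat.blt (tstep tb i p % 256) wl.length ||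
    ((wl.getD (tstep tb i p % 256) [] == core p (wl.getD i [])) &&
      Nat.beq (tstep tb i p / 256 + (p + chi (wl.getD i [])) % 3) (shf p (wl.getD i []) + 3))

/-- The packed table is correct. -/
def okTbl (wl : List (List Bool)) (tb : ℕ) : Bool :=
  (wl.getD 0 [] == [true, true, true]) &&
    (List.range wl.length).all fun i => (okEntry wl tb i 0 && okEntry wl tb i 1) && okEntry wl tb i 2

theorem okTbl_entry {wl : List (List Bool)} {tb : ℕ} (h : okTbl wl tb = true) {i p : ℕ}
    (hi : i < wl.length) (hp : p < 3) (hj : tstep tb i p % 256 < wl.length) :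
    wl.getD (tstep tb i p % 256) [] = core p (wl.getD i []) ∧
      tstep tb i p / 256 + (p + chi (wl.getD i [])) % 3 = shf p (wl.getD i []) + 3 := by
  simp only [okTbl, Bool.and_eq_true, List.all_eq_true, List.mem_range] at h
  obtain ⟨⟨h0, h1⟩, h2⟩ := h.2 i hi
  have key : okEntry wl tb i p = true := by
    have : p = 0 ∨ p = 1 ∨ p = 2 := by omega
    rcases this with rfl | rfl | rfl
    · exact h0
    · exact h1
    · exact h2
  simp only [okEntry, Bool.or_eq_true, Bool.and_eq_true, beq_iff_eq, Bool.not_eq_true',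
    Nat.beq_eq] at key
  rcases key with hc | hc
  · exfalso
    have : Nat.blt (tstep tb i p % 256) wl.length = true := by
      rw [Nat.blt_eq]
      exact hj
    rw [hc] at this
    exact Bool.false_ne_true this
  · exact hc

/-- The value of `f` at `n`; the kernel evaluates `n` first. -/
def force (n : ℕ) (f : ℕ → Bool) : Bool :=
  Nat.rec (motive := fun _ => Bool) (f (nat_lit 0)) (fun m _ => f (Nat.succ m)) n

theorem force_eq (n : ℕ) (f : ℕ → Bool) : force n f = f n := by
  cases n <;> rfl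

/-- The numerical form of `okPath`. -/
def run (N tb n : ℕ) : ℕ → ℕ → ℕ → Bool :=
  Nat.rec (motive := fun _ => ℕ → ℕ → ℕ → Bool)
    (fun i B r => Bool.rec (motive := fun _ => Bool) false (Nat.beq B (Nat.mul (nat_lit 4) r))
      (Nat.beq i (nat_lit 0)))
    (fun _ ih i B r => Bool.rec (motive := fun _ => Bool) false
      (Bool.rec (motive := fun _ => Bool) false
        (force (Nat.mod (Nat.mul (nat_lit 2) B) (nat_lit 3)) fun p =>
          force (tstep tb i p) fun x =>
            force (Nat.sub (Nat.add (Nat.mul (nat_lit 2) (Nat.div (Nat.add B p) (nat_lit 3)))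
              (Nat.div x (nat_lit 256))) (nat_lit 3)) fun B' =>
                force (Nat.mod x (nat_lit 256)) fun i' => ih i' B' r)
        (Nat.ble (nat_lit 30) B))
      (Nat.blt i N)) n

theorem bool_rec_eq (a b : Bool) : Bool.rec (motive := fun _ => Bool) false b a = (a && b) := by
  cases a <;> rfl

theorem run_zero (N tb i B r : ℕ) : run N tb 0 i B r = (Nat.beq i 0 && Nat.beq B (4 * r)) :=
  bool_rec_eq _ _

theorem run_succ (N tb n i B r : ℕ) : run N tb (n + 1) i B r =
    ((Nat.blt i N && Nat.ble 30 B) && run N tb n (tstep tb i ((2 * B) % 3) % 256)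
        (2 * ((B + (2 * B) % 3) / 3) + tstep tb i ((2 * B) % 3) / 256 - 3) r) := by
  rw [Bool.and_assoc, ← bool_rec_eq, ← bool_rec_eq]
  have e : run N tb (n + 1) i B r = Bool.rec (motive := fun _ => Bool) false
      (Bool.rec (motive := fun _ => Bool) false
        (force (Nat.mod (Nat.mul (nat_lit 2) B) (nat_lit 3)) fun p =>
          force (tstep tb i p) fun x =>
            force (Nat.sub (Nat.add (Nat.mul (nat_lit 2) (Nat.div (Nat.add B p) (nat_lit 3)))
              (Nat.div x (nat_lit 256))) (nat_lit 3)) fun B' =>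
                force (Nat.mod x (nat_lit 256)) fun i' => run N tb n i' B' r)
        (Nat.ble (nat_lit 30) B))
      (Nat.blt i N) := rfl
  rw [e, force_eq, force_eq, force_eq, force_eq]
  rfl

theorem run_zero_or {N tb n i B r : ℕ} (h : run N tb n i B r = true) (hN : 0 < N) : i < N := by
  cases n with
  | zero =>
    simp only [run_zero, Bool.and_eq_true, Nat.beq_eq] at h
    omega
  | succ n =>
    simp only [run_succ, Bool.and_eq_true, Nat.blt_eq] at h
    exact h.1.1

theorem run_sound {wl : List (List Bool)} {tb : ℕ} (htb : okTbl wl tb = true) (n : ℕ) :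
    ∀ i B r : ℕ, run wl.length tb n i B r = true → ∀ K t : ℕ,
      nxt^[n] (wl.getD i [], 3 ^ n * K * t + B) = ([true, true, true], 2 ^ n * K * t + 4 * r) ∧
      (Halts (stW (wl.getD i []) (3 ^ n * K * t + B)) ↔
        Halts (stW [true, true, true] (2 ^ n * K * t + 4 * r))) := by
  have hw0 : wl.getD 0 [] = [true, true, true] := by
    simp only [okTbl, Bool.and_eq_true, beq_iff_eq] at htb
    exact htb.1
  have hlen : 0 < wl.length := by
    rcases wl with _ | ⟨a, l⟩
    · simp at hw0
    · simp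
  induction n with
  | zero =>
    intro i B r h K t
    simp only [run_zero, Bool.and_eq_true, Nat.beq_eq] at h
    obtain ⟨rfl, rfl⟩ := h
    rw [hw0]
    simp
  | succ n ih =>
    intro i B r h K t
    simp only [run_succ, Bool.and_eq_true, Nat.blt_eq, Nat.ble_eq] at h
    obtain ⟨⟨h1, h2⟩, h3⟩ := h
    obtain ⟨p, hp⟩ : ∃ p, p = (2 * B) % 3 := ⟨_, rfl⟩
    rw [← hp] at h3
    have hp3 : p < 3 := by omega
    have hj := run_zero_or h3 hlen
    obtain ⟨h4, h5⟩ := okTbl_entry htb h1 hp3 hj
    obtain ⟨h6, h7⟩ := ih _ _ _ h3 (2 * K) t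
    obtain ⟨x, hx⟩ : ∃ x, x = 3 ^ n * K * t := ⟨_, rfl⟩
    have e3 : 3 ^ (n + 1) * K * t = 3 * x := by rw [hx, pow_succ]; ring
    have e4 : 3 ^ n * (2 * K) * t = 2 * x := by rw [hx]; ring
    have e5 : 2 ^ (n + 1) * K * t = 2 ^ n * (2 * K) * t := by rw [pow_succ]; ring
    have e1 : (2 * (3 * x + B)) % 3 = p := by omega
    have e2 : nxt (wl.getD i [], 3 * x + B) = (wl.getD (tstep tb i p % 256) [], 2 * x +
        (2 * ((B + p) / 3) + tstep tb i p / 256 - 3)) := by
      simp only [nxt]
      rw [e1, h4]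
      congr 1
      omega
    rw [e3, e5]
    rw [e4] at h6 h7
    refine ⟨?_, ?_⟩
    · rw [Function.iterate_succ_apply, e2]
      exact h6
    · rw [← h7]
      have h8 := halts_nxt (wl.getD i []) (3 * x + B) (by omega)
      rw [e2] at h8
      exact h8.symm

/-- Check of one row: `k` fields of 16 bits of `D`. -/
def rowOk (N tb J Q u r : ℕ) : ℕ → ℕ → ℕ → Bool
  | 0, _, _ => true
  | k + 1, prev, D => ((Nat.blt (u - D % 65536) prev && Nat.ble r (u - D % 65536)) &&
      (Nat.ble (u - D % 65536) (Q * r) && run N tb J 0 (4 * (u - D % 65536)) r)) &&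
        rowOk N tb J Q u r k (u - D % 65536) (D >>> 16)

theorem rowOk_sound {N tb J Q u r : ℕ} (k : ℕ) : ∀ prev D : ℕ,
    rowOk N tb J Q u r k prev D = true → ∃ S : Finset ℕ, S.card = k ∧ ∀ s ∈ S, s < prev ∧ r ≤ s ∧
      s ≤ Q * r ∧ run N tb J 0 (4 * s) r = true := by
  induction k with
  | zero => intro prev D _; exact ⟨∅, by simp, by simp⟩
  | succ k ih =>
    intro prev D h
    simp only [rowOk, Bool.and_eq_true, Nat.blt_eq, Nat.ble_eq] at h
    obtain ⟨⟨⟨h1, h2⟩, h3, h4⟩, h5⟩ := h
    obtain ⟨S, hS, hS2⟩ := ih _ _ h5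
    refine ⟨insert (u - D % 65536) S, ?_, ?_⟩
    · rw [Finset.card_insert_of_notMem, hS]
      intro hc
      exact absurd (hS2 _ hc).1 (lt_irrefl _)
    · intro s hs
      rcases Finset.mem_insert.1 hs with rfl | hs
      · exact ⟨h1, h2, h3, h4⟩
      · obtain ⟨g1, g2⟩ := hS2 _ hs
        exact ⟨g1.trans h1, g2⟩

/-- Check of `n` rows. -/
def chunkOk (N tb J c num Q : ℕ) : ℕ → ℕ → ℕ → Bool
  | 0, _, _ => true
  | n + 1, r, D => rowOk N tb J Q (num * r / 2 ^ J + 256) r c (Q * r + 1) (D % 2 ^ (16 * c)) &&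
      chunkOk N tb J c num Q n (r + 1) (D >>> (16 * c))

theorem chunkOk_sound {N tb J c num Q : ℕ} (n : ℕ) : ∀ r0 D : ℕ,
    chunkOk N tb J c num Q n r0 D = true → ∀ r, r0 ≤ r → r < r0 + n →
      ∃ S : Finset ℕ, S.card = c ∧ ∀ s ∈ S, r ≤ s ∧ s ≤ Q * r ∧
        run N tb J 0 (4 * s) r = true := by
  induction n with
  | zero => intro r0 D _ r h1 h2; omega
  | succ n ih =>
    intro r0 D h r h1 h2
    simp only [chunkOk, Bool.and_eq_true] at h
    rcases Nat.eq_or_lt_of_le h1 with rfl | h3
    · obtain ⟨S, hS, hS2⟩ := rowOk_sound _ _ _ h.1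
      exact ⟨S, hS, fun s hs => (hS2 s hs).2⟩
    · exact ih _ _ h.2 r h3 (by omega)

end Pool.Agent.PostTag
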