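import Pool.Agent.PostTag.Chain

/-!
Non-halting inputs of Post's tag system with a prescribed number `N ≥ 4` of ones and arbitrary
length.
-/

set_option autoImplicit false

namespace Pool.Agent.PostTag

/-- Raw letters read as a group of `E + 1` ones; there are always exactly two ones. -/
def g3 (E : ℕ) : List Bool :=
  if E = 0 then [true, true, false] else [true, false, false, true, false, false]

/-- Raw letters read as `M` zeros, with `M` ones. -/
def pre (M : ℕ) : List Bool := (List.replicate M [false, true, false]).flatten

theorem R_run (k : ℕ) (l : List Bool) :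
    R 0 (List.replicate (3 * k) false ++ l) = List.replicate k false ++ R 0 l := by
  rw [R_append, R_replicate]
  have h := rn_three_mul 0 k 0
  simp only [add_zero, rn] at h
  rw [h, List.length_replicate, R_congr l (p := 0 + 2 * (3 * k)) (q := 0) (by omega)]

theorem R_group {E : ℕ} (hE : E < 2) (l : List Bool) :
    R 0 (g3 E ++ l) = List.replicate (E + 1) true ++ R 0 l := by
  have hE' : E = 0 ∨ E = 1 := by omega
  rw [R_append]
  rcases hE' with rfl | rfl
  · have e : R 0 (g3 0) = [true] := by decide
    rw [e]
    congr 1
    exact R_congr l (by simp [g3])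
  · have e : R 0 (g3 1) = [true, true] := by decide
    rw [e]
    congr 1
    exact R_congr l (by simp [g3])

theorem R_pre (M : ℕ) (l : List Bool) : R 0 (pre M ++ l) = List.replicate M false ++ R 0 l := by
  induction M with
  | zero => simp [pre]
  | succ M ih =>
    have e : pre (M + 1) ++ l = [false, true, false] ++ (pre M ++ l) := by
      simp [pre, List.replicate_succ]
    rw [e, R_append]
    have e2 : R 0 [false, true, false] = [false] := by decide
    rw [e2, R_congr (pre M ++ l) (p := 0 + 2 * [false, true, false].length) (q := 0) (by simp), ih]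
    simp [List.replicate_succ]

theorem length_pre (M : ℕ) : (pre M).length = 3 * M := by
  induction M with
  | zero => simp [pre]
  | succ M ih =>
    have e : pre (M + 1) = [false, true, false] ++ pre M := by simp [pre, List.replicate_succ]
    rw [e, List.length_append, ih]
    simp
    ring

theorem count_pre (M : ℕ) : (pre M).count true = M := by
  induction M with
  | zero => simp [pre]
  | succ M ih =>
    have e : pre (M + 1) = [false, true, false] ++ pre M := by simp [pre, List.replicate_succ]
    rw [e, List.count_append, ih]
    simp
    ring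

theorem R_last {c p : ℕ} (hc : 1 ≤ c) (hp : p < 3) :
    R 0 (List.replicate (3 * c - p) false) = List.replicate c false := by
  rw [R_replicate]
  congr 1
  have e : 3 * c - p = 3 * (c - 1) + (3 - p) := by omega
  rw [e, rn_three_mul]
  have hp' : p = 0 ∨ p = 1 ∨ p = 2 := by omega
  have h1 : rn 0 (3 - p) = 1 := by
    rcases hp' with rfl | rfl | rfl <;> decide
  omega

/-- The raw input. -/
def raw (M a E b F c p : ℕ) : List Bool :=
  pre M ++ (List.replicate (3 * (a - M)) false ++ (g3 E ++ (List.replicate (3 * b) false ++
    (g3 F ++ List.replicate (3 * c - p) false))))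

theorem R_raw {M a E b F c p : ℕ} (hM : M ≤ a) (hE : E < 2) (hF : F < 2) (hc : 1 ≤ c)
    (hp : p < 3) : R 0 (raw M a E b F c p) = cfg a E b F c := by
  unfold raw cfg
  rw [R_pre, R_run, R_group hE, R_run, R_group hF, R_last hc hp, rep_app,
    show M + (a - M) = a by omega]

theorem length_g3 {E : ℕ} (hE : E < 2) : (g3 E).length = 3 * (E + 1) := by
  have hE' : E = 0 ∨ E = 1 := by omega
  rcases hE' with rfl | rfl <;> simp [g3]

theorem count_g3 (E : ℕ) : (g3 E).count true = 2 := by
  unfold g3
  split_ifs <;> decide

theorem length_raw {M a E b F c p : ℕ} (hM : M ≤ a) (hE : E < 2) (hF : F < 2) :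
    (raw M a E b F c p).length = 3 * a + 3 * (E + 1) + 3 * b + 3 * (F + 1) + (3 * c - p) := by
  unfold raw
  simp only [List.length_append, length_pre, length_g3 hE, length_g3 hF, List.length_replicate]
  omega

theorem count_raw (M a E b F c p : ℕ) : (raw M a E b F c p).count true = M + 4 := by
  unfold raw
  simp only [List.count_append, count_pre, count_g3]
  have h : ∀ k : ℕ, (List.replicate k false).count true = 0 := fun k => by
    rw [List.count_eq_zero]
    intro h
    simpa using List.eq_of_mem_replicate h
  simp only [h]

/-- For every `N ≥ 4` there are arbitrarily long non-halting inputs with exactly `N` ones. -/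
theorem exists_not_halts (N : ℕ) (hN : 4 ≤ N) (n : ℕ) :
    ∃ w : List Bool, w.count true = N ∧ n ≤ w.length ∧ ¬ Halts w := by
  obtain ⟨a, E, b, F, c, p, ha, hb, hc, ha9, hb9, hc9, hI, hH⟩ := chain (n + N)
  obtain ⟨hE, hF, hp, -, -, -⟩ := hI
  refine ⟨raw (N - 4) a E b F c p, ?_, ?_, ?_⟩
  · rw [count_raw]; omega
  · rw [length_raw (by omega) hE hF]; omega
  · apply not_halts_raw
    · rw [length_raw (by omega) hE hF]; omega
    · rw [R_raw (by omega) hE hF (by omega) hp, length_raw (by omega) hE hF]
      have e : (2 * (3 * a + 3 * (E + 1) + 3 * b + 3 * (F + 1) + (3 * c - p))) % 3 = p := by omega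
      rw [e]
      exact hH

end Pool.Agent.PostTag
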