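import Pool.Agent.PostTag.Tab.Data0
import Pool.Agent.PostTag.Tab.Data1
import Pool.Agent.PostTag.Tab.Data2
import Pool.Agent.PostTag.Tab.Data3
import Pool.Agent.PostTag.Tab.Data4
import Pool.Agent.PostTag.Tab.Data5
import Pool.Agent.PostTag.Tab.Data6
import Pool.Agent.PostTag.Tab.Data7
import Pool.Agent.PostTag.Tab.Data8
import Pool.Agent.PostTag.Tab.Data9
import Pool.Agent.PostTag.Tab.Data10
import Pool.Agent.PostTag.Tab.Data11
import Pool.Agent.PostTag.Tab.Data12
import Pool.Agent.PostTag.Tab.Data13
import Pool.Agent.PostTag.Tab.Data14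
import Pool.Agent.PostTag.Tab.Data15
import Pool.Agent.PostTag.Count

/-!
The whole table.
-/

set_option autoImplicit false

namespace Pool.Agent.PostTag

theorem table (r : ℕ) (h1 : 16384 ≤ r) (h2 : r < 32768) : ∃ S : Finset ℕ, S.card = 7 ∧
    ∀ s ∈ S, r ≤ s ∧ s ≤ 292 * r ∧ run wl.length tbl 14 0 (4 * s) r = true := by
  rcases lt_or_ge r 17408 with h | h
  · exact part0 r (by omega) (by omega)
  rcases lt_or_ge r 18432 with h | h
  · exact part1 r (by omega) (by omega)
  rcases lt_or_ge r 19456 with h | h
  · exact part2 r (by omega) (by omega)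
  rcases lt_or_ge r 20480 with h | h
  · exact part3 r (by omega) (by omega)
  rcases lt_or_ge r 21504 with h | h
  · exact part4 r (by omega) (by omega)
  rcases lt_or_ge r 22528 with h | h
  · exact part5 r (by omega) (by omega)
  rcases lt_or_ge r 23552 with h | h
  · exact part6 r (by omega) (by omega)
  rcases lt_or_ge r 24576 with h | h
  · exact part7 r (by omega) (by omega)
  rcases lt_or_ge r 25600 with h | h
  · exact part8 r (by omega) (by omega)
  rcases lt_or_ge r 26624 with h | h
  · exact part9 r (by omega) (by omega)
  rcases lt_or_ge r 27648 with h | h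
  · exact part10 r (by omega) (by omega)
  rcases lt_or_ge r 28672 with h | h
  · exact part11 r (by omega) (by omega)
  rcases lt_or_ge r 29696 with h | h
  · exact part12 r (by omega) (by omega)
  rcases lt_or_ge r 30720 with h | h
  · exact part13 r (by omega) (by omega)
  rcases lt_or_ge r 31744 with h | h
  · exact part14 r (by omega) (by omega)
  exact part15 r (by omega) (by omega)

theorem fan : Fan 14 7 292 :=
  fan_of_table tbl_ok (by norm_num) fun r h1 h2 => table r (by norm_num at h1; omega)
    (by norm_num at h2; omega)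

end Pool.Agent.PostTag
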