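import Pool.Agent.PostTag.OneRun

/-!
Exact forward passes on configurations with a single run of zeros, in symbolic form: the length of
the run is an affine function of a parameter.
-/

set_option autoImplicit false

namespace Pool.Agent.PostTag

/-- Number of leading zeros, and the rest. -/
def lead : List Bool → ℕ × List Bool
  | [] => (0, [])
  | true :: l => (0, true :: l)
  | false :: l => ((lead l).1 + 1, (lead l).2)

theorem lead_eq (l : List Bool) : List.replicate (lead l).1 false ++ (lead l).2 = l := by
  induction l with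
  | nil => rfl
  | cons x l ih =>
    cases x
    · simp only [lead, List.replicate_succ, List.cons_append, ih]
    · rfl

/-- The word without its trailing zeros, and their number. -/
def trail : List Bool → List Bool × ℕ
  | [] => ([], 0)
  | x :: l => if (trail l).1.isEmpty then (if x then ([true], (trail l).2) else ([], (trail l).2 + 1))
      else (x :: (trail l).1, (trail l).2)

theorem trail_eq (l : List Bool) : (trail l).1 ++ List.replicate (trail l).2 false = l := by
  induction l with
  | nil => rfl
  | cons x l ih =>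
    simp only [trail]
    by_cases h : (trail l).1.isEmpty = true
    · rw [if_pos h]
      rw [List.isEmpty_iff] at h
      rw [h, List.nil_append] at ih
      cases x
      · simp only [Bool.false_eq_true, if_false, List.nil_append, List.replicate_succ, ih]
      · simp only [if_true, List.singleton_append, ih]
    · rw [if_neg h]
      simp only [List.cons_append, ih]

/-- Moving leading zeros. -/
theorem halts_leads_iff (p a : ℕ) (W : List Bool) (hW : 3 ≤ W.length) :
    Halts ((dec (W ++ T p (List.replicate a false))).drop ((p + a) % 3)) ↔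
      Halts ((dec (List.replicate a false ++ W)).drop (p % 3)) := by
  have hne : W ≠ [] := by
    rintro rfl
    simp at hW
  have h := iter_part (List.replicate a false) p W hne
  rw [chi_replicate] at h
  apply halts_iff_of_iterate h
  have h2 := length_dec_ge' (List.replicate a false ++ W)
  rw [List.length_drop, T_replicate, List.length_replicate]
  rw [List.length_append, List.length_replicate] at h2
  have h3 : nm p a ≤ a := Nat.sub_le _ _
  omega

/-- The configuration with word `w` and index `L`. -/
def stW (w : List Bool) (L : ℕ) : List Bool :=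
  (dec (w ++ List.replicate ((L + (2 * L) % 3) / 3) false)).drop ((2 * L) % 3)

theorem st_eq (l : ℕ) : st l = stW [true, true, true] (4 * l) := by
  have e1 : (2 * (4 * l)) % 3 = (2 * l) % 3 := by omega
  rw [st, stW, e1]
  rfl

/-- The word after a pass of `w` in phase `p`. -/
def core (p : ℕ) (w : List Bool) : List Bool := (trail (lead (T p w)).2).1

/-- The shift of the index in a pass of `w` in phase `p`. -/
def shf (p : ℕ) (w : List Bool) : ℕ :=
  2 * (lead (T p w)).1 + 3 * (trail (lead (T p w)).2).2

/-- One pass. -/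
def nxt (s : List Bool × ℕ) : List Bool × ℕ :=
  (core ((2 * s.2) % 3) s.1, 2 * ((s.2 + (2 * s.2) % 3) / 3) + shf ((2 * s.2) % 3) s.1
    - ((2 * s.2) % 3 + chi s.1) % 3)

theorem halts_nxt (w : List Bool) (L : ℕ) (hL : 30 ≤ L) :
    Halts (stW (nxt (w, L)).1 (nxt (w, L)).2) ↔ Halts (stW w L) := by
  obtain ⟨p, hp⟩ : ∃ p, p = (2 * L) % 3 := ⟨_, rfl⟩
  obtain ⟨n, hn⟩ : ∃ n, n = (L + p) / 3 := ⟨_, rfl⟩
  obtain ⟨a, ha⟩ : ∃ a, a = (lead (T p w)).1 := ⟨_, rfl⟩
  obtain ⟨v, hv⟩ : ∃ v, v = (lead (T p w)).2 := ⟨_, rfl⟩
  obtain ⟨m, hm⟩ : ∃ m, m = (trail v).1 := ⟨_, rfl⟩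
  obtain ⟨b, hb⟩ : ∃ b, b = (trail v).2 := ⟨_, rfl⟩
  obtain ⟨e, he⟩ : ∃ e, e = (p + chi w) % 3 := ⟨_, rfl⟩
  have hT : T p w = List.replicate a false ++ (m ++ List.replicate b false) := by
    rw [hm, hb, trail_eq, ha, hv, lead_eq]
  have hp3 : p < 3 := by omega
  have he3 : e < 3 := by omega
  have hn10 : 10 ≤ n := by omega
  have h1 := halts_pass_iff p (w ++ List.replicate n false) (by
    rw [List.length_append, List.length_replicate]; omega)
  have e1 : T p (w ++ List.replicate n false) = List.replicate a false ++
      (m ++ List.replicate (b + nm e n) false) := by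
    rw [T_append, hT, T_replicate, List.append_assoc, List.append_assoc, ← List.replicate_add]
    have : nm (p + chi w) n = nm e n := by
      simp only [nm]
      rw [he, Nat.mod_mod]
    rw [this]
  have e2 : (p + chi (w ++ List.replicate n false)) % 3 = (e + n) % 3 := by
    rw [chi_append, chi_replicate]
    omega
  have h2 := halts_leads_iff (e + n) a (m ++ List.replicate (b + nm e n) false) (by
    rw [List.length_append, List.length_replicate]
    have : 3 ≤ nm e n := by
      simp only [nm]
      omega
    omega)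
  have hL' : (nxt (w, L)).2 = 2 * n + (2 * a + 3 * b) - e := by
    simp only [nxt, shf]
    rw [← hp, ← hn, ← ha, ← hv, ← hb, ← he]
  have hw' : (nxt (w, L)).1 = m := by
    simp only [nxt, core]
    rw [← hp, ← hv, ← hm]
  obtain ⟨L', hLL⟩ : ∃ L', L' = 2 * n + (2 * a + 3 * b) - e := ⟨_, rfl⟩
  have e4 : (2 * L') % 3 = (e + n + a) % 3 := by omega
  have e5 : b + nm e n + nm (e + n) a = (L' + (2 * L') % 3) / 3 := by
    rw [e4]
    simp only [nm]
    omega
  have e3 : m ++ List.replicate (b + nm e n) false ++ T (e + n) (List.replicate a false)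
      = m ++ List.replicate ((L' + (2 * L') % 3) / 3) false := by
    rw [T_replicate, List.append_assoc, ← List.replicate_add, e5]
  rw [e1, e2] at h1
  rw [e3, ← e4] at h2
  rw [hw', hL', ← hLL]
  rw [stW, stW, ← hp, ← hn, h2]
  have hpp : p % 3 = p := Nat.mod_eq_of_lt hp3
  rw [hpp] at h1
  exact h1

/-- Symbolic passes: all intermediate indices are `A t + B`; the last configuration must be the
word `111` with index `A' t + 4 r`. -/
def okPath : ℕ → List Bool → ℕ → ℕ → ℕ → ℕ → Bool
  | 0, w, A, B, A', r => (w == [true, true, true]) && ((A == A') && (B == 4 * r))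
  | n + 1, w, A, B, A', r => ((A % 3 == 0) && Nat.ble 30 B) &&
      okPath n (core ((2 * B) % 3) w) (A / 3 * 2)
        (2 * ((B + (2 * B) % 3) / 3) + shf ((2 * B) % 3) w - ((2 * B) % 3 + chi w) % 3) A' r

theorem okPath_sound (n : ℕ) : ∀ (w : List Bool) (A B A' r : ℕ), okPath n w A B A' r = true →
    ∀ t : ℕ, nxt^[n] (w, A * t + B) = ([true, true, true], A' * t + 4 * r) ∧
      (Halts (stW w (A * t + B)) ↔ Halts (stW [true, true, true] (A' * t + 4 * r))) := by
  induction n with
  | zero =>
    intro w A B A' r h t
    simp only [okPath, Bool.and_eq_true, beq_iff_eq] at h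
    obtain ⟨rfl, rfl, rfl⟩ := h
    simp
  | succ n ih =>
    intro w A B A' r h t
    simp only [okPath, Bool.and_eq_true, beq_iff_eq, Nat.ble_eq] at h
    obtain ⟨⟨h1, h2⟩, h3⟩ := h
    obtain ⟨c, rfl⟩ : ∃ c, A = 3 * c := ⟨A / 3, by omega⟩
    obtain ⟨h4, h5⟩ := ih _ _ _ _ _ h3 t
    have e0 : 3 * c / 3 = c := by omega
    rw [e0] at h4 h5
    obtain ⟨x, hx⟩ : ∃ x, x = c * t := ⟨_, rfl⟩
    have e1 : (2 * (3 * c * t + B)) % 3 = (2 * B) % 3 := by
      rw [mul_assoc, ← hx]
      omega
    have e2 : nxt (w, 3 * c * t + B) = (core ((2 * B) % 3) w, c * 2 * t +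
        (2 * ((B + (2 * B) % 3) / 3) + shf ((2 * B) % 3) w - ((2 * B) % 3 + chi w) % 3)) := by
      simp only [nxt]
      rw [e1]
      congr 1
      have e3 : 3 * c * t = 3 * x := by rw [hx]; ring
      have e4 : c * 2 * t = 2 * x := by rw [hx]; ring
      rw [e3, e4]
      omega
    refine ⟨?_, ?_⟩
    · rw [Function.iterate_succ_apply, e2]
      exact h4
    · rw [← h5]
      have h6 := halts_nxt w (3 * c * t + B) (by omega)
      rw [e2] at h6
      exact h6.symm

end Pool.Agent.PostTag
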