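import Pool.Agent.PostTag.Run

/-!
The words that occur in the table, and their passes.
-/

set_option autoImplicit false

namespace Pool.Agent.PostTag

/-- The words, the first one is the word of the chain. -/
def wl : List (List Bool) :=
  [[true, true, true],
   [true],
   [true, true],
   [true, false, true],
   [true, true, false, true],
   [true, true, true, true],
   [true, false, true, false, true],
   [true, false, true, true, true],
   [true, true, true, false, true],
   [true, true, true, true, true],
   [true, true, false, true, false, true],
   [true, true, false, true, true, true],
   [true, true, true, true, false, true],
   [true, true, true, true, true, true],
   [true, false, false, false, true, false, true],
   [true, false, false, false, true, true, true],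
   [true, false, false, true, true, false, true],
   [true, false, true, false, true, true, true],
   [true, true, true, false, true, false, true],
   [true, true, true, false, true, true, true],
   [true, true, true, true, true, false, true],
   [true, true, true, true, true, true, true],
   [true, true, false, false, false, false, true, true],
   [true, true, false, false, false, true, true, true],
   [true, true, false, true, false, true, false, true],
   [true, true, false, true, false, true, true, true],
   [true, true, false, true, true, true, true, true],
   [true, true, true, true, true, true, false, true],
   [true, false, true, false, false, false, true, false, true],
   [true, true, true, false, false, false, true, true, true],
   [true, true, false, false, false, true, true, true, false, true],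
   [true, true, false, true, false, false, true, true, false, true],
   [true, true, false, true, true, true, false, true, false, true]]

/-- The packed passes. -/
def tbl : ℕ := 0x130703ff03ff051c03ff0b1603ff03ff0b17031d051d031f0d0303ff110503ff0b13032003ff03ff031e071103ff03ff03ff03ff17020510011d0517030f03ff03ff071303ff03ff051203ff0b0b0514011d05190315110003180b000511031b0f02030e011a0b0003100117090303ff11020313051303ff0d000312011a07070314011705060115110205080113050b03090b00030a07000507030c03ff0306010d07000308010b050301090b0203ff0303010505010100050203ff03010102030005000304

theorem tbl_ok : okTbl wl tbl = true := by
  decide +kernel

end Pool.Agent.PostTag
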